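import Mathlib

/-!
# Points, cubes, and the number of heavy clauses

A clause is a sequence `d` of `w` pairs (variable, value); `cube d` is the set of the points which
have these values (the assignments which falsify the clause).
-/

set_option autoImplicit false

namespace Pool.Agent.MP_e81270_lc.X3

open Finset

/-- points of the cube -/
abbrev Pt (N : ℕ) := Fin N → Bool

/-- clauses, as sequences of `w` pairs (variable, falsifying value) -/
abbrev Cl (N w : ℕ) := Fin w → Fin N × Bool

variable {N w k : ℕ}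

/-- the points which falsify the clause -/
def cube (d : Cl N w) : Finset (Pt N) := univ.filter fun x => ∀ i, x (d i).1 = (d i).2

lemma mem_cube {d : Cl N w} {x : Pt N} : x ∈ cube d ↔ ∀ i, x (d i).1 = (d i).2 := by
  simp [cube]

/-- number of the coordinates in which the points of the tuple agree -/
def agr (x : Fin k → Pt N) : ℕ := (univ.filter fun j => ∀ i i', x i j = x i' j).card

lemma agr_le (x : Fin k → Pt N) : agr x ≤ N := by
  unfold agr
  refine (card_le_univ _).trans ?_
  simp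

lemma card_tuple (hk : 0 < k) (x : Fin k → Pt N) :
    (univ.filter fun d : Cl N w => ∀ i, x i ∈ cube d).card = agr x ^ w := by
  have h1 : (univ.filter fun d : Cl N w => ∀ i, x i ∈ cube d)
      = Fintype.piFinset fun _ : Fin w =>
        univ.filter fun p : Fin N × Bool => ∀ i, x i p.1 = p.2 := by
    ext d
    simp only [mem_filter, mem_univ, true_and, Fintype.mem_piFinset, mem_cube]
    exact ⟨fun h i j => h j i, fun h i j => h j i⟩
  have h2 : (univ.filter fun p : Fin N × Bool => ∀ i, x i p.1 = p.2).card = agr x := by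
    unfold agr
    refine card_bij' (fun p _ => p.1) (fun j _ => (j, x ⟨0, hk⟩ j)) ?_ ?_ ?_ ?_
    · rintro ⟨j, b⟩ h
      simp only [mem_filter, mem_univ, true_and] at h ⊢
      intro i i'
      rw [h i, h i']
    · intro j h
      simp only [mem_filter, mem_univ, true_and] at h ⊢
      exact fun i => h i _
    · rintro ⟨j, b⟩ h
      simp only [mem_filter, mem_univ, true_and] at h ⊢
      rw [h]
    · intro j h
      rfl
  rw [h1, Fintype.card_piFinset, prod_const, h2, card_univ, Fintype.card_fin]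

lemma sum_moment (hk : 0 < k) (U : Finset (Pt N)) :
    ∑ d : Cl N w, (U ∩ cube d).card ^ k
      = ∑ x ∈ Fintype.piFinset (fun _ : Fin k => U), agr x ^ w := by
  classical
  have h1 : ∀ d : Cl N w, (U ∩ cube d).card ^ k
      = ∑ x ∈ Fintype.piFinset (fun _ : Fin k => U), if ∀ i, x i ∈ cube d then 1 else 0 := by
    intro d
    have h2 : (Fintype.piFinset fun _ : Fin k => U ∩ cube d).card = (U ∩ cube d).card ^ k := by
      rw [Fintype.card_piFinset, prod_const, card_univ, Fintype.card_fin]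
    rw [← h2, ← card_filter]
    congr 1
    ext x
    simp only [Fintype.mem_piFinset, mem_inter, mem_filter]
    exact ⟨fun h => ⟨fun i => (h i).1, fun i => (h i).2⟩, fun h i => ⟨h.1 i, h.2 i⟩⟩
  simp only [h1]
  rw [sum_comm]
  refine sum_congr rfl fun x _ => ?_
  rw [← card_tuple hk, card_filter]

lemma card_const (hk : 0 < k) : (univ.filter fun c : Fin k → Bool => ∀ i i', c i = c i').card ≤ 2 := by
  have h : (univ.filter fun c : Fin k → Bool => ∀ i i', c i = c i').card
      ≤ (univ : Finset Bool).card := by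
    refine card_le_card_of_injOn (fun c => c ⟨0, hk⟩) (fun _ _ => mem_univ _) ?_
    intro c hc c' hc' h
    simp only [coe_filter, mem_univ, true_and, Set.mem_ofPred_eq] at hc hc'
    funext i
    rw [hc i ⟨0, hk⟩, hc' i ⟨0, hk⟩]
    exact h
  simpa using h

/-- sum of `2 ^ agr` -/
lemma sum_pow_agr (hk : 0 < k) : ∑ x : Fin k → Pt N, 2 ^ agr x ≤ (2 ^ k + 2) ^ N := by
  have h1 : ∀ x : Fin k → Pt N, 2 ^ agr x
      = ∏ j, if (∀ i i', x i j = x i' j) then 2 else 1 := by
    intro x
    rw [agr, prod_ite]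
    simp
  simp only [h1]
  have h2 := Finset.prod_univ_sum (fun _ : Fin N => (univ : Finset (Fin k → Bool)))
    (fun _ c => if (∀ i i', c i = c i') then 2 else 1)
  rw [Fintype.piFinset_univ] at h2
  have h3 : ∑ x : Fin k → Pt N, ∏ j, (if (∀ i i', x i j = x i' j) then 2 else 1)
      = ∑ x : Fin N → Fin k → Bool, ∏ j, (if (∀ i i', x j i = x j i') then 2 else 1) := by
    refine Fintype.sum_equiv (Equiv.piComm fun _ _ => Bool) _ _ ?_
    intro x
    rfl
  rw [h3, ← h2]
  have h4 : (∑ c : Fin k → Bool, if (∀ i i', c i = c i') then 2 else 1) ≤ 2 ^ k + 2 := by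
    have h5 : (∑ c : Fin k → Bool, if (∀ i i', c i = c i') then 2 else 1)
        = ∑ c : Fin k → Bool, (1 + if (∀ i i', c i = c i') then 1 else 0) := by
      refine sum_congr rfl fun c _ => ?_
      split_ifs <;> rfl
    rw [h5, sum_add_distrib, sum_const, card_univ, Fintype.card_fun, Fintype.card_bool,
      Fintype.card_fin, smul_eq_mul, mul_one, ← card_filter]
    exact Nat.add_le_add_left (card_const hk) _
  calc ∏ _j : Fin N, (∑ c : Fin k → Bool, if (∀ i i', c i = c i') then 2 else 1)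
      ≤ ∏ _j : Fin N, (2 ^ k + 2) := prod_le_prod (fun _ _ => Nat.zero_le _) fun _ _ => h4
    _ = _ := by rw [prod_const, card_univ, Fintype.card_fin]

lemma exp_bound (n : ℕ) (hn : 0 < n) : (n + 2) ^ n ≤ 8 * n ^ n := by
  have hn' : (0 : ℝ) < n := by exact_mod_cast hn
  have h1 : (1 + 2 / (n : ℝ)) ^ n ≤ Real.exp 2 := by
    calc (1 + 2 / (n : ℝ)) ^ n ≤ (Real.exp (2 / n)) ^ n := by
          refine pow_le_pow_left₀ (by positivity) ?_ n
          have := Real.add_one_le_exp (2 / (n : ℝ))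
          linarith
      _ = Real.exp 2 := by
          rw [← Real.exp_nat_mul]
          congr 1
          field_simp
  have h2 : Real.exp 2 ≤ 8 := by
    have h3 : Real.exp 2 = Real.exp 1 * Real.exp 1 := by
      rw [← Real.exp_add]
      norm_num
    rw [h3]
    have h4 := Real.exp_one_lt_d9
    have h5 := Real.exp_pos 1
    nlinarith
  have h3 : ((n : ℝ) + 2) ^ n ≤ 8 * (n : ℝ) ^ n := by
    have h4 : ((n : ℝ) + 2) = n * (1 + 2 / n) := by field_simp
    rw [h4, mul_pow, mul_comm]
    exact mul_le_mul_of_nonneg_right (h1.trans h2) (by positivity)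
  exact_mod_cast h3

/-- the tuples with many agreements -/
def near (N k : ℕ) : Finset (Fin k → Pt N) := univ.filter fun x => N < 2 ^ (k - 2) * agr x

lemma near_card (hk : 2 ≤ k) : (near N k).card ^ (2 ^ k) * 2 ^ N ≤ 2 ^ (k * 2 ^ k * N) := by
  rcases (near N k).eq_empty_or_nonempty with h0 | h0
  · rw [h0, card_empty, zero_pow (by positivity), zero_mul]
    positivity
  obtain ⟨x0, hx0, hmin⟩ := (near N k).exists_min_image (fun x => agr x) h0
  set a := agr x0 with ha
  have ha1 : N ≤ 2 ^ (k - 2) * a := (mem_filter.1 hx0).2.le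
  have h1 : (near N k).card * 2 ^ a ≤ (2 ^ k + 2) ^ N := by
    calc (near N k).card * 2 ^ a = ∑ _x ∈ near N k, 2 ^ a := by rw [sum_const, smul_eq_mul]
      _ ≤ ∑ x ∈ near N k, 2 ^ agr x := sum_le_sum fun x hx =>
          Nat.pow_le_pow_right (by norm_num) (hmin x hx)
      _ ≤ ∑ x : Fin k → Pt N, 2 ^ agr x := sum_le_sum_of_subset (subset_univ _)
      _ ≤ _ := sum_pow_agr (by omega)
  have h2k : 2 ^ k = 4 * 2 ^ (k - 2) := by
    rw [← show 2 + (k - 2) = k by omega, pow_add]
    norm_num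
  have ha2 : 4 * N ≤ a * 2 ^ k := by
    rw [h2k]
    nlinarith
  have h2 : (near N k).card ^ (2 ^ k) * 2 ^ N * 2 ^ (3 * N) ≤ 2 ^ (k * 2 ^ k * N) * 2 ^ (3 * N) := by
    calc (near N k).card ^ (2 ^ k) * 2 ^ N * 2 ^ (3 * N)
        = (near N k).card ^ (2 ^ k) * 2 ^ (4 * N) := by
          rw [mul_assoc, ← pow_add]
          congr 2
          ring
      _ ≤ (near N k).card ^ (2 ^ k) * 2 ^ (a * 2 ^ k) :=
          Nat.mul_le_mul_left _ (Nat.pow_le_pow_right (by norm_num) ha2)
      _ = ((near N k).card * 2 ^ a) ^ (2 ^ k) := by rw [mul_pow, ← pow_mul]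
      _ ≤ ((2 ^ k + 2) ^ N) ^ (2 ^ k) := Nat.pow_le_pow_left h1 _
      _ = ((2 ^ k + 2) ^ (2 ^ k)) ^ N := by rw [← pow_mul, ← pow_mul, mul_comm]
      _ ≤ (8 * (2 ^ k) ^ (2 ^ k)) ^ N := Nat.pow_le_pow_left (exp_bound _ (by positivity)) _
      _ = 2 ^ (k * 2 ^ k * N) * 2 ^ (3 * N) := by
          rw [mul_pow, ← pow_mul, ← pow_mul, mul_comm, show (8 : ℕ) = 2 ^ 3 by norm_num,
            ← pow_mul, mul_assoc k]
  exact Nat.le_of_mul_le_mul_right h2 (by positivity)

open Classical in
/-- the heavy clauses -/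
noncomputable def hvy (H : ℕ) (U : Finset (Pt N)) : Finset (Cl N w) :=
  univ.filter fun d => U.card ≤ H * (U ∩ cube d).card

/-- the number of heavy clauses -/
theorem hvy_card (hk : 2 ≤ k) (H : ℕ) (U : Finset (Pt N))
    (hU : 2 ^ (k * 2 ^ k * N) * 2 ^ ((k - 2) * w * 2 ^ k) ≤ U.card ^ (k * 2 ^ k) * 2 ^ N) :
    2 ^ ((k - 2) * w) * (hvy H U : Finset (Cl N w)).card ≤ 2 * H ^ k * N ^ w := by
  classical
  have hU0 : 0 < U.card := by
    rcases Nat.eq_zero_or_pos U.card with h | h
    · rw [h, zero_pow (by positivity), zero_mul] at hU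
      have : 0 < 2 ^ (k * 2 ^ k * N) * 2 ^ ((k - 2) * w * 2 ^ k) := by positivity
      omega
    · exact h
  have hnear : (near N k).card * 2 ^ ((k - 2) * w) ≤ U.card ^ k := by
    have h1 : ((near N k).card * 2 ^ ((k - 2) * w)) ^ (2 ^ k) * 2 ^ N
        ≤ (U.card ^ k) ^ (2 ^ k) * 2 ^ N := by
      calc ((near N k).card * 2 ^ ((k - 2) * w)) ^ (2 ^ k) * 2 ^ N
          = ((near N k).card ^ (2 ^ k) * 2 ^ N) * 2 ^ ((k - 2) * w * 2 ^ k) := by
            rw [mul_pow, ← pow_mul]
            ring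
        _ ≤ 2 ^ (k * 2 ^ k * N) * 2 ^ ((k - 2) * w * 2 ^ k) :=
            Nat.mul_le_mul_right _ (near_card hk)
        _ ≤ U.card ^ (k * 2 ^ k) * 2 ^ N := hU
        _ = _ := by rw [← pow_mul]
    have h2 := Nat.le_of_mul_le_mul_right h1 (by positivity)
    exact (Nat.pow_le_pow_iff_left (by positivity)).1 h2
  set UU := Fintype.piFinset (fun _ : Fin k => U) with hUU
  have hUUc : UU.card = U.card ^ k := by
    rw [hUU, Fintype.card_piFinset, prod_const, card_univ, Fintype.card_fin]
  have h2 : ∀ x ∈ UU, 2 ^ ((k - 2) * w) * agr x ^ w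
      ≤ (if x ∈ near N k then 2 ^ ((k - 2) * w) * N ^ w else 0) + N ^ w := by
    intro x _
    by_cases h : x ∈ near N k
    · rw [if_pos h]
      have := Nat.pow_le_pow_left (agr_le x) w
      calc 2 ^ ((k - 2) * w) * agr x ^ w ≤ 2 ^ ((k - 2) * w) * N ^ w :=
            Nat.mul_le_mul_left _ this
        _ ≤ _ := Nat.le_add_right _ _
    · rw [if_neg h, zero_add, pow_mul, ← mul_pow]
      apply Nat.pow_le_pow_left
      unfold near at h
      rw [mem_filter] at h
      push Not at h
      exact h (mem_univ _)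
  have h3 : 2 ^ ((k - 2) * w) * ∑ d : Cl N w, (U ∩ cube d).card ^ k
      ≤ 2 * U.card ^ k * N ^ w := by
    rw [sum_moment (by omega), mul_sum]
    calc ∑ x ∈ UU, 2 ^ ((k - 2) * w) * agr x ^ w
        ≤ ∑ x ∈ UU, ((if x ∈ near N k then 2 ^ ((k - 2) * w) * N ^ w else 0) + N ^ w) :=
          sum_le_sum h2
      _ = (UU.filter (· ∈ near N k)).card * (2 ^ ((k - 2) * w) * N ^ w) + UU.card * N ^ w := by
          rw [sum_add_distrib, ← sum_filter, sum_const, sum_const, smul_eq_mul, smul_eq_mul]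
      _ ≤ (near N k).card * (2 ^ ((k - 2) * w) * N ^ w) + UU.card * N ^ w := by
          gcongr
          intro z hz
          exact (mem_filter.1 hz).2
      _ = ((near N k).card * 2 ^ ((k - 2) * w)) * N ^ w + U.card ^ k * N ^ w := by
          rw [hUUc]
          ring
      _ ≤ U.card ^ k * N ^ w + U.card ^ k * N ^ w := by gcongr
      _ = 2 * U.card ^ k * N ^ w := by ring
  have h4 : (hvy H U : Finset (Cl N w)).card * U.card ^ k
      ≤ H ^ k * ∑ d : Cl N w, (U ∩ cube d).card ^ k := by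
    calc (hvy H U : Finset (Cl N w)).card * U.card ^ k
        = ∑ _d ∈ (hvy H U : Finset (Cl N w)), U.card ^ k := by rw [sum_const, smul_eq_mul]
      _ ≤ ∑ d ∈ (hvy H U : Finset (Cl N w)), (H * (U ∩ cube d).card) ^ k :=
          sum_le_sum fun d hd => Nat.pow_le_pow_left (mem_filter.1 hd).2 _
      _ ≤ ∑ d : Cl N w, (H * (U ∩ cube d).card) ^ k := sum_le_sum_of_subset (subset_univ _)
      _ = _ := by rw [mul_sum]; exact sum_congr rfl fun d _ => by rw [mul_pow]
  have h5 : (2 ^ ((k - 2) * w) * (hvy H U : Finset (Cl N w)).card) * U.card ^ k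
      ≤ (2 * H ^ k * N ^ w) * U.card ^ k := by
    calc (2 ^ ((k - 2) * w) * (hvy H U : Finset (Cl N w)).card) * U.card ^ k
        = 2 ^ ((k - 2) * w) * ((hvy H U : Finset (Cl N w)).card * U.card ^ k) := by ring
      _ ≤ 2 ^ ((k - 2) * w) * (H ^ k * ∑ d : Cl N w, (U ∩ cube d).card ^ k) :=
          Nat.mul_le_mul_left _ h4
      _ = H ^ k * (2 ^ ((k - 2) * w) * ∑ d : Cl N w, (U ∩ cube d).card ^ k) := by ring
      _ ≤ H ^ k * (2 * U.card ^ k * N ^ w) := Nat.mul_le_mul_left _ h3
      _ = _ := by ring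
  exact Nat.le_of_mul_le_mul_right h5 (by positivity)

end Pool.Agent.MP_e81270_lc.X3
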