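import Mathlib

/-!
# Two closures

`cl y S`: a large subset of `S` on which every atom is constant or takes both values often.
`exB`: a small set `B` such that the members of a family are empty or large outside `B`.
-/

set_option autoImplicit false

namespace Pool.Agent.MP_e81270_lc.X3

open Finset

variable {X α : Type} [DecidableEq X] [Fintype α] [DecidableEq α]

theorem exists_cl (y : X → α → Bool) (S : Finset X) :
    ∃ C ⊆ S, 3 * S.card ≤ 4 * C.card ∧ ∀ (g : α) (b : Bool),
      (C.filter fun x => y x g = b) = ∅ ∨
        C.card ≤ 4 * Fintype.card α * (C.filter fun x => y x g = b).card := by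
  classical
  rcases Nat.eq_zero_or_pos (Fintype.card α) with hn | hn
  · refine ⟨S, Subset.refl _, by omega, fun g => ?_⟩
    exact absurd (Fintype.card_pos_iff.2 ⟨g⟩) (by omega)
  set n := Fintype.card α with hnd
  set Cf : Finset α × (α → Bool) → Finset X := fun p => S.filter fun x => ∀ g ∈ p.1, y x g = p.2 g
    with hCf
  set P : Finset (Finset α × (α → Bool)) := univ.filter fun p =>
    4 * n * S.card ≤ 4 * n * (Cf p).card + p.1.card * S.card with hP
  have hne : P.Nonempty := by
    refine ⟨(∅, fun _ => true), ?_⟩
    rw [hP, mem_filter]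
    refine ⟨mem_univ _, ?_⟩
    have : Cf (∅, fun _ => true) = S := by
      rw [hCf]
      dsimp only
      rw [filter_true_of_mem]
      intro x _ g hg
      exact absurd hg (notMem_empty g)
    rw [this]
    exact Nat.le_add_right _ _
  obtain ⟨p, hp, hmax⟩ := P.exists_max_image (fun p => p.1.card) hne
  have hp2 : 4 * n * S.card ≤ 4 * n * (Cf p).card + p.1.card * S.card := (mem_filter.1 hp).2
  refine ⟨Cf p, filter_subset _ _, ?_, ?_⟩
  · have h1 : p.1.card ≤ n := card_le_univ _
    have h2 : 4 * n * S.card ≤ 4 * n * (Cf p).card + n * S.card :=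
      hp2.trans (Nat.add_le_add_left (Nat.mul_le_mul_right _ h1) _)
    have h3 : n * (3 * S.card) ≤ n * (4 * (Cf p).card) := by nlinarith
    exact Nat.le_of_mul_le_mul_left h3 hn
  · intro g b
    by_contra hcon
    push Not at hcon
    obtain ⟨hne1, hlt⟩ := hcon
    have hg : g ∉ p.1 := by
      intro hg
      obtain ⟨x, hx⟩ := hne1
      have hx1 := mem_filter.1 hx
      have hb : p.2 g = b := by
        rw [← hx1.2]
        exact ((mem_filter.1 hx1.1).2 g hg).symm
      have : (Cf p).filter (fun x => y x g = b) = Cf p := by
        rw [filter_true_of_mem]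
        intro x' hx'
        rw [(mem_filter.1 hx').2 g hg, hb]
      rw [this] at hlt
      have : 1 * (Cf p).card ≤ 4 * n * (Cf p).card := Nat.mul_le_mul_right _ (by omega)
      omega
    set q : Finset α × (α → Bool) := (insert g p.1, Function.update p.2 g (!b)) with hq
    have hCq : Cf q = (Cf p).filter fun x => ¬ y x g = b := by
      rw [hCf, hq]
      dsimp only
      rw [filter_filter]
      refine filter_congr fun x _ => ?_
      constructor
      · intro h
        refine ⟨fun g' hg' => ?_, ?_⟩
        · have h1 := h g' (mem_insert_of_mem hg')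
          have h2 : g' ≠ g := by
            rintro rfl
            exact hg hg'
          rwa [Function.update_of_ne h2] at h1
        · have h1 := h g (mem_insert_self _ _)
          rw [Function.update_self] at h1
          rw [h1]
          simp
      · rintro ⟨h1, h2⟩ g' hg'
        rcases mem_insert.1 hg' with rfl | hg2
        · rw [Function.update_self]
          exact Bool.eq_not.2 h2
        · have h3 : g' ≠ g := by
            rintro rfl
            exact hg hg2
          rw [Function.update_of_ne h3]
          exact h1 g' hg2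
    have hcardq : (Cf q).card + ((Cf p).filter fun x => y x g = b).card = (Cf p).card := by
      rw [hCq, add_comm]
      exact card_filter_add_card_filter_not _
    have hqP : q ∈ P := by
      rw [hP, mem_filter]
      refine ⟨mem_univ _, ?_⟩
      have h1 : q.1.card = p.1.card + 1 := by
        rw [hq]
        exact card_insert_of_notMem hg
      rw [h1]
      have h2 : (Cf p).card ≤ S.card := card_le_card (filter_subset _ _)
      have h3 : 4 * n * (Cf p).card = 4 * n * (Cf q).card
          + 4 * n * ((Cf p).filter fun x => y x g = b).card := by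
        rw [← hcardq]
        ring
      have h4 : (p.1.card + 1) * S.card = p.1.card * S.card + S.card := by ring
      rw [h4]
      omega
    have := hmax q hqP
    have h1 : q.1.card = p.1.card + 1 := by
      rw [hq]
      exact card_insert_of_notMem hg
    omega

/-- the closure -/
noncomputable def cl (y : X → α → Bool) (S : Finset X) : Finset X := (exists_cl y S).choose

lemma cl_sub (y : X → α → Bool) (S : Finset X) : cl y S ⊆ S := (exists_cl y S).choose_spec.1

lemma cl_card (y : X → α → Bool) (S : Finset X) : 3 * S.card ≤ 4 * (cl y S).card :=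
  (exists_cl y S).choose_spec.2.1

lemma cl_closed (y : X → α → Bool) (S : Finset X) (g : α) (b : Bool)
    (h : ∃ x ∈ cl y S, y x g = b) :
    (cl y S).card ≤ 4 * Fintype.card α * ((cl y S).filter fun x => y x g = b).card := by
  refine ((exists_cl y S).choose_spec.2.2 g b).resolve_left ?_
  obtain ⟨x, hx, hb⟩ := h
  exact fun h0 => absurd (mem_filter.2 ⟨hx, hb⟩) (by
    intro h1
    have h2 : x ∈ (cl y S).filter fun x => y x g = b := h1
    have h3 : (cl y S).filter (fun x => y x g = b) = ∅ := h0
    rw [h3] at h2
    exact absurd h2 (notMem_empty x))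

theorem exists_B {ι : Type} [Fintype ι] (V : ι → Finset X) (C : Finset X) (θ : ℕ) :
    ∃ B ⊆ C, B.card ≤ Fintype.card ι * θ ∧
      ∀ i, V i ∩ C ⊆ B ∨ θ < ((V i ∩ C) \ B).card := by
  classical
  set Bf : Finset ι → Finset X := fun J => J.biUnion fun i => V i ∩ C with hBf
  set P : Finset (Finset ι) := univ.filter fun J => (Bf J).card ≤ J.card * θ with hP
  have hne : P.Nonempty := by
    refine ⟨∅, ?_⟩
    rw [hP, mem_filter]
    exact ⟨mem_univ _, by simp [hBf]⟩
  obtain ⟨J, hJ, hmax⟩ := P.exists_max_image (fun J => J.card) hne
  have hJ2 : (Bf J).card ≤ J.card * θ := (mem_filter.1 hJ).2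
  refine ⟨Bf J, ?_, hJ2.trans (Nat.mul_le_mul_right _ (card_le_univ _)), ?_⟩
  · intro x hx
    obtain ⟨i, _, hi⟩ := mem_biUnion.1 hx
    exact (mem_inter.1 hi).2
  · intro i
    by_contra hcon
    push Not at hcon
    obtain ⟨h1, h2⟩ := hcon
    have hi : i ∉ J := by
      intro hi
      exact h1 (subset_biUnion_of_mem (fun i => V i ∩ C) hi)
    have hmem : insert i J ∈ P := by
      rw [hP, mem_filter]
      refine ⟨mem_univ _, ?_⟩
      rw [card_insert_of_notMem hi]
      have h3 : Bf (insert i J) = ((V i ∩ C) \ Bf J) ∪ Bf J := by
        rw [hBf]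
        dsimp only
        rw [biUnion_insert, sdiff_union_self_eq_union]
      rw [h3]
      refine (card_union_le _ _).trans ?_
      rw [add_mul, one_mul]
      omega
    have := hmax _ hmem
    rw [card_insert_of_notMem hi] at this
    omega

/-- the small set -/
noncomputable def exB {ι : Type} [Fintype ι] (V : ι → Finset X) (θ : ℕ) (C : Finset X) :
    Finset X := (exists_B V C θ).choose

lemma exB_card {ι : Type} [Fintype ι] (V : ι → Finset X) (θ : ℕ) (C : Finset X) :
    (exB V θ C).card ≤ Fintype.card ι * θ := (exists_B V C θ).choose_spec.2.1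

lemma exB_or {ι : Type} [Fintype ι] (V : ι → Finset X) (θ : ℕ) (C : Finset X) (i : ι) :
    V i ∩ C ⊆ exB V θ C ∨ θ < ((V i ∩ C) \ exB V θ C).card :=
  (exists_B V C θ).choose_spec.2.2 i

end Pool.Agent.MP_e81270_lc.X3
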