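import Pool.Agent.Lib.MP_e81270_lc_X3.Defs

/-!
# Counting formulas
-/

set_option autoImplicit false

namespace Pool.Agent.MP_e81270_lc.X3

open Finset

variable {W : Type}

theorem Fml.size_pos (A : Fml W) : 0 < A.size := by
  cases A <;> simp [Fml.size]

/-- total size of a list of formulas -/
def space (l : List (Fml W)) : ℕ := (l.map Fml.size).sum

theorem space_cons (A : Fml W) (l : List (Fml W)) : space (A :: l) = A.size + space l := by
  simp [space]

/-- replaces the first formula `A` by `¬ A` -/
def negHead : List (Fml W) → List (Fml W)
  | A :: l => Fml.neg A :: l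
  | [] => []

/-- replaces the first two formulas `A`, `B` by `A → B` -/
def impHead : List (Fml W) → List (Fml W)
  | A :: B :: l => Fml.imp A B :: l
  | l => l

section

variable [Fintype W]

open Classical in
/-- contains all lists of formulas of total size `s` -/
noncomputable def enum (W : Type) [Fintype W] : ℕ → Finset (List (Fml W))
  | 0 => {[]}
  | s + 1 => (((univ : Finset W).biUnion fun v => (enum W s).image (List.cons (Fml.var v))) ∪
      (enum W s).image negHead) ∪ (enum W s).image impHead

theorem card_enum (s : ℕ) : (enum W s).card ≤ (Fintype.card W + 2) ^ s := by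
  classical
  induction s with
  | zero => simp [enum]
  | succ s ih =>
    rw [enum, pow_succ]
    have h1 : ((univ : Finset W).biUnion fun v => (enum W s).image (List.cons (Fml.var v))).card ≤
        Fintype.card W * (enum W s).card := by
      refine card_biUnion_le.trans ?_
      calc _ ≤ ∑ _v : W, (enum W s).card := Finset.sum_le_sum fun v _ => card_image_le
        _ = _ := by rw [Finset.sum_const, card_univ, smul_eq_mul]
    have h2 : ((enum W s).image negHead).card ≤ (enum W s).card := card_image_le
    have h3 : ((enum W s).image impHead).card ≤ (enum W s).card := card_image_le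
    refine (card_union_le _ _).trans ?_
    refine (Nat.add_le_add_right (card_union_le _ _) _).trans ?_
    nlinarith

theorem mem_enum {s : ℕ} {l : List (Fml W)} (hs : space l = s) : l ∈ enum W s := by
  classical
  induction s generalizing l with
  | zero =>
    cases l with
    | nil => simp [enum]
    | cons A l =>
      rw [space_cons] at hs
      have := A.size_pos
      omega
  | succ s ih =>
    cases l with
    | nil => simp [space] at hs
    | cons A l =>
      rw [space_cons] at hs
      rw [enum]
      cases A with
      | var v =>
        apply mem_union_left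
        apply mem_union_left
        rw [mem_biUnion]
        refine ⟨v, mem_univ _, mem_image.2 ⟨l, ih ?_, rfl⟩⟩
        simp only [Fml.size] at hs
        omega
      | neg A =>
        apply mem_union_left
        apply mem_union_right
        refine mem_image.2 ⟨A :: l, ih ?_, rfl⟩
        rw [space_cons]
        simp only [Fml.size] at hs
        omega
      | imp A B =>
        apply mem_union_right
        refine mem_image.2 ⟨A :: B :: l, ih ?_, rfl⟩
        rw [space_cons, space_cons]
        simp only [Fml.size] at hs
        omega

open Classical in
/-- contains all lists of formulas of total size at most `s` -/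
noncomputable def enumLe (W : Type) [Fintype W] (s : ℕ) : Finset (List (Fml W)) :=
  (range (s + 1)).biUnion (enum W)

theorem mem_enumLe {s : ℕ} {l : List (Fml W)} (hs : space l ≤ s) : l ∈ enumLe W s := by
  classical
  rw [enumLe, mem_biUnion]
  exact ⟨space l, mem_range.2 (by omega), mem_enum rfl⟩

theorem card_enumLe (s : ℕ) : (enumLe W s).card ≤ (Fintype.card W + 2) ^ (2 * s) := by
  classical
  rw [enumLe]
  refine card_biUnion_le.trans ?_
  calc ∑ u ∈ range (s + 1), (enum W u).card ≤ ∑ _u ∈ range (s + 1), (Fintype.card W + 2) ^ s := by
        apply Finset.sum_le_sum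
        intro u hu
        rw [mem_range] at hu
        exact (card_enum u).trans (Nat.pow_le_pow_right (by omega) (by omega))
    _ = (s + 1) * (Fintype.card W + 2) ^ s := by rw [Finset.sum_const, card_range, smul_eq_mul]
    _ ≤ (Fintype.card W + 2) ^ s * (Fintype.card W + 2) ^ s := by
        apply Nat.mul_le_mul_right
        have h1 : s + 1 ≤ 2 ^ s := Nat.lt_two_pow_self
        exact h1.trans (Nat.pow_le_pow_left (by omega) s)
    _ = _ := by rw [← pow_add]; congr 1; ring

end

open Classical in
/-- the variables of a formula -/
noncomputable def Fml.vars : Fml W → Finset W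
  | var v => {v}
  | neg A => A.vars
  | imp A B => A.vars ∪ B.vars

theorem Fml.card_vars_le (A : Fml W) : A.vars.card ≤ A.size := by
  classical
  induction A with
  | var i => simp [Fml.vars, Fml.size]
  | neg A ih => simp only [Fml.vars, Fml.size]; omega
  | imp A B ihA ihB =>
    simp only [Fml.vars, Fml.size]
    have := card_union_le A.vars B.vars
    omega

theorem Fml.eval_congr {A : Fml W} {v v' : W → Bool}
    (hv : ∀ j ∈ A.vars, v j = v' j) : A.eval v = A.eval v' := by
  classical
  induction A with
  | var i => exact hv i (by simp [Fml.vars])
  | neg A ih => simp only [Fml.eval, ih hv]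
  | imp A B ihA ihB =>
    simp only [Fml.eval, ihA fun j hj => hv j (by
      simp only [Fml.vars]; exact mem_union_left _ hj),
      ihB fun j hj => hv j (by simp only [Fml.vars]; exact mem_union_right _ hj)]

/-- renaming of variables -/
def Fml.rename {W' : Type} (ρ : W → W') : Fml W → Fml W'
  | Fml.var i => Fml.var (ρ i)
  | Fml.neg A => Fml.neg (A.rename ρ)
  | Fml.imp A B => Fml.imp (A.rename ρ) (B.rename ρ)

theorem Fml.size_rename {W' : Type} (ρ : W → W') (A : Fml W) : (A.rename ρ).size = A.size := by
  induction A with
  | var i => rfl
  | neg A ih => simp only [Fml.rename, Fml.size, ih]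
  | imp A B ihA ihB => simp only [Fml.rename, Fml.size, ihA, ihB]

theorem Fml.eval_rename {W' : Type} (ρ : W → W') (A : Fml W) (v : W' → Bool) :
    (A.rename ρ).eval v = A.eval (v ∘ ρ) := by
  induction A with
  | var i => rfl
  | neg A ih => simp only [Fml.rename, Fml.eval, ih]
  | imp A B ihA ihB => simp only [Fml.rename, Fml.eval, ihA, ihB]

end Pool.Agent.MP_e81270_lc.X3
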