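import Pool.Agent.Lib.MP_e81270_lc_X3.Core
import Pool.Agent.Lib.MP_e81270_lc_X3.Enum

/-!
# Codes of systems of extension variables
-/

set_option autoImplicit false

namespace Pool.Agent.MP_e81270_lc.X3

open Finset

/-- codes of `m` definitions with at most `t` arguments each -/
abbrev Code (N m t : ℕ) := Fin m → (Fin t → Option (Fin N ⊕ Fin m)) × ((Fin t → Bool) → Bool)

lemma card_Code (N m t : ℕ) :
    Fintype.card (Code N m t) = ((N + m + 1) ^ t * 2 ^ 2 ^ t) ^ m := by
  simp [Code, Fintype.card_prod, Fintype.card_option, Fintype.card_sum]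

variable {N m t : ℕ}

/-- value of an argument, if the earlier values are given by `f` -/
def argVal (x : Pt N) (j : ℕ) (f : (i : Fin m) → (i : ℕ) < j → Bool) :
    Option (Fin N ⊕ Fin m) → Bool
  | none => false
  | some (Sum.inl v) => x v
  | some (Sum.inr i) => if h : (i : ℕ) < j then f i h else false

/-- the values of the extension variables -/
def val (E : Code N m t) (x : Pt N) : (j : ℕ) → j < m → Bool
  | j, hj => (E ⟨j, hj⟩).2 fun i => argVal x j (fun i' _ => val E x i' i'.2) ((E ⟨j, hj⟩).1 i)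
termination_by j => j

lemma val_eq (E : Code N m t) (x : Pt N) (j : ℕ) (hj : j < m) :
    val E x j hj
      = (E ⟨j, hj⟩).2 fun i => argVal x j (fun i' _ => val E x i' i'.2) ((E ⟨j, hj⟩).1 i) := by
  rw [val]

/-- the values of all variables -/
def yy (E : Code N m t) (x : Pt N) : Fin N ⊕ Fin m → Bool :=
  Sum.elim x fun j => val E x j j.2

/-- embedding of the variables -/
def emb {m' : ℕ} (h : m' ≤ m) : Fin N ⊕ Fin m' → Fin N ⊕ Fin m := Sum.map id (Fin.castLE h)

lemma emb_inj {m' : ℕ} (h : m' ≤ m) : Function.Injective (emb (N := N) h) :=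
  Function.injective_id.sumMap (Fin.castLE_injective h)

lemma exists_list {β : Type} [DecidableEq β] (s : Finset β) (h : s.card ≤ t) :
    ∃ f : Fin t → Option β, (∀ u ∈ s, ∃ i, f i = some u) ∧ ∀ i u, f i = some u → u ∈ s := by
  refine ⟨fun i => s.toList[(i : ℕ)]?, fun u hu => ?_, fun i u hi => ?_⟩
  · rw [← mem_toList] at hu
    obtain ⟨n, hn, hn2⟩ := List.getElem_of_mem hu
    rw [length_toList] at hn
    refine ⟨⟨n, by omega⟩, ?_⟩
    show s.toList[n]? = some u
    rw [List.getElem?_eq_some_iff]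
    exact ⟨by rw [length_toList]; exact hn, hn2⟩
  · rw [← mem_toList]
    exact List.mem_of_getElem? hi

theorem exists_code {m' : ℕ} (hm : m' ≤ m) (D : Definitions (Fin N) m')
    (ht : ∀ j, (D.args j).card ≤ t) :
    ∃ E : Code N m t, ∀ x, D.Obeyed fun u => yy E x (emb hm u) := by
  classical
  choose f hf1 hf2 using fun j => exists_list (D.args j) (ht j)
  refine ⟨fun j => if h : (j : ℕ) < m' then
    (fun i => (f ⟨j, h⟩ i).map (emb hm), fun b => D.fn ⟨j, h⟩ fun u =>
      decide (∃ i, f ⟨j, h⟩ i = some u ∧ b i = true))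
    else (fun _ => none, fun _ => false), ?_⟩
  intro x j
  set E : Code N m t := fun j => if h : (j : ℕ) < m' then
    (fun i => (f ⟨j, h⟩ i).map (emb hm), fun b => D.fn ⟨j, h⟩ fun u =>
      decide (∃ i, f ⟨j, h⟩ i = some u ∧ b i = true))
    else (fun _ => none, fun _ => false) with hE
  have hj' : ((Fin.castLE hm j : Fin m) : ℕ) < m' := j.2
  have hEj : E (Fin.castLE hm j) = (fun i => (f j i).map (emb hm), fun b => D.fn j fun u =>
      decide (∃ i, f j i = some u ∧ b i = true)) := by
    rw [hE]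
    dsimp only
    rw [dif_pos hj']
    rfl
  show val E x (Fin.castLE hm j) _ = D.fn j _
  rw [val_eq]
  have h1 : E ⟨((Fin.castLE hm j : Fin m) : ℕ), (Fin.castLE hm j).2⟩ = _ := hEj
  rw [h1]
  dsimp only
  apply D.depends
  intro u hu
  have key : ∀ i, f j i = some u →
      argVal x (Fin.castLE hm j : Fin m) (fun i' _ => val E x i' i'.2) ((f j i).map (emb hm))
        = yy E x (emb hm u) := by
    intro i hi
    rw [hi, Option.map_some]
    rcases u with v | i0
    · rfl
    · have h2 := D.earlier j i0 hu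
      have h3 : ((Fin.castLE hm i0 : Fin m) : ℕ) < (Fin.castLE hm j : Fin m) := h2
      show (if h : ((Fin.castLE hm i0 : Fin m) : ℕ) < (Fin.castLE hm j : Fin m) then
        val E x (Fin.castLE hm i0 : Fin m) _ else false) = _
      rw [dif_pos h3]
      rfl
  rcases hb : yy E x (emb hm u) with _ | _
  · rw [decide_eq_false_iff_not]
    rintro ⟨i, hi, hi2⟩
    rw [key i hi, hb] at hi2
    exact absurd hi2 (by simp)
  · rw [decide_eq_true_eq]
    obtain ⟨i, hi⟩ := hf1 j u hu
    exact ⟨i, hi, by rw [key i hi, hb]⟩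

end Pool.Agent.MP_e81270_lc.X3
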