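import Pool.Agent.Lib.MP_e81270_lc_X3.Codes

/-!
# From refutations to the form used by the core
-/

set_option autoImplicit false

namespace Pool.Agent.MP_e81270_lc.X3

open Finset

variable {N w M : ℕ} {α : Type}

/-- the points which falsify all the formulas of the list -/
def Nar (y : Pt N → α → Bool) (s : ℕ) (l : List (Fml α)) : Finset (Pt N) :=
  univ.filter fun x => space l ≤ s ∧ ∀ A ∈ l, A.eval (y x) = false

lemma mem_Nar {y : Pt N → α → Bool} {s : ℕ} {l : List (Fml α)} {x : Pt N} :
    x ∈ Nar y s l ↔ space l ≤ s ∧ ∀ A ∈ l, A.eval (y x) = false := by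
  simp [Nar]

open Classical in
/-- the variables of the formulas of a list -/
noncomputable def varsL : List (Fml α) → Finset α
  | [] => ∅
  | A :: l => A.vars ∪ varsL l

lemma card_varsL_le (l : List (Fml α)) : (varsL l).card ≤ space l := by
  classical
  induction l with
  | nil => simp [varsL]
  | cons A l ih =>
    rw [space_cons, varsL]
    have h := card_union_le A.vars (varsL l)
    have h2 := A.card_vars_le
    have h3 : (A.vars ∪ varsL l).card ≤ A.vars.card + (varsL l).card := by convert h
    convert h3.trans (Nat.add_le_add h2 ih)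

lemma vars_subset_varsL {l : List (Fml α)} {A : Fml α} (h : A ∈ l) : A.vars ⊆ varsL l := by
  classical
  induction l with
  | nil => simp at h
  | cons B l ih =>
    rw [varsL]
    intro v hv
    rw [mem_union]
    rcases List.mem_cons.1 h with rfl | h
    · exact Or.inl hv
    · exact Or.inr (ih h hv)

lemma Nar_cert [Fintype α] [DecidableEq α] (y : Pt N → α → Bool) (s : ℕ) (l : List (Fml α)) :
    ∀ x ∈ Nar y s l, ∃ A : Finset (α × Bool), A.card ≤ s ∧ x ∈ Vset y A ∧
      Vset y A ⊆ Nar y s l := by
  intro x hx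
  obtain ⟨h1, h2⟩ := mem_Nar.1 hx
  refine ⟨(varsL l).image fun v => (v, y x v), ?_, ?_, ?_⟩
  · exact card_image_le.trans ((card_varsL_le l).trans h1)
  · rw [mem_Vset]
    intro p hp
    obtain ⟨v, _, rfl⟩ := mem_image.1 hp
    rfl
  · intro x' hx'
    rw [mem_Vset] at hx'
    rw [mem_Nar]
    refine ⟨h1, fun A hA => ?_⟩
    rw [← h2 A hA]
    apply Fml.eval_congr
    intro v hv
    exact hx' (v, y x v) (mem_image.2 ⟨v, vars_subset_varsL hA hv, rfl⟩)

/-- the falsifying values instead of the satisfying ones -/
def flip (F : Fin M → Fin w → Fin N × Bool) : Fin M → Cl N w := fun i j => ((F i j).1, !(F i j).2)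

lemma flip_flip (F : Fin M → Fin w → Fin N × Bool) : flip (flip F) = F := by
  funext i j
  simp [flip]

lemma not_sat_iff (F : Fin M → Fin w → Fin N × Bool) (i : Fin M) (x : Pt N) :
    ¬ Sat x (List.ofFn (F i)) ↔ x ∈ cube (flip F i) := by
  rw [mem_cube]
  unfold Sat
  constructor
  · intro h j
    by_contra h2
    apply h
    refine ⟨F i j, List.mem_ofFn.2 ⟨j, rfl⟩, ?_⟩
    have h3 : x (F i j).1 ≠ !(F i j).2 := h2
    exact Bool.ne_not.1 h3
  · rintro h ⟨l, hl, hl2⟩
    obtain ⟨j, rfl⟩ := List.mem_ofFn.1 hl
    have h3 : x (F i j).1 = !(F i j).2 := h j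
    rw [hl2] at h3
    exact absurd h3 (by simp)

lemma unsat_iff (F : Fin M → Fin w → Fin N × Bool) :
    Unsat (toCNF F) ↔ ∀ x, ∃ i, x ∈ cube (flip F i) := by
  unfold Unsat toCNF
  refine forall_congr' fun x => ?_
  constructor
  · rintro ⟨C, hC, hC2⟩
    obtain ⟨i, rfl⟩ := List.mem_ofFn.1 hC
    exact ⟨i, (not_sat_iff F i x).1 hC2⟩
  · rintro ⟨i, hi⟩
    exact ⟨_, List.mem_ofFn.2 ⟨i, rfl⟩, (not_sat_iff F i x).2 hi⟩

theorem hasRf_of {m0 t s q' : ℕ} (F : Fin M → Fin w → Fin N × Bool) {m q L : ℕ} (hm : m ≤ m0)
    (R : Refutation (toCNF F) m q L) (ht : ∀ j, (R.defs.args j).card ≤ t)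
    (G : Finset (Fin N ⊕ Fin m)) (hG : ∀ t, ∀ l ∈ (R.line t).wide, l.1 ∈ G)
    (hs : ∀ t, (R.line t).narrow.size ≤ s) (hq : q ≤ q') :
    ∃ E : Code N m0 t, HasRf (yy E) (flip F) (G.image (emb hm))
      (fun l : {l // l ∈ enumLe (Fin N ⊕ Fin m0) s} => Nar (yy E) s l.1) q' L := by
  classical
  obtain ⟨E, hE⟩ := exists_code hm R.defs ht
  have hsp : ∀ t, space [(R.line t).narrow.rename (emb (N := N) hm)] ≤ s := by
    intro t
    rw [space_cons, Fml.size_rename]
    simpa [space] using hs t
  refine ⟨E, fun t => (((R.line t).wide.map fun l => (emb hm l.1, !l.2))).toFinset,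
    fun t => ⟨[(R.line t).narrow.rename (emb hm)], mem_enumLe (hsp t)⟩, ?_, ?_, ?_⟩
  · intro t p hp
    rw [List.mem_toFinset, List.mem_map] at hp
    obtain ⟨l, hl, rfl⟩ := hp
    exact mem_image.2 ⟨l.1, hG t l hl, rfl⟩
  all_goals
    have hmem : ∀ (t : Fin L) (x : Pt N),
        x ∈ Vset (yy E) (((R.line t).wide.map fun l => (emb (N := N) hm l.1, !l.2))).toFinset ∩
          Nar (yy E) s [(R.line t).narrow.rename (emb hm)] ↔
        ¬ (R.line t).Holds fun u => yy E x (emb hm u) := by
      intro t x
      rw [mem_inter, mem_Vset, mem_Nar]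
      unfold Line.Holds
      rw [not_or]
      constructor
      · rintro ⟨h1, -, h2⟩
        refine ⟨?_, ?_⟩
        · rintro ⟨l, hl, hl2⟩
          have h3 := h1 (emb hm l.1, !l.2) (by
            rw [List.mem_toFinset, List.mem_map]
            exact ⟨l, hl, rfl⟩)
          dsimp only at h3 hl2
          rw [hl2] at h3
          exact absurd h3 (by simp)
        · have h3 := h2 _ (List.mem_singleton.2 rfl)
          rw [Fml.eval_rename] at h3
          intro h4
          rw [show (fun u => yy E x (emb hm u)) = yy E x ∘ emb hm from rfl, h3] at h4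
          exact absurd h4 (by simp)
      · rintro ⟨h1, h2⟩
        refine ⟨?_, hsp t, ?_⟩
        · intro p hp
          rw [List.mem_toFinset, List.mem_map] at hp
          obtain ⟨l, hl, rfl⟩ := hp
          dsimp only
          by_contra h3
          exact h1 ⟨l, hl, Bool.ne_not.1 h3⟩
        · intro A hA
          rw [List.mem_singleton] at hA
          rw [hA, Fml.eval_rename]
          exact Bool.eq_false_iff.2 h2
  · intro t
    obtain ⟨P, Q, hPQ, hP, hQ, himp⟩ := R.sound t
    rcases Nat.eq_zero_or_pos M with hM0 | hM0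
    · -- there are no clauses
      have hQ0 : Q = [] := by
        rw [List.eq_nil_iff_forall_not_mem]
        intro C hC
        have h1 := hQ C hC
        unfold toCNF at h1
        obtain ⟨i, -⟩ := List.mem_ofFn.1 h1
        exact absurd i.2 (by omega)
      refine ⟨P, ∅, ?_, hP, ?_⟩
      · rw [card_empty]
        omega
      · intro x hx
        left
        by_contra hcon
        push Not at hcon
        apply ((hmem t x).1 hx)
        refine himp _ (hE x) (fun s hs => ?_) (fun C hC => ?_)
        · by_contra h1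
          exact hcon s hs ((hmem s x).2 h1)
        · rw [hQ0] at hC
          simp at hC
    · set idx : Clause (Fin N) → Fin M := fun C =>
        if h : ∃ i, List.ofFn (F i) = C then h.choose else ⟨0, hM0⟩ with hidx
      have hidx2 : ∀ C ∈ Q, List.ofFn (F (idx C)) = C := by
        intro C hC
        have h1 := hQ C hC
        unfold toCNF at h1
        have h2 : ∃ i, List.ofFn (F i) = C := List.mem_ofFn.1 h1
        rw [hidx]
        dsimp only
        rw [dif_pos h2]
        exact h2.choose_spec
      refine ⟨P, (Q.map idx).toFinset, ?_, hP, ?_⟩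
      · have h1 := List.toFinset_card_le (Q.map idx)
        rw [List.length_map] at h1
        omega
      · intro x hx
        by_contra hcon
        push Not at hcon
        apply ((hmem t x).1 hx)
        refine himp _ (hE x) (fun s hs => ?_) (fun C hC => ?_)
        · by_contra h1
          exact hcon.1 s hs ((hmem s x).2 h1)
        · by_contra h1
          have h2 : ¬ Sat x (List.ofFn (F (idx C))) := by
            rw [hidx2 C hC]
            exact h1
          rw [not_sat_iff] at h2
          exact hcon.2 (idx C) (by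
            rw [List.mem_toFinset, List.mem_map]
            exact ⟨C, hC, rfl⟩) h2
  · obtain ⟨t, ht⟩ := R.last
    refine ⟨t, ?_⟩
    rw [eq_univ_iff_forall]
    intro x
    exact (hmem t x).2 (ht _ (hE x))

end Pool.Agent.MP_e81270_lc.X3
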