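import Pool.Agent.Lib.MP_e81270_lc_X3.Phase1

/-!
# Phase 2: a narrow line which needs many clauses gives many heavy clauses
-/

set_option autoImplicit false
set_option linter.unusedSectionVars false

namespace Pool.Agent.MP_e81270_lc.X3

open Finset

variable {N w : ℕ} {α ι κ I : Type} [Fintype α] [DecidableEq α] [Fintype ι] [DecidableEq ι]
  [Fintype κ] [DecidableEq κ] [DecidableEq I]

open Classical in
/-- greedy removal of the clauses of a minimal cover -/
lemma greedy (P : Proc N α ι κ) (F : I → Cl N w) (co : Fin N → α)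
    (hco : ∀ x v, P.y x (co v) = x v) (b m : ℕ)
    (hV : ∀ A : Finset (α × Bool), A.card ≤ m + b → ∃ a : ι, P.V a = Vset P.y A)
    (C Z : Finset (Pt N))
    (hZ : ∀ x ∈ Z, ∃ A : Finset (α × Bool), A.card ≤ m ∧ x ∈ Vset P.y A ∧ Vset P.y A ⊆ Z)
    (U : Finset (Pt N)) (hU : U = (Z ∩ C) \ exB P.V P.θ C)
    (J : Finset I) (hcov : ∀ x ∈ U, ∃ i ∈ J, x ∈ cube (F i))
    (hmin : ∀ J' : Finset I, J'.card < J.card → ¬ ∀ x ∈ U, ∃ i ∈ J', x ∈ cube (F i))
    (hbJ : b < J.card) (hJH : J.card ≤ P.H) (j : ℕ) (hj : j ≤ b) :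
    ∃ (J' : Finset I) (e : List (Ev N w α κ)), J' ⊆ J ∧ J'.card = j ∧ valid P U e ∧ nk e = 0 ∧
      ns e = 0 ∧ (rems e).length = j ∧ (∀ d ∈ rems e, ∃ i, F i = d) ∧
      run P U e = U.filter fun x => ∀ i ∈ J', x ∉ cube (F i) := by
  induction j with
  | zero =>
    refine ⟨∅, [], empty_subset _, rfl, trivial, rfl, rfl, rfl, ?_, ?_⟩
    · intro d hd
      simp [rems] at hd
    · show U = _
      rw [filter_true_of_mem]
      intro x _ i hi
      exact absurd hi (notMem_empty i)
  | succ j ih =>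
    obtain ⟨J', e, hJ'J, hJ'c, he1, he2, he3, he4, he5, he6⟩ := ih (by omega)
    set Uj := U.filter fun x => ∀ i ∈ J', x ∉ cube (F i) with hUj
    have hne : Uj.Nonempty := by
      rw [nonempty_iff_ne_empty]
      intro h0
      apply hmin J' (by omega)
      intro x hx
      by_contra hcon
      push Not at hcon
      have : x ∈ Uj := by
        rw [hUj, mem_filter]
        exact ⟨hx, hcon⟩
      rw [h0] at this
      exact absurd this (notMem_empty x)
    -- the set `Uj` is large
    have hlarge : P.θ < Uj.card := by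
      obtain ⟨x, hx⟩ := hne
      rw [hUj, mem_filter] at hx
      obtain ⟨hxU, hxJ⟩ := hx
      have hch : ∀ i : I, ∃ p : Fin w, i ∈ J' → x (F i p).1 ≠ (F i p).2 := by
        intro i
        by_cases hi : i ∈ J'
        · have := hxJ i hi
          rw [mem_cube] at this
          push Not at this
          obtain ⟨p, hp⟩ := this
          exact ⟨p, fun _ => hp⟩
        · rcases Nat.eq_zero_or_pos w with hw | hw
          · exfalso
            subst hw
            obtain ⟨i0, _, hi0⟩ := hcov x hxU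
            have : ∃ i1, i1 ∈ J' ∨ J' = ∅ := by
              rcases J'.eq_empty_or_nonempty with h | ⟨i1, h⟩
              · exact ⟨i0, Or.inr h⟩
              · exact ⟨i1, Or.inl h⟩
            -- with `w = 0` every cube is everything
            have hall : ∀ x' : Pt N, ∀ i' : I, x' ∈ cube (F i') := by
              intro x' i'
              rw [mem_cube]
              intro p
              exact p.elim0
            have h1 : 1 < J.card ∨ J.card ≤ 1 := by omega
            rcases h1 with h1 | h1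
            · apply hmin {i0} (by rw [card_singleton]; exact h1)
              intro x' _
              exact ⟨i0, mem_singleton_self _, hall x' i0⟩
            · omega
          · exact ⟨⟨0, hw⟩, fun h => absurd h hi⟩
      choose pp hpp using hch
      have hxU1 := hxU
      rw [hU, mem_sdiff, mem_inter] at hxU
      obtain ⟨⟨hxZ, hxC⟩, hxB⟩ := hxU
      obtain ⟨A, hA, hxA, hAZ⟩ := hZ x hxZ
      set A2 : Finset (α × Bool) := A ∪ J'.image fun i => (co (F i (pp i)).1, x (F i (pp i)).1)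
        with hA2
      have hA2c : A2.card ≤ m + b := by
        calc A2.card ≤ A.card + (J'.image fun i => (co (F i (pp i)).1, x (F i (pp i)).1)).card :=
              card_union_le _ _
          _ ≤ m + j := Nat.add_le_add hA (card_image_le.trans hJ'c.le)
          _ ≤ m + b := by omega
      obtain ⟨a, ha⟩ := hV A2 hA2c
      have hxA2 : x ∈ Vset P.y A2 := by
        rw [mem_Vset]
        intro p hp
        rw [hA2, mem_union] at hp
        rcases hp with hp | hp
        · exact mem_Vset.1 hxA p hp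
        · obtain ⟨i, _, rfl⟩ := mem_image.1 hp
          exact hco x _
      rcases exB_or P.V P.θ C a with h | h
      · exfalso
        apply hxB
        apply h
        rw [ha]
        exact mem_inter.2 ⟨hxA2, hxC⟩
      · refine lt_of_lt_of_le h (card_le_card ?_)
        intro x' hx'
        rw [ha, mem_sdiff, mem_inter] at hx'
        obtain ⟨⟨h1, h2⟩, h3⟩ := hx'
        rw [hUj, mem_filter, hU, mem_sdiff, mem_inter]
        refine ⟨⟨⟨?_, h2⟩, h3⟩, ?_⟩
        · apply hAZ
          rw [mem_Vset]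
          intro p hp
          exact mem_Vset.1 h1 p (mem_union_left _ hp)
        · intro i hi hxi
          have h4 := mem_Vset.1 h1 (co (F i (pp i)).1, x (F i (pp i)).1)
            (mem_union_right _ (mem_image.2 ⟨i, hi, rfl⟩))
          dsimp only at h4
          rw [hco] at h4
          have h5 := mem_cube.1 hxi (pp i)
          rw [h4] at h5
          exact hpp i hi h5
    -- a heavy clause
    have hex : ∃ i ∈ J \ J', Uj.card ≤ P.H * (Uj ∩ cube (F i)).card := by
      by_contra hcon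
      push Not at hcon
      have h1 : Uj ⊆ (J \ J').biUnion fun i => Uj ∩ cube (F i) := by
        intro x hx
        have hx1 := hx
        rw [hUj, mem_filter] at hx1
        obtain ⟨i, hi, hxi⟩ := hcov x hx1.1
        rw [mem_biUnion]
        refine ⟨i, ?_, mem_inter.2 ⟨hx, hxi⟩⟩
        rw [mem_sdiff]
        exact ⟨hi, fun h => hx1.2 i h hxi⟩
      have h2 : Uj.card ≤ ∑ i ∈ J \ J', (Uj ∩ cube (F i)).card :=
        (card_le_card h1).trans card_biUnion_le
      have hJne : (J \ J').Nonempty := by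
        rw [nonempty_iff_ne_empty]
        intro h0
        rw [h0, sum_empty] at h2
        have := card_pos.2 hne
        omega
      have h3 : P.H * Uj.card < (J \ J').card * Uj.card := by
        calc P.H * Uj.card ≤ P.H * ∑ i ∈ J \ J', (Uj ∩ cube (F i)).card := Nat.mul_le_mul_left _ h2
          _ = ∑ i ∈ J \ J', P.H * (Uj ∩ cube (F i)).card := mul_sum _ _ _
          _ < ∑ _i ∈ J \ J', Uj.card := sum_lt_sum_of_nonempty hJne hcon
          _ = _ := by rw [sum_const, smul_eq_mul]
      have h4 : (J \ J').card ≤ J.card := card_le_card sdiff_subset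
      have h5 := Nat.lt_of_mul_lt_mul_right h3
      omega
    obtain ⟨i, hi, hheavy⟩ := hex
    rw [mem_sdiff] at hi
    refine ⟨insert i J', e ++ [.inr (.inr (F i))], ?_, ?_, ?_, ?_, ?_, ?_, ?_, ?_⟩
    · exact insert_subset hi.1 hJ'J
    · rw [card_insert_of_notMem hi.2, hJ'c]
    · rw [valid_append, he6]
      exact ⟨he1, ⟨hlarge, hheavy⟩, trivial⟩
    · rw [nk_append, he2]
      rfl
    · rw [ns_append, he3]
      rfl
    · rw [rems_append, List.length_append, he4]
      rfl
    · intro d hd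
      rw [rems_append, List.mem_append] at hd
      rcases hd with hd | hd
      · exact he5 d hd
      · simp only [rems, List.mem_singleton] at hd
        exact ⟨i, hd.symm⟩
    · rw [run_append, he6]
      show Uj \ cube (F i) = _
      ext x
      simp only [hUj, mem_sdiff, mem_filter, mem_insert, forall_eq_or_imp]
      tauto

open Classical in
theorem phase2 {L : ℕ} (P : Proc N α ι κ) (F : I → Cl N w) (co : Fin N → α)
    (hco : ∀ x v, P.y x (co v) = x v) (wide : Fin L → Finset (α × Bool))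
    (nar Z : Fin L → Finset (Pt N)) (hZ : ∀ t, Z t = Vset P.y (wide t) ∩ nar t)
    (W W2 : ℕ) (hnar : ∀ t, ∀ x ∈ nar t, ∃ A : Finset (α × Bool), A.card ≤ W2 ∧
      x ∈ Vset P.y A ∧ Vset P.y A ⊆ nar t)
    (q : ℕ) (hq : 1 ≤ q)
    (hsound : ∀ t, ∃ (Q : Finset (Fin L)) (J : Finset I), Q.card + J.card ≤ q ∧
      (∀ s ∈ Q, s < t) ∧ ∀ x ∈ Z t, (∃ s ∈ Q, x ∈ Z s) ∨ ∃ i ∈ J, x ∈ cube (F i))
    (hlast : ∃ t, Z t = univ)
    (Θ b : ℕ) (hb : 1 ≤ b) (hbH : 3 * (q * b) ≤ P.H)
    (hV : ∀ A : Finset (α × Bool), A.card ≤ W + W2 + b → ∃ a : ι, P.V a = Vset P.y A)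
    (hst : ∀ A : Finset (α × Bool), A.card ≤ W → ∀ t, ∃ a : κ, P.Z a = Vset P.y A ∩ nar t)
    (hΘ : 8 * (Fintype.card ι * P.θ) ≤ 3 * Θ) (hΘ0 : 0 < Θ)
    (S : Finset (Pt N)) (hheavy : ∀ i, P.H * (S ∩ cube (F i)).card < S.card)
    (hfat : fats P.y W wide (cl P.y S) = ∅) (hS : Θ ≤ S.card) :
    ∃ e : List (Ev N w α κ), valid P S e ∧ nk e = 0 ∧ ns e ≤ 1 ∧ (rems e).length = b ∧
      ∀ d ∈ rems e, ∃ i, F i = d := by
  set C := cl P.y S with hC
  set B := exB P.V P.θ C with hB
  set Y := C \ B with hY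
  have hc1 : 3 * S.card ≤ 4 * C.card := cl_card P.y S
  have hBc : B.card ≤ Fintype.card ι * P.θ := exB_card P.V P.θ C
  have hYc : 3 * S.card ≤ 8 * Y.card := by
    have h1 : C.card ≤ Y.card + B.card := by
      have h2 := card_sdiff_add_card_inter C B
      have h3 : (C ∩ B).card ≤ B.card := card_le_card inter_subset_right
      rw [← hY] at h2
      omega
    omega
  have hYS : Y ⊆ S := sdiff_subset.trans (cl_sub _ _)
  set cov : ℕ → Finset (Pt N) → Prop := fun m V => ∃ J : Finset I, J.card ≤ m ∧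
    ∀ x ∈ V, x ∈ Y → ∃ i ∈ J, x ∈ cube (F i) with hcov
  have hmono : ∀ m m' V, m ≤ m' → cov m V → cov m' V := by
    rintro m m' V hm ⟨J, hJ, h⟩
    exact ⟨J, hJ.trans hm, h⟩
  have hroot : ¬ cov (q * b) univ := by
    rintro ⟨J, hJ, h⟩
    have h1 : Y ⊆ J.biUnion fun i => S ∩ cube (F i) := by
      intro x hx
      obtain ⟨i, hi, hxi⟩ := h x (mem_univ _) hx
      exact mem_biUnion.2 ⟨i, hi, mem_inter.2 ⟨hYS hx, hxi⟩⟩
    have h2 : Y.card ≤ ∑ i ∈ J, (S ∩ cube (F i)).card :=
      (card_le_card h1).trans card_biUnion_le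
    have h3 : P.H * Y.card ≤ q * b * S.card := by
      calc P.H * Y.card ≤ P.H * ∑ i ∈ J, (S ∩ cube (F i)).card := Nat.mul_le_mul_left _ h2
        _ = ∑ i ∈ J, P.H * (S ∩ cube (F i)).card := mul_sum _ _ _
        _ ≤ ∑ _i ∈ J, S.card := sum_le_sum fun i _ => (hheavy i).le
        _ = J.card * S.card := by rw [sum_const, smul_eq_mul]
        _ ≤ _ := Nat.mul_le_mul_right _ hJ
    have hqb : 1 ≤ q * b := Nat.one_le_iff_ne_zero.2 (by
      have : 0 < q * b := Nat.mul_pos (by omega) (by omega)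
      omega)
    have hYpos : 0 < Y.card := by omega
    have h4 : 9 * (q * b * Y.card) ≤ 8 * (q * b * Y.card) := by
      calc 9 * (q * b * Y.card) = 3 * (3 * (q * b) * Y.card) := by ring
        _ ≤ 3 * (P.H * Y.card) := Nat.mul_le_mul_left _ (Nat.mul_le_mul_right _ hbH)
        _ ≤ 3 * (q * b * S.card) := Nat.mul_le_mul_left _ h3
        _ = q * b * (3 * S.card) := by ring
        _ ≤ q * b * (8 * Y.card) := Nat.mul_le_mul_left _ hYc
        _ = _ := by ring
    have : 0 < q * b * Y.card := Nat.mul_pos hqb hYpos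
    omega
  -- the first line which needs more than `b` clauses
  have hline : ∃ t, ¬ cov b (Z t) ∧ cov (q * b) (Z t) := by
    by_contra hcon
    push Not at hcon
    have hall : ∀ n : ℕ, ∀ t : Fin L, (t : ℕ) = n → cov b (Z t) := by
      intro n
      induction n using Nat.strong_induction_on with
      | _ n ih =>
        intro t ht
        by_contra hnb
        refine hcon t hnb ?_
        obtain ⟨Q, J, hQ1, hQ2, hQ3⟩ := hsound t
        have hQc : ∀ s ∈ Q, cov b (Z s) := by
          intro s hs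
          have h1 := hQ2 s hs
          exact ih s (by rw [← ht]; exact h1) s rfl
        have hQc2 : ∀ s : Fin L, ∃ J : Finset I, s ∈ Q → J.card ≤ b ∧
            ∀ x ∈ Z s, x ∈ Y → ∃ i ∈ J, x ∈ cube (F i) := by
          intro s
          by_cases hs : s ∈ Q
          · obtain ⟨J, hJ1, hJ2⟩ := hQc s hs
            exact ⟨J, fun _ => ⟨hJ1, hJ2⟩⟩
          · exact ⟨∅, fun h => absurd h hs⟩
        choose JJ hJJ using hQc2
        refine ⟨Q.biUnion JJ ∪ J, ?_, ?_⟩
        · calc (Q.biUnion JJ ∪ J).card ≤ (Q.biUnion JJ).card + J.card := card_union_le _ _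
            _ ≤ ∑ s ∈ Q, (JJ s).card + J.card := Nat.add_le_add_right card_biUnion_le _
            _ ≤ ∑ _s ∈ Q, b + J.card :=
                Nat.add_le_add_right (sum_le_sum fun s hs => (hJJ s hs).1) _
            _ = Q.card * b + J.card := by rw [sum_const, smul_eq_mul]
            _ ≤ Q.card * b + J.card * b :=
                Nat.add_le_add_left (Nat.le_mul_of_pos_right _ (by omega)) _
            _ = (Q.card + J.card) * b := by ring
            _ ≤ q * b := Nat.mul_le_mul_right _ hQ1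
        · intro x hx hxY
          rcases hQ3 x hx with ⟨s, hs, hxs⟩ | ⟨i, hi, hxi⟩
          · obtain ⟨i, hi, hxi⟩ := (hJJ s hs).2 x hxs hxY
            exact ⟨i, mem_union_left _ (mem_biUnion.2 ⟨s, hs, hi⟩), hxi⟩
          · exact ⟨i, mem_union_right _ hi, hxi⟩
    obtain ⟨t, ht⟩ := hlast
    have h1 := hall t t rfl
    rw [ht] at h1
    exact hroot (hmono _ _ _ (Nat.le_mul_of_pos_left b (by omega)) h1)
  obtain ⟨t, ht1, ht2⟩ := hline
  have hnotfat : ¬ fat P.y W C (wide t) := by
    intro h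
    have : t ∈ fats P.y W wide C := by
      unfold fats
      rw [mem_filter]
      exact ⟨mem_univ _, h⟩
    rw [hfat] at this
    exact absurd this (notMem_empty t)
  have hnotdead : ¬ dead P.y C (wide t) := by
    rintro ⟨p, hp, hp2⟩
    apply ht1
    refine ⟨∅, by simp, ?_⟩
    intro x hx hxY
    exfalso
    rw [hZ t, mem_inter] at hx
    exact hp2 x (mem_sdiff.1 hxY).1 (mem_Vset.1 hx.1 p hp)
  set A := nc P.y C (wide t) with hA
  have hAc : A.card ≤ W := by
    by_contra hcon
    push Not at hcon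
    exact hnotfat ⟨hnotdead, hcon⟩
  set ZA := Vset P.y A ∩ nar t with hZA
  have hcert : ∀ x ∈ ZA, ∃ A' : Finset (α × Bool), A'.card ≤ W + W2 ∧ x ∈ Vset P.y A' ∧
      Vset P.y A' ⊆ ZA := by
    intro x hx
    rw [hZA, mem_inter] at hx
    obtain ⟨A1, h1, h2, h3⟩ := hnar t x hx.2
    refine ⟨A ∪ A1, (card_union_le _ _).trans (Nat.add_le_add hAc h1), ?_, ?_⟩
    · rw [mem_Vset]
      intro p hp
      rcases mem_union.1 hp with hp | hp
      · exact mem_Vset.1 hx.1 p hp
      · exact mem_Vset.1 h2 p hp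
    · intro x' hx'
      rw [mem_Vset] at hx'
      rw [hZA, mem_inter]
      refine ⟨mem_Vset.2 fun p hp => hx' p (mem_union_left _ hp), ?_⟩
      exact h3 (mem_Vset.2 fun p hp => hx' p (mem_union_right _ hp))
  set U := (ZA ∩ C) \ B with hU
  have hUmem : ∀ x, x ∈ U ↔ x ∈ Z t ∧ x ∈ Y := by
    intro x
    rw [hU, mem_sdiff, mem_inter, hZA, mem_inter, hY, mem_sdiff, hZ t, mem_inter]
    constructor
    · rintro ⟨⟨⟨h1, h4⟩, h2⟩, h3⟩
      exact ⟨⟨(Vset_nc P.y C (wide t) x h2).2 h1, h4⟩, h2, h3⟩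
    · rintro ⟨⟨h1, h4⟩, h2, h3⟩
      exact ⟨⟨⟨(Vset_nc P.y C (wide t) x h2).1 h1, h4⟩, h2⟩, h3⟩
  -- a minimal cover
  have hexm : ∃ m, ∃ J : Finset I, J.card = m ∧ ∀ x ∈ U, ∃ i ∈ J, x ∈ cube (F i) := by
    obtain ⟨J, _, hJ2⟩ := ht2
    exact ⟨J.card, J, rfl, fun x hx => hJ2 x ((hUmem x).1 hx).1 ((hUmem x).1 hx).2⟩
  obtain ⟨J, hJ1, hJ2⟩ := Nat.find_spec hexm
  have hmin : ∀ J' : Finset I, J'.card < J.card → ¬ ∀ x ∈ U, ∃ i ∈ J', x ∈ cube (F i) := by
    intro J' hJ' hcon
    rw [hJ1] at hJ'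
    exact Nat.find_min hexm hJ' ⟨J', rfl, hcon⟩
  have hbJ : b < J.card := by
    by_contra hcon
    push Not at hcon
    apply ht1
    exact ⟨J, hcon, fun x hx hxY => hJ2 x ((hUmem x).2 ⟨hx, hxY⟩)⟩
  have hJq : J.card ≤ q * b := by
    obtain ⟨J', hJ'1, hJ'2⟩ := ht2
    by_contra hcon
    push Not at hcon
    exact hmin J' (lt_of_le_of_lt hJ'1 hcon)
      (fun x hx => hJ'2 x ((hUmem x).1 hx).1 ((hUmem x).1 hx).2)
  obtain ⟨J', e, -, -, he1, he2, he3, he4, he5, -⟩ := greedy P F co hco b (W + W2) hV C ZA hcert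
    U hU J hJ2 hmin hbJ (by omega) b le_rfl
  obtain ⟨a, ha⟩ := hst A hAc t
  refine ⟨.inr (.inl a) :: e, ⟨trivial, ?_⟩, he2, ?_, he4, he5⟩
  · have : step P S (.inr (.inl a) : Ev N w α κ) = U := by
      show (P.Z a ∩ cl P.y S) \ exB P.V P.θ (cl P.y S) = U
      rw [ha]
    rw [this]
    exact he1
  · show ns e + 1 ≤ 1
    omega

end Pool.Agent.MP_e81270_lc.X3
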