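import Pool.Agent.Lib.MP_e81270_lc_X3.Count
import Pool.Agent.Lib.MP_e81270_lc_X3.Phase2

/-!
# The core: for a fixed system of atoms few formulas have a short refutation
-/

set_option autoImplicit false
set_option linter.unusedSectionVars false

namespace Pool.Agent.MP_e81270_lc.X3

open Finset

section

variable {N w : ℕ} {α κ : Type} [Fintype α] [DecidableEq α] [Fintype κ] [DecidableEq κ]

/-- `F` has a refutation with `L` lines over the atoms `y`; a line is given by the set of the
literals which fail in the assignments which falsify its wide part (which is over `G`), and by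
the set of the assignments which falsify its narrow part -/
def HasRf {I : Type} (y : Pt N → α → Bool) (F : I → Cl N w) (G : Finset α)
    (Nar : κ → Finset (Pt N)) (q L : ℕ) : Prop :=
  ∃ (wide : Fin L → Finset (α × Bool)) (nr : Fin L → κ),
    (∀ t, ∀ p ∈ wide t, p.1 ∈ G) ∧
    (∀ t, ∃ (Q : Finset (Fin L)) (J : Finset I), Q.card + J.card ≤ q ∧ (∀ s ∈ Q, s < t) ∧
      ∀ x ∈ Vset y (wide t) ∩ Nar (nr t),
        (∃ s ∈ Q, x ∈ Vset y (wide s) ∩ Nar (nr s)) ∨ ∃ i ∈ J, x ∈ cube (F i)) ∧
    ∃ t, Vset y (wide t) ∩ Nar (nr t) = univ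

/-- the narrow partial assignments -/
def Vfam (y : Pt N → α → Bool) (k : ℕ) (a : Fin k → Option (α × Bool)) : Finset (Pt N) :=
  univ.filter fun x => ∀ i p, a i = some p → y x p.1 = p.2

lemma Vfam_surj (y : Pt N → α → Bool) (k : ℕ) (A : Finset (α × Bool)) (hA : A.card ≤ k) :
    ∃ a : Fin k → Option (α × Bool), Vfam y k a = Vset y A := by
  refine ⟨fun i => A.toList[(i : ℕ)]?, ?_⟩
  ext x
  rw [mem_Vset]
  unfold Vfam
  rw [mem_filter]
  constructor
  · rintro ⟨-, h⟩ p hp
    rw [← mem_toList] at hp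
    obtain ⟨n, hn, hp2⟩ := List.getElem_of_mem hp
    rw [length_toList] at hn
    refine h ⟨n, by omega⟩ p ?_
    rw [List.getElem?_eq_some_iff]
    exact ⟨by rw [length_toList]; exact hn, hp2⟩
  · intro h
    refine ⟨mem_univ _, fun i p hp => h p ?_⟩
    rw [← mem_toList]
    exact List.mem_of_getElem? hp

/-- the process for the atoms `y` -/
def mkP (y : Pt N → α → Bool) (Nar : κ → Finset (Pt N)) (s H θ : ℕ) :
    Proc N α (Fin (3 * s) → Option (α × Bool)) ((Fin s → Option (α × Bool)) × κ) where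
  y := y
  V := Vfam y (3 * s)
  Z := fun a => Vfam y s a.1 ∩ Nar a.2
  H := H
  θ := θ

end

theorem core {N w M k : ℕ} {α κ : Type} [Fintype α] [DecidableEq α] [Fintype κ] [DecidableEq κ]
    (hk : 2 ≤ k) (hN : 0 < N) (y : Pt N → α → Bool) (co : Fin N → α)
    (hco : ∀ x v, y x (co v) = x v) (Nar : κ → Finset (Pt N)) (s T1 H H' q Θ θ Z : ℕ)
    (hNar : ∀ a, ∀ x ∈ Nar a, ∃ A : Finset (α × Bool), A.card ≤ s ∧
      x ∈ Vset y A ∧ Vset y A ⊆ Nar a)
    (hκ : 0 < Fintype.card κ)
    (hs : 1 ≤ s) (hα : 0 < Fintype.card α) (hq : 1 ≤ q)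
    (hθ : 2 ^ (k * 2 ^ k * N) * 2 ^ ((k - 2) * w * 2 ^ k) ≤ θ ^ (k * 2 ^ k) * 2 ^ N)
    (hΘ1 : 2 * θ < Θ)
    (hΘ2 : 8 * ((2 * Fintype.card α + 1) ^ (3 * s) * θ) ≤ 3 * Θ)
    (hH1 : 11 * Fintype.card α * s ≤ H) (hH2 : 3 * (q * s) ≤ H) (hH3 : 4 * H ≤ H')
    (hsize : 4 * (Θ * (11 * Fintype.card α) ^ T1) ≤ 3 * 2 ^ N)
    (B : Finset (Fin M → Cl N w)) (hBc : Fintype.card (Cl N w) ^ M ≤ Z * B.card)
    (hT : 0 < Fintype.card (Cl N w))
    (hZ : ∀ j, 2 ^ j ≤ Z → 4 * j ≤ H')
    (hcube : ∀ F ∈ B, ∀ i, H' * (cube (F i)).card < 2 ^ N)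
    (href : ∀ F ∈ B, ∃ (G : Finset α) (L : ℕ), (2 * G.card ≤ s ∨
      L * (2 * G.card - s) ^ T1 < (2 * G.card) ^ T1) ∧ HasRf y F G Nar q L)
    (hnum : (T1 + s + 2 : ℝ) * 3 ^ (T1 + s + 1) *
      ((2 * H ^ k * N ^ w / 2 ^ ((k - 2) * w) : ℝ) ^ s * (2 * Fintype.card α) ^ T1 *
        ((2 * Fintype.card α + 1) ^ s * Fintype.card κ)) *
      (M * 2 : ℝ) ^ s < ((2 * N : ℝ) ^ w) ^ s) : False := by
  classical
  have hBpos : 0 < B.card := by
    rcases Nat.eq_zero_or_pos B.card with h | h
    · rw [h, mul_zero] at hBc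
      have : 0 < Fintype.card (Cl N w) ^ M := by positivity
      omega
    · exact h
  obtain ⟨I0, f0, hne, hI0, hdense⟩ := presample B (card_pos.1 hBpos) 2 (by norm_num)
  have hI0c : 4 * I0.card ≤ H' := by
    apply hZ
    rw [Fintype.card_fin] at hI0
    exact Nat.le_of_mul_le_mul_right (hI0.trans hBc) hBpos
  set B' := fixOn B I0 f0 with hB'
  set P := mkP y Nar s H θ with hP
  set S0 : Finset (Pt N) := univ.filter fun x => ∀ i ∈ I0, x ∉ cube (f0 i) with hS0
  -- the size of `S0`
  have hS0c : 3 * 2 ^ N ≤ 4 * S0.card := by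
    obtain ⟨F1, hF1⟩ := hne
    have hF1' := mem_fixOn.1 hF1
    have h1 : (univ : Finset (Pt N)) ⊆ S0 ∪ I0.biUnion fun i => cube (f0 i) := by
      intro x _
      by_cases h : ∀ i ∈ I0, x ∉ cube (f0 i)
      · exact mem_union_left _ (mem_filter.2 ⟨mem_univ _, h⟩)
      · push Not at h
        obtain ⟨i, hi, hx⟩ := h
        exact mem_union_right _ (mem_biUnion.2 ⟨i, hi, hx⟩)
    have h2 : 2 ^ N ≤ S0.card + ∑ i ∈ I0, (cube (f0 i)).card := by
      calc 2 ^ N = (univ : Finset (Pt N)).card := by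
            rw [card_univ, Fintype.card_fun, Fintype.card_bool, Fintype.card_fin]
        _ ≤ _ := (card_le_card h1).trans ((card_union_le _ _).trans
            (Nat.add_le_add_left card_biUnion_le _))
    have h3 : H' * ∑ i ∈ I0, (cube (f0 i)).card ≤ I0.card * 2 ^ N := by
      rw [mul_sum]
      calc ∑ i ∈ I0, H' * (cube (f0 i)).card ≤ ∑ _i ∈ I0, 2 ^ N := by
            refine sum_le_sum fun i hi => ?_
            rw [← hF1'.2 i hi]
            exact (hcube F1 hF1'.1 i).le
        _ = _ := by rw [sum_const, smul_eq_mul]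
    have hH'pos : 0 < H' := by
      have : 0 < 3 * (q * s) := by positivity
      omega
    have h4 : 4 * ∑ i ∈ I0, (cube (f0 i)).card ≤ 2 ^ N := by
      have h5 : H' * (4 * ∑ i ∈ I0, (cube (f0 i)).card) ≤ H' * 2 ^ N := by
        calc H' * (4 * ∑ i ∈ I0, (cube (f0 i)).card)
            = 4 * (H' * ∑ i ∈ I0, (cube (f0 i)).card) := by ring
          _ ≤ 4 * (I0.card * 2 ^ N) := Nat.mul_le_mul_left _ h3
          _ = (4 * I0.card) * 2 ^ N := by ring
          _ ≤ H' * 2 ^ N := Nat.mul_le_mul_right _ hI0c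
      exact Nat.le_of_mul_le_mul_left h5 hH'pos
    omega
  have hΘ0 : 0 < Θ := by omega
  have hιc : Fintype.card (Fin (3 * s) → Option (α × Bool))
      = (2 * Fintype.card α + 1) ^ (3 * s) := by
    rw [Fintype.card_fun, Fintype.card_option, Fintype.card_prod, Fintype.card_bool,
      Fintype.card_fin, mul_comm (Fintype.card α) 2]
  have hκc : Fintype.card ((Fin s → Option (α × Bool)) × κ)
      = (2 * Fintype.card α + 1) ^ s * Fintype.card κ := by
    rw [Fintype.card_prod, Fintype.card_fun, Fintype.card_option, Fintype.card_prod,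
      Fintype.card_bool, Fintype.card_fin, mul_comm (Fintype.card α) 2]
  refine no_transcripts P S0 B' hne I0 2 hdense (2 * H ^ k * N ^ w / 2 ^ ((k - 2) * w) : ℝ) ?_ ?_
    s T1 hα ?_ ?_ ?_
  · have hH0 : 0 < H := by
      have : 0 < 3 * (q * s) := by positivity
      omega
    have h1 : (0 : ℝ) < H := by exact_mod_cast hH0
    have h2 : (0 : ℝ) < N := by exact_mod_cast hN
    positivity
  · intro S hS
    have hS' : θ < S.card := hS
    have h1 := hvy_card (w := w) hk H S (hθ.trans (Nat.mul_le_mul_right _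
      (Nat.pow_le_pow_left hS'.le _)))
    have h2 : (2 : ℝ) ^ ((k - 2) * w) * ((hvy H S : Finset (Cl N w)).card : ℝ)
        ≤ 2 * (H : ℝ) ^ k * N ^ w := by exact_mod_cast h1
    rw [le_div_iff₀ (by positivity)]
    show ((hvy H S : Finset (Cl N w)).card : ℝ) * 2 ^ ((k - 2) * w) ≤ _
    linarith
  · rw [hκc]
    positivity
  · intro F hF
    have hF' := mem_fixOn.1 hF
    obtain ⟨G, L, hL, wide, nr, hG, hsound, hlast⟩ := href F hF'.1
    have hcubeF := hcube F hF'.1
    have hout : ∀ (e : List (Ev N w α ((Fin s → Option (α × Bool)) × κ))), valid P S0 e →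
        (∀ d ∈ rems e, ∃ i, F i = d) → ∀ d ∈ rems e, ∃ i, i ∉ I0 ∧ F i = d := by
      intro e he h d hd
      obtain ⟨i, hi⟩ := h d hd
      refine ⟨i, fun hiI => ?_, hi⟩
      obtain ⟨x, hx⟩ := (valid_rems P S0 e he).2 d hd
      rw [mem_inter] at hx
      have h1 := (mem_filter.1 hx.1).2 i hiI
      rw [← hF'.2 i hiI, hi] at h1
      exact h1 hx.2
    have hheavy : ∀ i, H * (S0 ∩ cube (F i)).card < S0.card := by
      intro i
      have h1 : (S0 ∩ cube (F i)).card ≤ (cube (F i)).card := card_le_card inter_subset_right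
      have h2 := hcubeF i
      have h3 : 4 * (H * (S0 ∩ cube (F i)).card) ≤ H' * (cube (F i)).card := by
        calc 4 * (H * (S0 ∩ cube (F i)).card) = (4 * H) * (S0 ∩ cube (F i)).card := by ring
          _ ≤ H' * (cube (F i)).card := Nat.mul_le_mul hH3 h1
      omega
    have hph1 : ∃ e : List (Ev N w α ((Fin s → Option (α × Bool)) × κ)), valid P S0 e ∧
        nk e ≤ T1 ∧ ns e = 0 ∧ (rems e).length ≤ s ∧
        (∀ d ∈ rems e, ∃ i, F i = d) ∧ ((rems e).length = s ∨
          ((∀ i, P.H * (run P S0 e ∩ cube (F i)).card < (run P S0 e).card) ∧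
            fats P.y s wide (cl P.y (run P S0 e)) = ∅ ∧ Θ ≤ (run P S0 e).card)) := by
      rcases hL with hL | hL
      · refine ⟨[], trivial, Nat.zero_le _, rfl, Nat.zero_le _, ?_, Or.inr ⟨hheavy, ?_, ?_⟩⟩
        · intro d hd
          simp [rems] at hd
        · rw [eq_empty_iff_forall_notMem]
          intro t ht
          unfold fats at ht
          have h1 := (mem_filter.1 ht).2.2
          have h2 : (nc P.y (cl P.y (run P S0 ([] : List (Ev N w α
              ((Fin s → Option (α × Bool)) × κ))))) (wide t)).card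
              ≤ (G ×ˢ (univ : Finset Bool)).card := by
            apply card_le_card
            intro p hp
            exact mem_product.2 ⟨hG t p (mem_nc.1 hp).1, mem_univ _⟩
          rw [card_product, card_univ, Fintype.card_bool] at h2
          omega
        · show Θ ≤ S0.card
          have h1 : 1 ≤ (11 * Fintype.card α) ^ T1 := Nat.one_le_pow _ _ (by omega)
          have h2 : Θ ≤ Θ * (11 * Fintype.card α) ^ T1 := Nat.le_mul_of_pos_right _ h1
          omega
      · have hfat : (fats P.y s wide (cl P.y S0)).card * (2 * G.card - s) ^ T1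
            < (2 * G.card) ^ T1 := by
          refine lt_of_le_of_lt ?_ hL
          apply Nat.mul_le_mul_right
          refine (card_le_univ _).trans ?_
          rw [Fintype.card_fin]
        exact phase1 P F wide G hG s Θ s hs hα hΘ1 hH1 T1 S0 s le_rfl hheavy (by omega) hfat
    obtain ⟨e1, g1, g2, g3, g4, g5, g6⟩ := hph1
    rcases g6 with g6 | ⟨g7, g8, g9⟩
    · exact ⟨e1, g1, g2, by omega, g6, hout e1 g1 g5⟩
    · rcases Nat.lt_or_ge (rems e1).length s with hlt | hge
      swap
      · exact ⟨e1, g1, g2, by omega, by omega, hout e1 g1 g5⟩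
      obtain ⟨e2, k1, k2, k3, k4, k5⟩ := phase2 P F co hco wide (fun t => Nar (nr t))
        (fun t => Vset y (wide t) ∩ Nar (nr t)) (fun t => rfl) s s
        (fun t => hNar (nr t)) q hq hsound hlast Θ
        (s - (rems e1).length) (by omega)
        (by
          refine le_trans ?_ hH2
          exact Nat.mul_le_mul_left _ (Nat.mul_le_mul_left _ (Nat.sub_le _ _)))
        (by
          intro A hA
          exact Vfam_surj y (3 * s) A (by omega))
        (by
          intro A hA t
          obtain ⟨a, ha⟩ := Vfam_surj y s A hA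
          exact ⟨(a, nr t), by show Vfam y s a ∩ _ = _; rw [ha]; rfl⟩)
        (by rw [hιc]; exact hΘ2) hΘ0 (run P S0 e1) g7 g8 g9
      have hval : valid P S0 (e1 ++ e2) := by
        rw [valid_append]
        exact ⟨g1, k1⟩
      refine ⟨e1 ++ e2, hval, ?_, ?_, ?_, hout _ hval ?_⟩
      · rw [nk_append]
        omega
      · rw [ns_append]
        omega
      · rw [rems_append, List.length_append]
        omega
      · intro d hd
        rw [rems_append, List.mem_append] at hd
        rcases hd with hd | hd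
        · exact g5 d hd
        · exact k5 d hd
  · have hc : (Fintype.card (Cl N w) : ℝ) = (2 * N : ℝ) ^ w := by
      rw [Fintype.card_fun, Fintype.card_prod, Fintype.card_bool, Fintype.card_fin,
        Fintype.card_fin, mul_comm N 2]
      push_cast
      rfl
    rw [hc, hκc, Fintype.card_fin]
    push_cast
    exact hnum

end Pool.Agent.MP_e81270_lc.X3
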