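import Pool.Agent.Lib.MP_e81270_lc_X3.Transcript

/-!
# Union bound over the transcripts
-/

set_option autoImplicit false
set_option linter.unusedSectionVars false

namespace Pool.Agent.MP_e81270_lc.X3

open Finset

section

variable {I D : Type} [Fintype I] [DecidableEq I] [Fintype D] [DecidableEq D]

open Classical in
theorem card_hit (B : Finset (I → D)) (I0 : Finset I) (r : ℕ)
    (dense : ∀ J : Finset I, Disjoint J I0 → ∀ v : I → D,
      (fixOn B J v).card * Fintype.card D ^ J.card ≤ r ^ J.card * B.card)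
    (s : ℕ) (R : Fin s → D) :
    (B.filter fun F => ∃ τ : Fin s → I, Function.Injective τ ∧ (∀ i, τ i ∉ I0) ∧
      ∀ i, F (τ i) = R i).card * Fintype.card D ^ s
      ≤ Fintype.card I ^ s * (r ^ s * B.card) := by
  rcases B.eq_empty_or_nonempty with h0 | ⟨F0, hF0⟩
  · simp [h0]
  set TT : Finset (Fin s → I) := univ.filter fun τ => Function.Injective τ ∧ ∀ i, τ i ∉ I0
    with hTT
  have h1 : (B.filter fun F => ∃ τ : Fin s → I, Function.Injective τ ∧ (∀ i, τ i ∉ I0) ∧
      ∀ i, F (τ i) = R i)
      ⊆ TT.biUnion fun τ => fixOn B (univ.image τ) (Function.extend τ R F0) := by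
    intro F hF
    obtain ⟨hFB, τ, hτ1, hτ2, hτ3⟩ := mem_filter.1 hF
    rw [mem_biUnion]
    refine ⟨τ, ?_, ?_⟩
    · rw [hTT, mem_filter]
      exact ⟨mem_univ _, hτ1, hτ2⟩
    · unfold fixOn
      rw [mem_filter]
      refine ⟨hFB, fun i hi => ?_⟩
      obtain ⟨j, _, rfl⟩ := mem_image.1 hi
      rw [hτ1.extend_apply, hτ3]
  have h2 : ∀ τ ∈ TT, (fixOn B (univ.image τ) (Function.extend τ R F0)).card
      * Fintype.card D ^ s ≤ r ^ s * B.card := by
    intro τ hτ
    rw [hTT, mem_filter] at hτ
    have hc : (univ.image τ).card = s := by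
      rw [card_image_of_injective _ hτ.2.1, card_univ, Fintype.card_fin]
    have := dense (univ.image τ) (by
      rw [disjoint_left]
      intro i hi
      obtain ⟨j, _, rfl⟩ := mem_image.1 hi
      exact hτ.2.2 j) (Function.extend τ R F0)
    rwa [hc] at this
  have h3 : TT.card ≤ Fintype.card I ^ s := by
    calc TT.card ≤ Fintype.card (Fin s → I) := card_le_univ _
      _ = Fintype.card I ^ s := by rw [Fintype.card_fun, Fintype.card_fin]
  calc _ ≤ (∑ τ ∈ TT, (fixOn B (univ.image τ) (Function.extend τ R F0)).card)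
        * Fintype.card D ^ s := by
        gcongr
        exact (card_le_card h1).trans card_biUnion_le
    _ = ∑ τ ∈ TT, (fixOn B (univ.image τ) (Function.extend τ R F0)).card
        * Fintype.card D ^ s := sum_mul _ _ _
    _ ≤ ∑ _τ ∈ TT, r ^ s * B.card := sum_le_sum h2
    _ = TT.card * (r ^ s * B.card) := by rw [sum_const, smul_eq_mul]
    _ ≤ _ := Nat.mul_le_mul_right _ h3

end

section

variable {N w : ℕ} {α ι κ I : Type} [Fintype α] [DecidableEq α] [Fintype ι] [DecidableEq ι]
  [Fintype κ] [DecidableEq κ] [Fintype I] [DecidableEq I]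

theorem no_transcripts (P : Proc N α ι κ) (S0 : Finset (Pt N)) (B : Finset (I → Cl N w))
    (hB : B.Nonempty) (I0 : Finset I) (r : ℕ)
    (dense : ∀ J : Finset I, Disjoint J I0 → ∀ v : I → Cl N w,
      (fixOn B J v).card * Fintype.card (Cl N w) ^ J.card ≤ r ^ J.card * B.card)
    (h : ℝ) (hh : 0 < h)
    (hb : ∀ S : Finset (Pt N), P.θ < S.card → ((hvy P.H S : Finset (Cl N w)).card : ℝ) ≤ h)
    (s T1 : ℕ) (hα : 0 < Fintype.card α) (hι : 0 < Fintype.card κ)
    (htr : ∀ F ∈ B, ∃ e : List (Ev N w α κ), valid P S0 e ∧ nk e ≤ T1 ∧ ns e ≤ 1 ∧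
      (rems e).length = s ∧ ∀ d ∈ rems e, ∃ i, i ∉ I0 ∧ F i = d)
    (hnum : (T1 + s + 2 : ℝ) * 3 ^ (T1 + s + 1) *
      (h ^ s * (2 * Fintype.card α) ^ T1 * Fintype.card κ) *
      (Fintype.card I * r : ℝ) ^ s < (Fintype.card (Cl N w) : ℝ) ^ s) : False := by
  classical
  set nmax := T1 + s + 2 with hnmax
  set T : ℝ := (Fintype.card (Cl N w) : ℝ) with hT
  set cond : List (Ev N w α κ) → Prop := fun e => nk e ≤ T1 ∧ ns e ≤ 1 ∧ (rems e).length = s
    with hcond
  set hit : List (Ev N w α κ) → Finset (I → Cl N w) := fun e =>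
    B.filter fun F => ∀ d ∈ rems e, ∃ i, i ∉ I0 ∧ F i = d with hhit
  have hB0 : (0 : ℝ) < B.card := by exact_mod_cast card_pos.2 hB
  obtain ⟨F0, hF0⟩ := hB
  have hTpos : 0 < T ^ s := by
    refine lt_of_le_of_lt ?_ hnum
    positivity
  -- every `F` is hit
  have hcover : B ⊆ (range nmax).biUnion fun n =>
      ((VL P n S0).filter fun e => cond e).biUnion hit := by
    intro F hF
    obtain ⟨e, he1, he2, he3, he4, he5⟩ := htr F hF
    rw [mem_biUnion]
    refine ⟨e.length, ?_, ?_⟩
    · rw [mem_range, length_eq, he4, hnmax]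
      omega
    · rw [mem_biUnion]
      refine ⟨e, ?_, ?_⟩
      · rw [mem_filter, mem_VL]
        exact ⟨⟨rfl, he1⟩, he2, he3, he4⟩
      · rw [hhit]
        dsimp only
        rw [mem_filter]
        exact ⟨hF, he5⟩
  -- one transcript
  have hone : ∀ e : List (Ev N w α κ), valid P S0 e → cond e →
      ((hit e).card : ℝ) * T ^ s ≤ (Fintype.card I * r : ℝ) ^ s * B.card := by
    intro e he1 he2
    have hnd := (valid_rems P S0 e he1).1
    have h1 := card_hit B I0 r dense (rems e).length (rems e).get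
    have h2 : hit e ⊆ B.filter fun F => ∃ τ : Fin (rems e).length → I,
        Function.Injective τ ∧ (∀ i, τ i ∉ I0) ∧ ∀ i, F (τ i) = (rems e).get i := by
      intro F hF
      rw [hhit] at hF
      dsimp only at hF
      rw [mem_filter] at hF ⊢
      refine ⟨hF.1, ?_⟩
      have h3 : ∀ j : Fin (rems e).length, ∃ i, i ∉ I0 ∧ F i = (rems e).get j := fun j =>
        hF.2 _ (List.get_mem _ _)
      choose τ hτ1 hτ2 using h3
      refine ⟨τ, ?_, hτ1, hτ2⟩
      intro j j' hjj
      have h4 : (rems e).get j = (rems e).get j' := by rw [← hτ2, ← hτ2, hjj]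
      exact (List.nodup_iff_injective_get.1 hnd) h4
    have h3 : (hit e).card * Fintype.card (Cl N w) ^ s
        ≤ Fintype.card I ^ s * (r ^ s * B.card) := by
      have h5 := (Nat.mul_le_mul_right _ (card_le_card h2)).trans h1
      rwa [he2.2.2] at h5
    have h4 : ((hit e).card : ℝ) * T ^ s ≤ (Fintype.card I : ℝ) ^ s * ((r : ℝ) ^ s * B.card) := by
      rw [hT]
      exact_mod_cast h3
    rw [mul_pow, mul_assoc]
    exact h4
  -- number of transcripts of length `n`
  have hnum1 : ∀ n ∈ range nmax, (((VL P n S0).filter fun e => cond e).card : ℝ)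
      ≤ (h ^ s * (2 * Fintype.card α) ^ T1 * Fintype.card κ) * 3 ^ (T1 + s + 1) := by
    intro n hn
    have hα' : (1 : ℝ) ≤ Fintype.card α := by exact_mod_cast hα
    have hι' : (1 : ℝ) ≤ Fintype.card κ := by exact_mod_cast hι
    set c : ℝ := h ^ s * (2 * Fintype.card α) ^ T1 * Fintype.card κ with hc
    have hc0 : 0 < c := by positivity
    have hw : ∀ e ∈ (VL P n S0).filter (fun e => cond e), 1 ≤ c * (e.map (wt h)).prod := by
      intro e he
      obtain ⟨hk, hs1, hr⟩ := (mem_filter.1 he).2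
      rw [wt_prod, hr, hc]
      have e1 : (1 : ℝ) ≤ (2 * Fintype.card α : ℝ) ^ T1 * (1 / (2 * Fintype.card α : ℝ)) ^ nk e := by
        rw [one_div, inv_pow, ← div_eq_mul_inv, one_le_div (by positivity)]
        exact pow_le_pow_right₀ (by linarith) hk
      have e2 : (1 : ℝ) ≤ (Fintype.card κ : ℝ) * (1 / (Fintype.card κ : ℝ)) ^ ns e := by
        rw [one_div, inv_pow, ← div_eq_mul_inv, one_le_div (by positivity)]
        calc (Fintype.card κ : ℝ) ^ ns e ≤ (Fintype.card κ : ℝ) ^ 1 := pow_le_pow_right₀ hι' hs1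
          _ = _ := pow_one _
      have e3 : h ^ s * (1 / h) ^ s = 1 := by
        rw [← mul_pow, mul_one_div, div_self hh.ne', one_pow]
      calc (1 : ℝ) = 1 * 1 * 1 := by norm_num
        _ ≤ ((2 * Fintype.card α : ℝ) ^ T1 * (1 / (2 * Fintype.card α : ℝ)) ^ nk e) *
            ((Fintype.card κ : ℝ) * (1 / (Fintype.card κ : ℝ)) ^ ns e) * (h ^ s * (1 / h) ^ s) := by
            rw [e3]
            have : (0 : ℝ) ≤ 1 := zero_le_one
            nlinarith
        _ = _ := by ring
    have hk := kraft P h hh hb n S0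
    have hnn : ∀ e : List (Ev N w α κ), 0 ≤ (e.map (wt h)).prod := by
      intro e
      refine List.prod_nonneg fun a ha => ?_
      obtain ⟨v, _, rfl⟩ := List.mem_map.1 ha
      exact wt_nonneg hh v
    calc (((VL P n S0).filter fun e => cond e).card : ℝ)
        = ∑ _e ∈ (VL P n S0).filter (fun e => cond e), (1 : ℝ) := by
          rw [sum_const, nsmul_eq_mul, mul_one]
      _ ≤ ∑ e ∈ (VL P n S0).filter (fun e => cond e), c * (e.map (wt h)).prod := sum_le_sum hw
      _ ≤ ∑ e ∈ (VL P n S0), c * (e.map (wt h)).prod := by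
          refine sum_le_sum_of_subset_of_nonneg (filter_subset _ _) fun e _ _ => ?_
          exact mul_nonneg hc0.le (hnn e)
      _ = c * ∑ e ∈ (VL P n S0), (e.map (wt h)).prod := by rw [mul_sum]
      _ ≤ c * 3 ^ n := mul_le_mul_of_nonneg_left hk hc0.le
      _ ≤ c * 3 ^ (T1 + s + 1) := by
          have : n ≤ T1 + s + 1 := by
            have := mem_range.1 hn
            omega
          gcongr
          norm_num
  have hfin : (B.card : ℝ) * T ^ s ≤ (T1 + s + 2 : ℝ) * 3 ^ (T1 + s + 1) *
      (h ^ s * (2 * Fintype.card α) ^ T1 * Fintype.card κ) *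
      (Fintype.card I * r : ℝ) ^ s * B.card := by
    have h1 : (B.card : ℝ) ≤ ∑ n ∈ range nmax, ∑ e ∈ (VL P n S0).filter (fun e => cond e),
        ((hit e).card : ℝ) := by
      have : B.card ≤ ∑ n ∈ range nmax, ∑ e ∈ (VL P n S0).filter (fun e => cond e),
          (hit e).card := by
        refine (card_le_card hcover).trans (card_biUnion_le.trans ?_)
        exact sum_le_sum fun n _ => card_biUnion_le
      exact_mod_cast this
    calc (B.card : ℝ) * T ^ s ≤ (∑ n ∈ range nmax, ∑ e ∈ (VL P n S0).filter (fun e => cond e),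
          ((hit e).card : ℝ)) * T ^ s := mul_le_mul_of_nonneg_right h1 hTpos.le
      _ = ∑ n ∈ range nmax, ∑ e ∈ (VL P n S0).filter (fun e => cond e),
          ((hit e).card : ℝ) * T ^ s := by
          rw [sum_mul]
          exact sum_congr rfl fun n _ => sum_mul _ _ _
      _ ≤ ∑ n ∈ range nmax, ∑ e ∈ (VL P n S0).filter (fun e => cond e),
          ((Fintype.card I * r : ℝ) ^ s * B.card) := by
          refine sum_le_sum fun n _ => sum_le_sum fun e he => ?_
          rw [mem_filter, mem_VL] at he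
          exact hone e he.1.2 he.2
      _ = ∑ n ∈ range nmax, (((VL P n S0).filter fun e => cond e).card : ℝ) *
          ((Fintype.card I * r : ℝ) ^ s * B.card) := by
          refine sum_congr rfl fun n _ => ?_
          rw [sum_const, nsmul_eq_mul]
      _ ≤ ∑ n ∈ range nmax, ((h ^ s * (2 * Fintype.card α) ^ T1 * Fintype.card κ) *
          3 ^ (T1 + s + 1)) * ((Fintype.card I * r : ℝ) ^ s * B.card) := by
          refine sum_le_sum fun n hn => ?_
          exact mul_le_mul_of_nonneg_right (hnum1 n hn) (by positivity)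
      _ = _ := by
          rw [sum_const, card_range, nsmul_eq_mul, hnmax]
          push_cast
          ring
  have h2 : (B.card : ℝ) * T ^ s < B.card * T ^ s := by
    calc (B.card : ℝ) * T ^ s ≤ _ := hfin
      _ < T ^ s * B.card := mul_lt_mul_of_pos_right hnum hB0
      _ = B.card * T ^ s := mul_comm _ _
  exact lt_irrefl _ h2

end

end Pool.Agent.MP_e81270_lc.X3
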