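import Mathlib

/-!
# Extended Frege refutations and their extension variables, definitions

The definitions used by the statement of `ExtensionVariables`.
-/

set_option autoImplicit false

namespace Pool.Agent.MP_e81270_lc.X3

/-- A clause over the variables `W`: a list of literals.  The literal `(v, b)` is satisfied by
the assignments that give the variable `v` the value `b`. -/
abbrev Clause (W : Type) := List (W × Bool)

/-- The assignment `a` satisfies the clause `C`: it satisfies one of the literals of `C`. -/
def Sat {W : Type} (a : W → Bool) (C : Clause W) : Prop := ∃ l ∈ C, a l.1 = l.2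

/-- A formula in conjunctive normal form: a list of clauses. -/
abbrev CNF (V : Type) := List (Clause V)

/-- No assignment satisfies all clauses of the formula `F`. -/
def Unsat {V : Type} (F : CNF V) : Prop := ∀ a : V → Bool, ∃ C ∈ F, ¬ Sat a C

/-- The formula in conjunctive normal form with the `M` clauses `F 0, …, F (M - 1)` of `w`
literals each; repetitions are allowed. -/
def toCNF {N w M : ℕ} (F : Fin M → Fin w → Fin N × Bool) : CNF (Fin N) :=
  List.ofFn fun i => List.ofFn (F i)

/-- Propositional formulas built from the variables `W` with `¬` and `→`. -/
inductive Fml (W : Type) : Type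
  | var (v : W) : Fml W
  | neg (A : Fml W) : Fml W
  | imp (A B : Fml W) : Fml W

/-- The number of symbols (occurrences of variables and of connectives) of a formula. -/
def Fml.size {W : Type} : Fml W → ℕ
  | var _ => 1
  | neg A => A.size + 1
  | imp A B => A.size + B.size + 1

/-- The truth value of a formula at the assignment `a`. -/
def Fml.eval {W : Type} (a : W → Bool) : Fml W → Bool
  | var v => a v
  | neg A => !(A.eval a)
  | imp A B => !(A.eval a) || B.eval a

/-- Definitions of `m` extension variables over the variables `V`: the extension variable `j` is
defined as `fn j`, a Boolean function that depends only on the arguments `args j`, which are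
variables in `V` or extension variables defined earlier. -/
structure Definitions (V : Type) (m : ℕ) where
  args : Fin m → Finset (V ⊕ Fin m)
  fn : Fin m → (V ⊕ Fin m → Bool) → Bool
  earlier : ∀ j i, Sum.inr i ∈ args j → i < j
  depends : ∀ j (a a' : V ⊕ Fin m → Bool), (∀ u ∈ args j, a u = a' u) → fn j a = fn j a'

/-- The assignment `a` obeys all the definitions. -/
def Definitions.Obeyed {V : Type} {m : ℕ} (D : Definitions V m) (a : V ⊕ Fin m → Bool) : Prop :=
  ∀ j, a (Sum.inr j) = D.fn j a

/-- A line over the variables `W`: the disjunction of a clause, the wide part, and of a formula,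
the narrow part. -/
structure Line (W : Type) where
  wide : Clause W
  narrow : Fml W

/-- The assignment `a` satisfies the line `A`. -/
def Line.Holds {W : Type} (a : W → Bool) (A : Line W) : Prop :=
  Sat a A.wide ∨ A.narrow.eval a = true

/-- A refutation of `F` with `m` extension variables and `L` lines.  Each line is implied by at
most `q` earlier lines and clauses of `F`: every assignment that obeys the definitions of the
extension variables and satisfies these earlier lines and clauses also satisfies the line.  One of
the lines is not satisfied by any assignment that obeys the definitions. -/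
structure Refutation {V : Type} (F : CNF V) (m q L : ℕ) where
  defs : Definitions V m
  line : Fin L → Line (V ⊕ Fin m)
  sound : ∀ t, ∃ (P : Finset (Fin L)) (Q : List (Clause V)), P.card + Q.length ≤ q ∧
    (∀ s ∈ P, s < t) ∧ (∀ C ∈ Q, C ∈ F) ∧
    ∀ a, defs.Obeyed a → (∀ s ∈ P, (line s).Holds a) → (∀ C ∈ Q, Sat (fun v => a (Sum.inl v)) C) →
      (line t).Holds a
  last : ∃ t, ∀ a, defs.Obeyed a → ¬ (line t).Holds a

end Pool.Agent.MP_e81270_lc.X3
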