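import Mathlib

/-!
# The parameters
-/

set_option autoImplicit false

namespace Pool.Agent.MP_e81270_lc.X3

lemma six_le (s : ℕ) (hs : 1 ≤ s) : 6 * (s + 1) ≤ 12 ^ s := by
  induction s, hs using Nat.le_induction with
  | base => norm_num
  | succ n hn ih =>
    rw [pow_succ]
    omega

theorem hnum_of {N w M k n s κ H : ℕ} (hN : 0 < N) (hn : 1 ≤ n) (hs : 1 ≤ s)
    (hM : M = 2 * N * 2 ^ w) (hκ : κ ≤ (n + 2) ^ (2 * s))
    (h : 864 * H ^ k * N * (2 * n + 1) ^ 4 < 2 ^ ((k - 2) * w)) :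
    (s + s + 2 : ℝ) * 3 ^ (s + s + 1) *
      ((2 * H ^ k * N ^ w / 2 ^ ((k - 2) * w) : ℝ) ^ s * (2 * n) ^ s *
        ((2 * n + 1) ^ s * κ)) *
      (M * 2 : ℝ) ^ s < ((2 * N : ℝ) ^ w) ^ s := by
  set a : ℝ := 2 * H ^ k * N ^ w / 2 ^ ((k - 2) * w) with ha
  have ha0 : 0 ≤ a := by positivity
  have hN' : (0 : ℝ) < N := by exact_mod_cast hN
  have hn' : (1 : ℝ) ≤ n := by exact_mod_cast hn
  have h1 : (s + s + 2 : ℝ) * 3 ^ (s + s + 1) ≤ 108 ^ s := by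
    have h2 : (6 * (s + 1) : ℝ) ≤ 12 ^ s := by exact_mod_cast six_le s hs
    calc (s + s + 2 : ℝ) * 3 ^ (s + s + 1) = (6 * (s + 1)) * 9 ^ s := by
          rw [pow_succ, pow_add, show (9 : ℝ) = 3 * 3 by norm_num, mul_pow]
          ring
      _ ≤ 12 ^ s * 9 ^ s := by gcongr
      _ = 108 ^ s := by rw [← mul_pow]; norm_num
  have h2 : ((κ : ℕ) : ℝ) ≤ ((2 * n + 1) ^ 2) ^ s := by
    have h3 : κ ≤ ((2 * n + 1) ^ 2) ^ s := by
      refine hκ.trans ?_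
      rw [← pow_mul]
      exact Nat.pow_le_pow_left (by omega) _
    exact_mod_cast h3
  have h3 : (s + s + 2 : ℝ) * 3 ^ (s + s + 1) *
      (a ^ s * (2 * n) ^ s * ((2 * n + 1) ^ s * κ)) * (M * 2 : ℝ) ^ s
      ≤ (108 * a * (2 * n + 1) ^ 4 * (M * 2)) ^ s := by
    calc (s + s + 2 : ℝ) * 3 ^ (s + s + 1) *
        (a ^ s * (2 * n) ^ s * ((2 * n + 1) ^ s * κ)) * (M * 2 : ℝ) ^ s
        ≤ 108 ^ s * (a ^ s * (2 * n + 1) ^ s * ((2 * n + 1) ^ s * ((2 * n + 1) ^ 2) ^ s)) *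
          (M * 2 : ℝ) ^ s := by
          gcongr
          linarith
      _ = _ := by
          rw [← mul_pow, ← mul_pow, ← mul_pow, ← mul_pow, ← mul_pow]
          congr 1
          ring
  refine lt_of_le_of_lt h3 ?_
  refine pow_lt_pow_left₀ ?_ (by positivity) (by omega)
  have h4 : (864 * (H : ℝ) ^ k * N * (2 * n + 1) ^ 4) < 2 ^ ((k - 2) * w) := by exact_mod_cast h
  have h5 : (0 : ℝ) < 2 ^ ((k - 2) * w) := by positivity
  calc 108 * a * (2 * n + 1) ^ 4 * (M * 2)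
      = (864 * (H : ℝ) ^ k * N * (2 * n + 1) ^ 4) / 2 ^ ((k - 2) * w) * (2 * N) ^ w := by
        rw [ha, hM, mul_pow]
        push_cast
        ring
    _ < 1 * (2 * N : ℝ) ^ w := by
        refine mul_lt_mul_of_pos_right ?_ (by positivity)
        rw [div_lt_one h5]
        exact h4
    _ = _ := one_mul _

/-- squares of logarithms are small -/
lemma log_sq (C : ℕ) : ∃ N₁, ∀ N ≥ N₁, C * (Nat.log 2 N + 1) ^ 2 ≤ N := by
  refine ⟨2 ^ (512 * C + 1), fun N hN => ?_⟩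
  have hN0 : N ≠ 0 := by
    have : 0 < 2 ^ (512 * C + 1) := by positivity
    omega
  set l := Nat.log 2 N with hl
  have h1 : 512 * C + 1 ≤ l := (Nat.le_log_iff_pow_le (by norm_num) hN0).2 hN
  have h2 : 2 ^ l ≤ N := Nat.pow_log_le_self 2 hN0
  set r := (l + 1) / 4 with hr
  have h3 : l + 1 ≤ 4 * (r + 1) := by omega
  have h4 : (l + 1) ^ 4 ≤ 512 * 2 ^ l := by
    calc (l + 1) ^ 4 ≤ (4 * (r + 1)) ^ 4 := Nat.pow_le_pow_left h3 _
      _ = 256 * (r + 1) ^ 4 := by rw [mul_pow]; norm_num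
      _ ≤ 256 * (2 ^ r) ^ 4 := by
          gcongr
          exact Nat.lt_two_pow_self
      _ = 256 * 2 ^ (r * 4) := by rw [← pow_mul]
      _ ≤ 256 * 2 ^ (l + 1) := by
          gcongr
          · norm_num
          · omega
      _ = 512 * 2 ^ l := by rw [pow_succ]; ring
  have h5 : 512 * (C * (l + 1) ^ 2) ≤ 512 * N := by
    calc 512 * (C * (l + 1) ^ 2) = (512 * C) * (l + 1) ^ 2 := by ring
      _ ≤ (l + 1) ^ 2 * (l + 1) ^ 2 := by
          gcongr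
          nlinarith
      _ = (l + 1) ^ 4 := by ring
      _ ≤ 512 * 2 ^ l := h4
      _ ≤ 512 * N := by gcongr
  omega

/-- the inequalities between the parameters -/
structure Par (P N k w f s : ℕ) : Prop where
  four : 4 ≤ N
  hs : 1 ≤ s
  hf : 8 ≤ f
  hw2 : 2 * ((k - 2) * w * 2 ^ k) ≤ N
  hbud : 3 * s * ((Nat.log 2 N + 1) * (P + 1)) + 2 ≤ f
  hfN : 4 * (k * 2 ^ k) * f ≤ N
  h22 : 22 * N ^ P ≤ N ^ (P + 1)
  hsN : 6 * s ≤ N
  hbig1 : 864 * (4 * N ^ (P + 1)) ^ k * N * (2 * (N + N ^ P) + 1) ^ 4 < 2 ^ ((k - 2) * w)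
  hbig2 : 16 * N ^ 2 * (16 * N ^ (P + 1)) ^ k ≤ 2 ^ ((k - 2) * w)
  hlog : Nat.log 2 N * ((Nat.log 2 N + 1) * (P + 1)) ≤ N

theorem params (P : ℕ) (hP : 1 ≤ P) : ∃ N₁, ∀ N ≥ N₁, Par P N (6 * P + 8)
    ((P + 2) * Nat.log 2 N) (N / (4 * ((6 * P + 8) * 2 ^ (6 * P + 8))))
    (N / (4 * ((6 * P + 8) * 2 ^ (6 * P + 8))) / (4 * ((Nat.log 2 N + 1) * (P + 1)))) := by
  set k := 6 * P + 8 with hk
  set Kk := k * 2 ^ k with hKk
  have hk6 : 6 ≤ k := by omega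
  have hKk6 : 6 ≤ Kk := by
    rw [hKk]
    exact hk6.trans (Nat.le_mul_of_pos_right _ (by positivity))
  set C1 := 864 * 4 ^ k * 625 * 2 ^ ((P + 2) * (k - 2)) with hC1
  set C2 := 16 * 16 ^ k * 2 ^ ((P + 2) * (k - 2)) with hC2
  obtain ⟨N1, hN1⟩ := log_sq (16 * Kk * (P + 1) + 2 * ((k - 2) * (P + 2) * 2 ^ k) + (P + 1))
  refine ⟨max N1 (max (C1 + C2) 22), fun N hN => ?_⟩
  have hNN1 : N1 ≤ N := (le_max_left _ _).trans hN
  have hNC : C1 + C2 ≤ N := (le_max_left _ _).trans ((le_max_right _ _).trans hN)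
  have hN22 : 22 ≤ N := (le_max_right _ _).trans ((le_max_right _ _).trans hN)
  have hlog := hN1 N hNN1
  set l := Nat.log 2 N with hl
  have hl2 : l + 1 ≤ (l + 1) ^ 2 := by nlinarith
  have hA : 16 * Kk * (P + 1) * (l + 1) ≤ N := by
    refine le_trans ?_ hlog
    calc 16 * Kk * (P + 1) * (l + 1) ≤ 16 * Kk * (P + 1) * (l + 1) ^ 2 :=
          Nat.mul_le_mul_left _ hl2
      _ ≤ _ := Nat.mul_le_mul_right _ (by omega)
  have hB : 2 * ((k - 2) * (P + 2) * 2 ^ k) * (l + 1) ≤ N := by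
    refine le_trans ?_ hlog
    calc 2 * ((k - 2) * (P + 2) * 2 ^ k) * (l + 1)
        ≤ 2 * ((k - 2) * (P + 2) * 2 ^ k) * (l + 1) ^ 2 := Nat.mul_le_mul_left _ hl2
      _ ≤ _ := Nat.mul_le_mul_right _ (by omega)
  have hC : (P + 1) * (l + 1) ^ 2 ≤ N := by
    refine le_trans ?_ hlog
    exact Nat.mul_le_mul_right _ (by omega)
  set f := N / (4 * Kk) with hf
  have hf1 : 4 * ((l + 1) * (P + 1)) ≤ f := by
    rw [hf, Nat.le_div_iff_mul_le (by positivity)]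
    calc 4 * ((l + 1) * (P + 1)) * (4 * Kk) = 16 * Kk * (P + 1) * (l + 1) := by ring
      _ ≤ N := hA
  set s := f / (4 * ((l + 1) * (P + 1))) with hs
  have hs1 : 1 ≤ s := by
    rw [hs, Nat.le_div_iff_mul_le (by positivity)]
    omega
  have hs2 : s * (4 * ((l + 1) * (P + 1))) ≤ f := Nat.div_mul_le_self _ _
  have hfN : 4 * Kk * f ≤ N := by
    rw [mul_comm]
    exact Nat.div_mul_le_self _ _
  have hl1 : 1 ≤ l := by
    rw [hl]
    exact (Nat.le_log_iff_pow_le (by norm_num) (by omega)).2 (by omega)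
  have hf8 : 8 ≤ f := by
    have : 2 ≤ (l + 1) * (P + 1) := by nlinarith
    omega
  have hNlt : N < 2 ^ (l + 1) := Nat.lt_pow_succ_log_self (by norm_num) N
  have hpow : N ^ ((P + 2) * (k - 2)) ≤ 2 ^ ((k - 2) * ((P + 2) * l)) * 2 ^ ((P + 2) * (k - 2)) := by
    calc N ^ ((P + 2) * (k - 2)) ≤ (2 ^ (l + 1)) ^ ((P + 2) * (k - 2)) :=
          Nat.pow_le_pow_left hNlt.le _
      _ = _ := by
          rw [← pow_mul, ← pow_add]
          congr 1
          ring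
  have hexp : (P + 2) * (k - 2) = (P + 1) * k + 1 + 4 * P + 3 := by
    rw [hk, show 6 * P + 8 - 2 = 6 * P + 6 by omega]
    ring
  have hNP : 1 ≤ N ^ P := Nat.one_le_pow _ _ (by omega)
  have hNleP : N ≤ N ^ P := Nat.le_self_pow (by omega) N
  refine ⟨by omega, hs1, hf8, ?_, ?_, hfN, ?_, ?_, ?_, ?_, ?_⟩
  · calc 2 * ((k - 2) * ((P + 2) * l) * 2 ^ k) = 2 * ((k - 2) * (P + 2) * 2 ^ k) * l := by ring
      _ ≤ 2 * ((k - 2) * (P + 2) * 2 ^ k) * (l + 1) := Nat.mul_le_mul_left _ (by omega)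
      _ ≤ N := hB
  · have : 3 * (s * (4 * ((l + 1) * (P + 1)))) ≤ 3 * f := Nat.mul_le_mul_left _ hs2
    have h4 : 4 * (3 * s * ((l + 1) * (P + 1))) = 3 * (s * (4 * ((l + 1) * (P + 1)))) := by ring
    show 3 * s * ((l + 1) * (P + 1)) + 2 ≤ f
    omega
  · rw [pow_succ, mul_comm]
    exact Nat.mul_le_mul_left _ hN22
  · have h1 : s ≤ f := Nat.div_le_self _ _
    have h2 : 6 * f ≤ 4 * Kk * f := Nat.mul_le_mul_right _ (by omega)
    omega
  · have h5 : 2 * (N + N ^ P) + 1 ≤ 5 * N ^ P := by omega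
    have h6 : (864 * (4 * N ^ (P + 1)) ^ k * N * (2 * (N + N ^ P) + 1) ^ 4)
        * 2 ^ ((P + 2) * (k - 2)) < 2 ^ ((k - 2) * ((P + 2) * l)) * 2 ^ ((P + 2) * (k - 2)) := by
      calc (864 * (4 * N ^ (P + 1)) ^ k * N * (2 * (N + N ^ P) + 1) ^ 4)
            * 2 ^ ((P + 2) * (k - 2))
          ≤ (864 * (4 * N ^ (P + 1)) ^ k * N * (5 * N ^ P) ^ 4) * 2 ^ ((P + 2) * (k - 2)) := by
            gcongr
        _ = C1 * N ^ ((P + 1) * k + 1 + 4 * P) := by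
            rw [hC1, mul_pow, mul_pow, ← pow_mul, ← pow_mul]
            ring
        _ < N ^ 3 * N ^ ((P + 1) * k + 1 + 4 * P) := by
            apply Nat.mul_lt_mul_of_pos_right _ (by positivity)
            have : N ^ 1 < N ^ 3 := Nat.pow_lt_pow_right (by omega) (by norm_num)
            rw [pow_one] at this
            omega
        _ = N ^ ((P + 2) * (k - 2)) := by rw [hexp, ← pow_add]; congr 1; ring
        _ ≤ _ := hpow
    exact Nat.lt_of_mul_lt_mul_right h6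
  · have h6 : (16 * N ^ 2 * (16 * N ^ (P + 1)) ^ k) * 2 ^ ((P + 2) * (k - 2))
        ≤ 2 ^ ((k - 2) * ((P + 2) * l)) * 2 ^ ((P + 2) * (k - 2)) := by
      calc (16 * N ^ 2 * (16 * N ^ (P + 1)) ^ k) * 2 ^ ((P + 2) * (k - 2))
          = C2 * N ^ ((P + 1) * k + 2) := by
            rw [hC2, mul_pow, ← pow_mul]
            ring
        _ ≤ N ^ 1 * N ^ ((P + 1) * k + 2) := by
            apply Nat.mul_le_mul_right
            rw [pow_one]
            omega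
        _ = N ^ ((P + 1) * k + 3) := by rw [← pow_add]; congr 1; ring
        _ ≤ N ^ ((P + 2) * (k - 2)) := Nat.pow_le_pow_right (by omega) (by omega)
        _ ≤ _ := hpow
    exact Nat.le_of_mul_le_mul_right h6 (by positivity)
  · calc l * ((l + 1) * (P + 1)) ≤ (l + 1) * ((l + 1) * (P + 1)) :=
          Nat.mul_le_mul_right _ (by omega)
      _ = (P + 1) * (l + 1) ^ 2 := by ring
      _ ≤ N := hC

end Pool.Agent.MP_e81270_lc.X3
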