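import Pool.Agent.Lib.MP_e81270_lc_X3.Core

/-!
# Most formulas are unsatisfiable and have no degenerate clause
-/

set_option autoImplicit false
set_option linter.unusedSectionVars false

namespace Pool.Agent.MP_e81270_lc.X3

open Finset

variable {N w M k : ℕ}

open Classical in
/-- the unsatisfiable formulas without degenerate clauses -/
noncomputable def goodF (N w M H' : ℕ) : Finset (Fin M → Cl N w) :=
  univ.filter fun F => (∀ x, ∃ i, x ∈ cube (F i)) ∧ ∀ i, H' * (cube (F i)).card < 2 ^ N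

lemma card_Cl (N w : ℕ) : Fintype.card (Cl N w) = (2 * N) ^ w := by
  rw [Fintype.card_fun, Fintype.card_prod, Fintype.card_bool, Fintype.card_fin,
    Fintype.card_fin, mul_comm N 2]

lemma card_through (x : Pt N) : (univ.filter fun d : Cl N w => x ∈ cube d).card = N ^ w := by
  have h := card_tuple (w := w) one_pos (fun _ : Fin 1 => x)
  have h1 : (univ.filter fun d : Cl N w => ∀ _i : Fin 1, x ∈ cube d)
      = univ.filter fun d : Cl N w => x ∈ cube d := by
    refine filter_congr fun d _ => ?_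
    exact ⟨fun h => h 0, fun h _ => h⟩
  rw [h1] at h
  rw [h]
  congr 1
  unfold agr
  simp

open Classical in
lemma sat_card (x : Pt N) :
    (univ.filter fun F : Fin M → Cl N w => ∀ i, x ∉ cube (F i)).card
      = ((2 * N) ^ w - N ^ w) ^ M := by
  have h1 : (univ.filter fun F : Fin M → Cl N w => ∀ i, x ∉ cube (F i))
      = Fintype.piFinset fun _ : Fin M => univ.filter fun d : Cl N w => ¬ x ∈ cube d := by
    ext F
    simp only [mem_filter, mem_univ, true_and, Fintype.mem_piFinset]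
  rw [h1, Fintype.card_piFinset, prod_const, card_univ, Fintype.card_fin, filter_not,
    card_sdiff_of_subset (filter_subset _ _), card_univ, card_Cl, card_through]

open Classical in
lemma deg_card (S : Finset (Cl N w)) :
    (univ.filter fun F : Fin M → Cl N w => ∃ i, F i ∈ S).card * (2 * N) ^ w
      ≤ M * S.card * ((2 * N) ^ w) ^ M := by
  have h1 : (univ.filter fun F : Fin M → Cl N w => ∃ i, F i ∈ S)
      ⊆ (univ : Finset (Fin M)).biUnion fun i => S.biUnion fun d =>
        fixOn (univ : Finset (Fin M → Cl N w)) {i} (fun _ => d) := by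
    intro F hF
    obtain ⟨i, hi⟩ := (mem_filter.1 hF).2
    rw [mem_biUnion]
    refine ⟨i, mem_univ _, ?_⟩
    rw [mem_biUnion]
    refine ⟨F i, hi, ?_⟩
    rw [mem_fixOn]
    refine ⟨mem_univ _, fun j hj => ?_⟩
    rw [mem_singleton.1 hj]
  have h2 : ∀ (i : Fin M) (d : Cl N w),
      (fixOn (univ : Finset (Fin M → Cl N w)) {i} (fun _ => d)).card * (2 * N) ^ w
        ≤ ((2 * N) ^ w) ^ M := by
    intro i d
    have h3 := card_fixOn_le (univ : Finset (Fin M → Cl N w)) {i} (fun _ => d)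
    rwa [card_singleton, pow_one, card_Cl, Fintype.card_fin] at h3
  calc _ ≤ (∑ i : Fin M, ∑ d ∈ S,
        (fixOn (univ : Finset (Fin M → Cl N w)) {i} (fun _ => d)).card) * (2 * N) ^ w := by
        gcongr
        refine (card_le_card h1).trans (card_biUnion_le.trans ?_)
        exact sum_le_sum fun i _ => card_biUnion_le
    _ = ∑ i : Fin M, ∑ d ∈ S,
        (fixOn (univ : Finset (Fin M → Cl N w)) {i} (fun _ => d)).card * (2 * N) ^ w := by
        rw [sum_mul]
        exact sum_congr rfl fun i _ => sum_mul _ _ _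
    _ ≤ ∑ _i : Fin M, ∑ _d ∈ S, ((2 * N) ^ w) ^ M :=
        sum_le_sum fun i _ => sum_le_sum fun d _ => h2 i d
    _ = M * S.card * ((2 * N) ^ w) ^ M := by
        rw [sum_const, sum_const, smul_eq_mul, smul_eq_mul, card_univ, Fintype.card_fin]
        ring

lemma four_mul_le (hN : 4 ≤ N) : 4 * N ≤ 2 ^ N := by
  induction N, hN using Nat.le_induction with
  | base => norm_num
  | succ n hn ih =>
    rw [pow_succ]
    omega

lemma sat_bound (hN : 4 ≤ N) (hM : M = 2 * N * 2 ^ w) :
    4 * N * (2 ^ N * ((2 * N) ^ w - N ^ w) ^ M) ≤ ((2 * N) ^ w) ^ M := by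
  have hle : N ^ w ≤ (2 * N) ^ w := Nat.pow_le_pow_left (by omega) w
  have hNpos : (0 : ℝ) < N := by exact_mod_cast (by omega : 0 < N)
  have hT : (0 : ℝ) < (2 * (N : ℝ)) ^ w := by positivity
  have h2w : (0 : ℝ) < 2 ^ w := by positivity
  have h1 : (((2 * N) ^ w - N ^ w : ℕ) : ℝ) ≤ (2 * (N : ℝ)) ^ w * Real.exp (-(1 / 2 ^ w)) := by
    have h2 : 1 - 1 / (2 : ℝ) ^ w ≤ Real.exp (-(1 / 2 ^ w)) := by
      have := Real.add_one_le_exp (-(1 / (2 : ℝ) ^ w))
      linarith
    rw [Nat.cast_sub hle]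
    push_cast
    calc (2 * (N : ℝ)) ^ w - (N : ℝ) ^ w = (2 * (N : ℝ)) ^ w * (1 - 1 / 2 ^ w) := by
          rw [mul_pow]
          field_simp
      _ ≤ _ := mul_le_mul_of_nonneg_left h2 hT.le
  have h3 : (((2 * N) ^ w - N ^ w : ℕ) : ℝ) ^ M ≤ ((2 * (N : ℝ)) ^ w) ^ M * Real.exp (-(2 * N)) := by
    calc (((2 * N) ^ w - N ^ w : ℕ) : ℝ) ^ M
        ≤ ((2 * (N : ℝ)) ^ w * Real.exp (-(1 / 2 ^ w))) ^ M := by gcongr
      _ = ((2 * (N : ℝ)) ^ w) ^ M * Real.exp (M * (-(1 / 2 ^ w))) := by
          rw [mul_pow, ← Real.exp_nat_mul]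
      _ = _ := by
          congr 2
          rw [hM]
          push_cast
          field_simp
  have he : Real.exp (-(2 * (N : ℝ))) ≤ 1 / 4 ^ N := by
    have h4 : (4 : ℝ) ≤ Real.exp 2 := by
      have h5 : (2 : ℝ) ≤ Real.exp 1 := by
        have := Real.add_one_le_exp (1 : ℝ)
        linarith
      have h6 : Real.exp 2 = Real.exp 1 * Real.exp 1 := by
        rw [← Real.exp_add]
        norm_num
      rw [h6]
      nlinarith
    rw [Real.exp_neg, one_div]
    apply inv_anti₀ (by positivity)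
    calc (4 : ℝ) ^ N ≤ (Real.exp 2) ^ N := by gcongr
      _ = Real.exp (2 * N) := by rw [← Real.exp_nat_mul, mul_comm]
  have h7 : (4 * N : ℝ) * (2 ^ N * (((2 * N) ^ w - N ^ w : ℕ) : ℝ) ^ M)
      ≤ ((2 * (N : ℝ)) ^ w) ^ M := by
    have h8 : (4 * N : ℝ) * (2 ^ N * (1 / 4 ^ N)) ≤ 1 := by
      have h9 : (4 : ℝ) ^ N = 2 ^ N * 2 ^ N := by
        rw [← mul_pow]
        norm_num
      have h10 : (4 * N : ℝ) ≤ 2 ^ N := by exact_mod_cast four_mul_le hN
      rw [h9]
      have h11 : (0 : ℝ) < 2 ^ N := by positivity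
      have : (4 * N : ℝ) * (2 ^ N * (1 / (2 ^ N * 2 ^ N))) = 4 * N / 2 ^ N := by field_simp
      rw [this, div_le_one h11]
      exact h10
    calc (4 * N : ℝ) * (2 ^ N * (((2 * N) ^ w - N ^ w : ℕ) : ℝ) ^ M)
        ≤ (4 * N) * (2 ^ N * (((2 * (N : ℝ)) ^ w) ^ M * (1 / 4 ^ N))) := by
          gcongr
          exact h3.trans (mul_le_mul_of_nonneg_left he (by positivity))
      _ = ((4 * N) * (2 ^ N * (1 / 4 ^ N))) * ((2 * (N : ℝ)) ^ w) ^ M := by ring
      _ ≤ 1 * ((2 * (N : ℝ)) ^ w) ^ M := by gcongr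
      _ = _ := one_mul _
  exact_mod_cast h7

theorem goodF_card (hk : 2 ≤ k) (H' : ℕ) (hN : 4 ≤ N) (hM : M = 2 * N * 2 ^ w)
    (hw : (k - 2) * w * 2 ^ k ≤ N)
    (hH' : 16 * N ^ 2 * H' ^ k ≤ 2 ^ ((k - 2) * w)) :
    2 * N * (univ \ goodF N w M H').card ≤ ((2 * N) ^ w) ^ M := by
  classical
  set T := (2 * N) ^ w with hT
  have hTpos : 0 < T := by positivity
  set S1 : Finset (Fin M → Cl N w) := univ.filter fun F => ∃ x, ∀ i, x ∉ cube (F i) with hS1
  set hv : Finset (Cl N w) := hvy H' univ with hhv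
  set S2 : Finset (Fin M → Cl N w) := univ.filter fun F => ∃ i, F i ∈ hv with hS2
  have hcov : (univ : Finset (Fin M → Cl N w)) \ goodF N w M H' ⊆ S1 ∪ S2 := by
    intro F hF
    rw [mem_sdiff] at hF
    rw [mem_union]
    by_cases h1 : ∃ x, ∀ i, x ∉ cube (F i)
    · left
      exact mem_filter.2 ⟨mem_univ _, h1⟩
    · by_cases h2 : ∃ i, F i ∈ hv
      · right
        exact mem_filter.2 ⟨mem_univ _, h2⟩
      · exfalso
        push Not at h1 h2
        apply hF.2
        unfold goodF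
        rw [mem_filter]
        refine ⟨mem_univ _, h1, fun i => ?_⟩
        by_contra h3
        push Not at h3
        apply h2 i
        rw [hhv]
        unfold hvy
        rw [mem_filter, univ_inter, card_univ, Fintype.card_fun, Fintype.card_bool,
          Fintype.card_fin]
        exact ⟨mem_univ _, h3⟩
  have hs1 : 4 * N * S1.card ≤ T ^ M := by
    have h1 : S1 ⊆ (univ : Finset (Pt N)).biUnion fun x =>
        univ.filter fun F : Fin M → Cl N w => ∀ i, x ∉ cube (F i) := by
      intro F hF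
      obtain ⟨x, hx⟩ := (mem_filter.1 hF).2
      exact mem_biUnion.2 ⟨x, mem_univ _, mem_filter.2 ⟨mem_univ _, hx⟩⟩
    have h2 : S1.card ≤ 2 ^ N * ((2 * N) ^ w - N ^ w) ^ M := by
      refine (card_le_card h1).trans (card_biUnion_le.trans ?_)
      rw [sum_congr rfl fun x _ => sat_card (w := w) (M := M) x, sum_const, smul_eq_mul, card_univ,
        Fintype.card_fun, Fintype.card_bool, Fintype.card_fin]
    exact (Nat.mul_le_mul_left _ h2).trans (sat_bound hN hM)
  have hs2 : 4 * N * S2.card ≤ T ^ M := by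
    have h1 := deg_card (M := M) hv
    have h2 := hvy_card (w := w) hk H' (univ : Finset (Pt N)) (by
      rw [card_univ, Fintype.card_fun, Fintype.card_bool, Fintype.card_fin, ← pow_mul,
        mul_comm N (k * 2 ^ k)]
      exact Nat.mul_le_mul_left _ (Nat.pow_le_pow_right (by norm_num) hw))
    have h3 : 4 * N * (M * hv.card) ≤ T := by
      have h4 : 2 ^ ((k - 2) * w) * (4 * N * (M * hv.card)) ≤ 2 ^ ((k - 2) * w) * T := by
        calc 2 ^ ((k - 2) * w) * (4 * N * (M * hv.card))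
            = 4 * N * M * (2 ^ ((k - 2) * w) * hv.card) := by ring
          _ ≤ 4 * N * M * (2 * H' ^ k * N ^ w) := Nat.mul_le_mul_left _ h2
          _ = (16 * N ^ 2 * H' ^ k) * (2 ^ w * N ^ w) := by
              rw [hM]
              ring
          _ ≤ 2 ^ ((k - 2) * w) * (2 ^ w * N ^ w) := Nat.mul_le_mul_right _ hH'
          _ = 2 ^ ((k - 2) * w) * T := by rw [hT, mul_pow]
      exact Nat.le_of_mul_le_mul_left h4 (by positivity)
    have h5 : (4 * N * S2.card) * T ≤ T ^ M * T := by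
      calc (4 * N * S2.card) * T = 4 * N * (S2.card * T) := by ring
        _ ≤ 4 * N * (M * hv.card * T ^ M) := Nat.mul_le_mul_left _ h1
        _ = (4 * N * (M * hv.card)) * T ^ M := by ring
        _ ≤ T * T ^ M := Nat.mul_le_mul_right _ h3
        _ = T ^ M * T := mul_comm _ _
    exact Nat.le_of_mul_le_mul_right h5 hTpos
  have h1 : (univ \ goodF N w M H').card ≤ S1.card + S2.card :=
    (card_le_card hcov).trans (card_union_le _ _)
  have h2 : 2 * N * (univ \ goodF N w M H').card ≤ 2 * N * (S1.card + S2.card) :=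
    Nat.mul_le_mul_left _ h1
  have h3 : 2 * (2 * N * (S1.card + S2.card)) = 4 * N * S1.card + 4 * N * S2.card := by ring
  omega

end Pool.Agent.MP_e81270_lc.X3
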