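import Pool.Agent.Lib.MP_e81270_lc_X3.Convert
import Pool.Agent.Lib.MP_e81270_lc_X3.Random
import Pool.Agent.Lib.MP_e81270_lc_X3.Params

/-!
# The theorem for fixed parameters
-/

set_option autoImplicit false

namespace Pool.Agent.MP_e81270_lc.X3

open Finset

/-- there is a refutation with the given bounds which has too few lines -/
def Short (P s : ℕ) {N : ℕ} (F : CNF (Fin N)) : Prop :=
  ∃ (m q L : ℕ) (R : Refutation F m q L) (G : Finset (Fin N ⊕ Fin m)), m ≤ N ^ P ∧ q ≤ N ^ P ∧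
    (∀ j, (R.defs.args j).card ≤ Nat.log 2 N) ∧ (∀ t, ∀ l ∈ (R.line t).wide, l.1 ∈ G) ∧
    (∀ t, (R.line t).narrow.size ≤ s) ∧
    (2 * G.card ≤ s ∨ L * (2 * G.card - s) ^ s < (2 * G.card) ^ s)

variable {P N k w f s M : ℕ}

open Classical in
/-- the formulas which have a refutation over the atoms given by the code -/
noncomputable def BE (P w M s N : ℕ) (E : Code N (N ^ P) (Nat.log 2 N)) :
    Finset (Fin M → Cl N w) :=
  (goodF N w M (16 * N ^ (P + 1))).filter fun F =>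
    ∃ (G : Finset (Fin N ⊕ Fin (N ^ P))) (L : ℕ),
      (2 * G.card ≤ s ∨ L * (2 * G.card - s) ^ s < (2 * G.card) ^ s) ∧
      HasRf (yy E) F G
        (fun l : {l // l ∈ enumLe (Fin N ⊕ Fin (N ^ P)) s} => Nar (yy E) s l.1) (N ^ P) L

lemma card_codes (hP : 1 ≤ P) (h : Par P N k w f s) :
    2 * N * Fintype.card (Code N (N ^ P) (Nat.log 2 N)) ≤ 2 ^ (3 * N ^ (P + 1)) := by
  have hN := h.four
  set l := Nat.log 2 N with hl
  have hNP : 1 ≤ N ^ P := Nat.one_le_pow _ _ (by omega)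
  have hN1 : 1 ≤ N ^ (P + 1) := Nat.one_le_pow _ _ (by omega)
  have hNlt : N < 2 ^ (l + 1) := Nat.lt_pow_succ_log_self (by norm_num) N
  have h2l : 2 ^ l ≤ N := Nat.pow_log_le_self 2 (by omega)
  have h1 : N + N ^ P + 1 ≤ 2 ^ ((l + 1) * (P + 1)) := by
    have h22 := h.h22
    have hN' : N ≤ N ^ (P + 1) := Nat.le_self_pow (by omega) N
    have h3 : 2 * (N + N ^ P + 1) ≤ 2 * (2 ^ (l + 1)) ^ (P + 1) := by
      have h4 : N ^ (P + 1) < (2 ^ (l + 1)) ^ (P + 1) := Nat.pow_lt_pow_left hNlt (by omega)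
      have hNleP : N ≤ N ^ P := Nat.le_self_pow (by omega) N
      omega
    rw [pow_mul]
    omega
  have h2 : Fintype.card (Code N (N ^ P) l) ≤ 2 ^ (2 * N * N ^ P) := by
    rw [card_Code, pow_mul]
    apply Nat.pow_le_pow_left
    calc (N + N ^ P + 1) ^ l * 2 ^ 2 ^ l ≤ (2 ^ ((l + 1) * (P + 1))) ^ l * 2 ^ N := by
          gcongr
          norm_num
      _ = 2 ^ (l * ((l + 1) * (P + 1)) + N) := by
          rw [← pow_mul, ← pow_add]
          congr 2
          ring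
      _ ≤ 2 ^ (2 * N) := by
          apply Nat.pow_le_pow_right (by norm_num)
          have := h.hlog
          rw [← hl] at this
          omega
  have h3 : 2 * N ≤ 2 ^ N := by
    have := four_mul_le hN
    omega
  calc 2 * N * Fintype.card (Code N (N ^ P) l) ≤ 2 ^ N * 2 ^ (2 * N * N ^ P) :=
        Nat.mul_le_mul h3 h2
    _ = 2 ^ (N + 2 * N * N ^ P) := by rw [← pow_add]
    _ ≤ 2 ^ (3 * N ^ (P + 1)) := by
        apply Nat.pow_le_pow_right (by norm_num)
        have h4 : N ≤ N ^ (P + 1) := Nat.le_self_pow (by omega) N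
        have h5 : 2 * N * N ^ P = 2 * N ^ (P + 1) := by rw [pow_succ]; ring
        omega

theorem core_E (hP : 1 ≤ P) (hk : 2 ≤ k) (h : Par P N k w f s) (hM : M = 2 * N * 2 ^ w)
    (E : Code N (N ^ P) (Nat.log 2 N)) (Z : ℕ) (hZc : Z ≤ 2 ^ (3 * N ^ (P + 1)))
    (hB : Fintype.card (Cl N w) ^ M ≤ Z * (BE P w M s N E).card) : False := by
  classical
  have hN := h.four
  obtain ⟨l, hl⟩ : ∃ l, l = Nat.log 2 N := ⟨_, rfl⟩
  have hNP : 1 ≤ N ^ P := Nat.one_le_pow _ _ (by omega)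
  have hNleP : N ≤ N ^ P := Nat.le_self_pow (by omega) N
  have hN1 : N ^ (P + 1) = N ^ P * N := pow_succ N P
  have hNlt : N < 2 ^ (l + 1) := by
    rw [hl]
    exact Nat.lt_pow_succ_log_self (by norm_num) N
  have h22 := h.h22
  have hpow : N ^ (P + 1) ≤ 2 ^ ((l + 1) * (P + 1)) := by
    rw [pow_mul]
    exact Nat.pow_le_pow_left hNlt.le _
  have hf2 : 2 * f ≤ N := by
    have h1 := h.hfN
    have h2 : 0 < k * 2 ^ k := by positivity
    nlinarith
  have hα : Fintype.card (Fin N ⊕ Fin (N ^ P)) = N + N ^ P := by simp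
  have hbud := h.hbud
  rw [← hl] at hbud
  have hf8 := h.hf
  have hs := h.hs
  have hsN := h.hsN
  refine core (α := Fin N ⊕ Fin (N ^ P)) (κ := {l // l ∈ enumLe (Fin N ⊕ Fin (N ^ P)) s})
    hk (by omega) (yy E) Sum.inl (fun x v => rfl) (fun l => Nar (yy E) s l.1) s s
    (4 * N ^ (P + 1)) (16 * N ^ (P + 1)) (N ^ P) (2 ^ (N - f)) (2 ^ (N - 2 * f))
    Z (fun a => Nar_cert (yy E) s a.1) ?_ hs ?_ hNP ?_ ?_
    ?_ ?_ ?_ (by omega) ?_ (BE P w M s N E) hB ?_ ?_ ?_ ?_ ?_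
  · rw [Fintype.card_pos_iff]
    exact ⟨⟨[], mem_enumLe (Nat.zero_le s)⟩⟩
  · rw [hα]
    omega
  · -- the threshold
    rw [← pow_mul, ← pow_add, ← pow_add]
    apply Nat.pow_le_pow_right (by norm_num)
    have h1 := h.hw2
    have h2 := h.hfN
    have h3 : (N - 2 * f) * (k * 2 ^ k) + 2 * f * (k * 2 ^ k) = k * 2 ^ k * N := by
      rw [← add_mul, Nat.sub_add_cancel hf2, mul_comm]
    have h4 : 2 * (2 * f * (k * 2 ^ k)) = 4 * (k * 2 ^ k) * f := by ring
    omega
  · rw [← pow_succ']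
    exact Nat.pow_lt_pow_right (by norm_num) (by omega)
  · rw [hα]
    have h1 : 2 * (N + N ^ P) + 1 ≤ 2 ^ ((l + 1) * (P + 1)) := by omega
    have h2 : (2 * (N + N ^ P) + 1) ^ (3 * s) * 4 ≤ 2 ^ f := by
      calc (2 * (N + N ^ P) + 1) ^ (3 * s) * 4 ≤ (2 ^ ((l + 1) * (P + 1))) ^ (3 * s) * 2 ^ 2 := by
            gcongr
            norm_num
        _ = 2 ^ (3 * s * ((l + 1) * (P + 1)) + 2) := by
            rw [← pow_mul, ← pow_add]
            congr 2
            ring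
        _ ≤ 2 ^ f := Nat.pow_le_pow_right (by norm_num) hbud
    calc 8 * ((2 * (N + N ^ P) + 1) ^ (3 * s) * 2 ^ (N - 2 * f))
        = 2 * ((2 * (N + N ^ P) + 1) ^ (3 * s) * 4) * 2 ^ (N - 2 * f) := by ring
      _ ≤ 2 * 2 ^ f * 2 ^ (N - 2 * f) := by gcongr
      _ = 2 * 2 ^ (N - f) := by
          rw [mul_assoc, ← pow_add]
          congr 2
          omega
      _ ≤ _ := Nat.mul_le_mul_right _ (by norm_num)
  · rw [hα, hN1]
    calc 11 * (N + N ^ P) * s ≤ 11 * (2 * N ^ P) * s := by gcongr; omega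
      _ = N ^ P * (22 * s) := by ring
      _ ≤ N ^ P * (4 * N) := Nat.mul_le_mul_left _ (by omega)
      _ = _ := by ring
  · rw [hN1]
    calc 3 * (N ^ P * s) = N ^ P * (3 * s) := by ring
      _ ≤ N ^ P * (4 * N) := Nat.mul_le_mul_left _ (by omega)
      _ = _ := by ring
  · rw [hα]
    have h1 : 11 * (N + N ^ P) ≤ 2 ^ ((l + 1) * (P + 1)) := by omega
    have h2 : 4 * (11 * (N + N ^ P)) ^ s ≤ 2 ^ f := by
      calc 4 * (11 * (N + N ^ P)) ^ s ≤ 2 ^ 2 * (2 ^ ((l + 1) * (P + 1))) ^ s := by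
            gcongr
            norm_num
        _ = 2 ^ (s * ((l + 1) * (P + 1)) + 2) := by
            rw [← pow_mul, ← pow_add]
            congr 1
            ring
        _ ≤ 2 ^ f := by
            apply Nat.pow_le_pow_right (by norm_num)
            have h3 : 3 * s * ((l + 1) * (P + 1)) = 3 * (s * ((l + 1) * (P + 1))) := by ring
            omega
    calc 4 * (2 ^ (N - f) * (11 * (N + N ^ P)) ^ s)
        = 2 ^ (N - f) * (4 * (11 * (N + N ^ P)) ^ s) := by ring
      _ ≤ 2 ^ (N - f) * 2 ^ f := Nat.mul_le_mul_left _ h2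
      _ = 2 ^ N := by
          rw [← pow_add]
          congr 1
          omega
      _ ≤ 3 * 2 ^ N := Nat.le_mul_of_pos_left _ (by norm_num)
  · rw [card_Cl]
    positivity
  · intro j hj
    have h1 := hj.trans hZc
    have h2 := (Nat.pow_le_pow_iff_right (by norm_num : 1 < 2)).1 h1
    omega
  · intro F hF i
    unfold BE goodF at hF
    rw [mem_filter, mem_filter] at hF
    exact hF.1.2.2 i
  · intro F hF
    unfold BE at hF
    exact (mem_filter.1 hF).2
  · have h1 := hnum_of (N := N) (w := w) (M := M) (k := k) (n := N + N ^ P) (s := s)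
      (κ := Fintype.card {l // l ∈ enumLe (Fin N ⊕ Fin (N ^ P)) s}) (H := 4 * N ^ (P + 1))
      (by omega) (by omega) hs hM (by
        rw [Fintype.card_coe]
        have := card_enumLe (W := Fin N ⊕ Fin (N ^ P)) s
        rwa [hα] at this) h.hbig1
    rw [hα]
    exact h1

end Pool.Agent.MP_e81270_lc.X3
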