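import Pool.Agent.Lib.MP_e81270_lc_X3.Finite

/-!
# The main theorem
-/

set_option autoImplicit false

namespace Pool.Agent.MP_e81270_lc.X3

open Finset

variable {P N k w f s M : ℕ}

lemma flip_injective : Function.Injective (flip (N := N) (w := w) (M := M)) := by
  intro F F' h
  have h1 := congrArg flip h
  have h2 : flip (flip F) = F := flip_flip F
  have h3 : flip (flip F') = F' := flip_flip F'
  rw [← h2, ← h3]
  exact h1

open Classical in
theorem finite_main (hP : 1 ≤ P) (hk : 2 ≤ k) (h : Par P N k w f s) (hM : M = 2 * N * 2 ^ w) :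
    N * (univ.filter fun F : Fin M → Fin w → Fin N × Bool =>
      ¬ (Unsat (toCNF F) ∧ ¬ Short P s (toCNF F))).card ≤
      Fintype.card (Fin M → Fin w → Fin N × Bool) := by
  set Bad := (univ.filter fun F : Fin M → Fin w → Fin N × Bool =>
      ¬ (Unsat (toCNF F) ∧ ¬ Short P s (toCNF F))) with hBad
  obtain ⟨tot, htot⟩ : ∃ tot, tot = Fintype.card (Fin M → Fin w → Fin N × Bool) := ⟨_, rfl⟩
  have htot2 : Fintype.card (Cl N w) ^ M = tot := by
    rw [htot]
    show Fintype.card (Fin w → Fin N × Bool) ^ M = _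
    rw [Fintype.card_fun (α := Fin M), Fintype.card_fin]
  have htot3 : ((2 * N) ^ w) ^ M = tot := by
    rw [← htot2, card_Cl]
  set D := (univ : Finset (Fin M → Cl N w)) \ goodF N w M (16 * N ^ (P + 1)) with hD
  have hN := h.four
  have hDc : 2 * N * D.card ≤ tot := by
    rw [← htot3]
    refine goodF_card hk (16 * N ^ (P + 1)) hN hM ?_ h.hbig2
    have := h.hw2
    omega
  obtain ⟨nE, hnE⟩ : ∃ nE, nE = Fintype.card (Code N (N ^ P) (Nat.log 2 N)) := ⟨_, rfl⟩
  have hnE0 : 0 < nE := by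
    rw [hnE, card_Code]
    positivity
  have hE : ∀ E : Code N (N ^ P) (Nat.log 2 N), 2 * N * nE * (BE P w M s N E).card ≤ tot := by
    intro E
    by_contra hcon
    push Not at hcon
    refine core_E hP hk h hM E (2 * N * nE) ?_ (by rw [htot2]; exact hcon.le)
    rw [hnE]
    exact card_codes hP h
  have hcov : Bad.image flip ⊆ D ∪ (univ : Finset (Code N (N ^ P) (Nat.log 2 N))).biUnion
      fun E => BE P w M s N E := by
    intro F' hF'
    obtain ⟨F, hF, rfl⟩ := mem_image.1 hF'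
    rw [mem_union]
    by_cases hg : flip F ∈ goodF N w M (16 * N ^ (P + 1))
    swap
    · left
      rw [hD, mem_sdiff]
      exact ⟨mem_univ _, hg⟩
    · right
      rw [hBad, mem_filter] at hF
      have hun : Unsat (toCNF F) := by
        rw [unsat_iff]
        unfold goodF at hg
        exact (mem_filter.1 hg).2.1
      have hsh : Short P s (toCNF F) := by
        by_contra h1
        exact hF.2 ⟨hun, h1⟩
      obtain ⟨m, q, L, R, G, hm, hq, hargs, hG, hs, hL⟩ := hsh
      obtain ⟨E, hE⟩ := hasRf_of F hm R hargs G hG hs hq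
      rw [mem_biUnion]
      refine ⟨E, mem_univ _, ?_⟩
      unfold BE
      rw [mem_filter]
      refine ⟨hg, G.image (emb hm), L, ?_, hE⟩
      rw [card_image_of_injective _ (emb_inj hm)]
      exact hL
  have hBc : Bad.card ≤ D.card + ∑ E : Code N (N ^ P) (Nat.log 2 N), (BE P w M s N E).card := by
    rw [← card_image_of_injective Bad flip_injective]
    exact (card_le_card hcov).trans ((card_union_le _ _).trans
      (Nat.add_le_add_left card_biUnion_le _))
  have hsum : 2 * N * ∑ E : Code N (N ^ P) (Nat.log 2 N), (BE P w M s N E).card ≤ tot := by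
    have h1 : nE * (2 * N * ∑ E : Code N (N ^ P) (Nat.log 2 N), (BE P w M s N E).card)
        ≤ nE * tot := by
      calc nE * (2 * N * ∑ E : Code N (N ^ P) (Nat.log 2 N), (BE P w M s N E).card)
          = ∑ E : Code N (N ^ P) (Nat.log 2 N), 2 * N * nE * (BE P w M s N E).card := by
            rw [mul_sum, mul_sum]
            exact sum_congr rfl fun E _ => by ring
        _ ≤ ∑ _E : Code N (N ^ P) (Nat.log 2 N), tot := sum_le_sum fun E _ => hE E
        _ = nE * tot := by rw [sum_const, card_univ, smul_eq_mul, hnE]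
    exact Nat.le_of_mul_le_mul_left h1 hnE0
  rw [← htot]
  have h2 : 2 * N * Bad.card ≤ 2 * N * D.card
      + 2 * N * ∑ E : Code N (N ^ P) (Nat.log 2 N), (BE P w M s N E).card := by
    rw [← mul_add]
    exact Nat.mul_le_mul_left _ hBc
  have h3 : 2 * N * Bad.card = 2 * (N * Bad.card) := by ring
  omega

lemma few_lines {g s L : ℕ} (hgs : s < 2 * g) (h : (g : ℝ) * Real.log L < (s : ℝ) ^ 2 / 2) :
    L * (2 * g - s) ^ s < (2 * g) ^ s := by
  have hg : 0 < g := by omega
  rcases Nat.eq_zero_or_pos L with hL | hL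
  · subst hL
    rw [zero_mul]
    positivity
  have hg' : (0 : ℝ) < 2 * g := by positivity
  have hL' : (0 : ℝ) < L := by exact_mod_cast hL
  have h1 : (L : ℝ) < Real.exp (s * (s / (2 * g))) := by
    rw [← Real.log_lt_iff_lt_exp hL']
    have h2 : (s : ℝ) * (s / (2 * g)) = ((s : ℝ) ^ 2 / 2) / g := by
      field_simp
    rw [h2, lt_div_iff₀ (by exact_mod_cast hg), mul_comm]
    exact h
  have h2 : ((2 * g - s : ℕ) : ℝ) ≤ 2 * g * Real.exp (-(s / (2 * g))) := by
    have h3 := Real.add_one_le_exp (-((s : ℝ) / (2 * g)))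
    rw [Nat.cast_sub hgs.le]
    push_cast
    calc (2 * (g : ℝ) - s) = 2 * g * (-(s / (2 * g)) + 1) := by field_simp; ring
      _ ≤ _ := mul_le_mul_of_nonneg_left h3 hg'.le
  have h3 : (0 : ℝ) < ((2 * g - s : ℕ) : ℝ) := by
    exact_mod_cast (by omega : 0 < 2 * g - s)
  have h4 : (L : ℝ) * ((2 * g - s : ℕ) : ℝ) ^ s < (2 * (g : ℝ)) ^ s := by
    calc (L : ℝ) * ((2 * g - s : ℕ) : ℝ) ^ s
        < Real.exp (s * (s / (2 * g))) * ((2 * g - s : ℕ) : ℝ) ^ s :=
          mul_lt_mul_of_pos_right h1 (by positivity)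
      _ ≤ Real.exp (s * (s / (2 * g))) * (2 * g * Real.exp (-(s / (2 * g)))) ^ s := by gcongr
      _ = (2 * (g : ℝ)) ^ s := by
          rw [mul_pow, ← Real.exp_nat_mul, mul_comm ((2 * (g : ℝ)) ^ s), ← mul_assoc,
            ← Real.exp_add]
          have : (s : ℝ) * (s / (2 * g)) + s * (-(s / (2 * g))) = 0 := by ring
          rw [this, Real.exp_zero, one_mul]
  exact_mod_cast h4

lemma log_le (N : ℕ) (hN : 2 ≤ N) : ((Nat.log 2 N : ℝ) + 1) ≤ 3 * Real.log N := by
  have h1 : 2 ^ Nat.log 2 N ≤ N := Nat.pow_log_le_self 2 (by omega)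
  have h2 : (Nat.log 2 N : ℝ) * Real.log 2 ≤ Real.log N := by
    rw [← Real.log_pow]
    apply Real.log_le_log (by positivity)
    exact_mod_cast h1
  have h3 : 1 ≤ Nat.log 2 N := (Nat.le_log_iff_pow_le (by norm_num) (by omega)).2 (by omega)
  have h4 : (1 : ℝ) ≤ Nat.log 2 N := by exact_mod_cast h3
  have h5 := Real.log_two_gt_d9
  nlinarith

open Classical in
theorem main : ∀ P : ℕ, 1 ≤ P → ∃ c : ℝ, 0 < c ∧ ∃ N₀ : ℕ, ∀ N ≥ N₀, ∀ w M : ℕ,
    w = (P + 2) * Nat.log 2 N → M = 2 * N * 2 ^ w → M ≤ N ^ (P + 4) ∧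
    ∃ T : Finset (Fin M → Fin w → Fin N × Bool),
      N * (univ \ T).card ≤ Fintype.card (Fin M → Fin w → Fin N × Bool) ∧
      ∀ F ∈ T, Unsat (toCNF F) ∧
        ∀ (m q L : ℕ) (R : Refutation (toCNF F) m q L) (G : Finset (Fin N ⊕ Fin m)),
          m ≤ N ^ P → q ≤ N ^ P → (∀ j, (R.defs.args j).card ≤ Nat.log 2 N) →
          (∀ t, ∀ l ∈ (R.line t).wide, l.1 ∈ G) →
          (∀ t, ((R.line t).narrow.size : ℝ) ≤ c * N / Real.log N) →
          c * (N / Real.log N) ^ 2 ≤ G.card * Real.log L := by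
  intro P hP
  set Kk : ℕ := (6 * P + 8) * 2 ^ (6 * P + 8) with hKk
  have hKk1 : 1 ≤ Kk := by
    rw [hKk]
    exact Nat.one_le_iff_ne_zero.2 (by positivity)
  set c1 : ℝ := 1 / (96 * Kk * (P + 1)) with hc1
  have hKkR : (1 : ℝ) ≤ Kk := by exact_mod_cast hKk1
  have hc1pos : 0 < c1 := by positivity
  have hc1le : c1 ≤ 1 := by
    rw [hc1, div_le_one (by positivity)]
    have : (0 : ℝ) ≤ P := Nat.cast_nonneg P
    nlinarith
  obtain ⟨N1, hN1⟩ := params P hP
  refine ⟨c1 ^ 2 / 2, by positivity, max N1 4, fun N hN w M hw hM => ?_⟩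
  have hpar := hN1 N ((le_max_left _ _).trans hN)
  have hN4 : 4 ≤ N := (le_max_right _ _).trans hN
  set f := N / (4 * Kk) with hf
  obtain ⟨s, hs⟩ : ∃ s, s = f / (4 * ((Nat.log 2 N + 1) * (P + 1))) := ⟨_, rfl⟩
  have hpar2 : Par P N (6 * P + 8) w f s := by
    rw [hw, hs]
    exact hpar
  have hs1 := hpar2.hs
  have hlogpos : 0 < Real.log N := Real.log_pos (by exact_mod_cast (by omega : 1 < N))
  -- lower bound for `s`
  have hsR : c1 * (N / Real.log N) ≤ s := by
    have h1 : s = N / (4 * Kk * (4 * ((Nat.log 2 N + 1) * (P + 1)))) := by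
      rw [hs, hf, Nat.div_div_eq_div_mul]
    obtain ⟨q, hq⟩ : ∃ q, q = 4 * Kk * (4 * ((Nat.log 2 N + 1) * (P + 1))) := ⟨_, rfl⟩
    have hqpos : 0 < q := by
      rw [hq]
      positivity
    have h2 : N < (s + 1) * q := by
      rw [← hq] at h1
      have h3 := Nat.div_add_mod N q
      have h4 := Nat.mod_lt N hqpos
      rw [← h1] at h3
      nlinarith
    have h3 : N < 2 * s * q := by nlinarith
    have h4 : (N : ℝ) < 2 * s * (16 * Kk * (P + 1) * (Nat.log 2 N + 1)) := by
      have h5 : (N : ℝ) < 2 * s * q := by exact_mod_cast h3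
      calc (N : ℝ) < 2 * s * q := h5
        _ = _ := by
          rw [hq]
          push_cast
          ring
    have h5 := log_le N (by omega)
    have h6 : (N : ℝ) ≤ s * (96 * Kk * (P + 1)) * Real.log N := by
      calc (N : ℝ) ≤ 2 * s * (16 * Kk * (P + 1) * (Nat.log 2 N + 1)) := h4.le
        _ ≤ 2 * s * (16 * Kk * (P + 1) * (3 * Real.log N)) := by gcongr
        _ = _ := by ring
    rw [hc1, one_div, inv_mul_eq_div, div_div, div_le_iff₀ (by positivity)]
    calc (N : ℝ) ≤ s * (96 * Kk * (P + 1)) * Real.log N := h6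
      _ = _ := by ring
  have hMle : M ≤ N ^ (P + 4) := by
    rw [hM, hw]
    have h1 : 2 ^ Nat.log 2 N ≤ N := Nat.pow_log_le_self 2 (by omega)
    calc 2 * N * 2 ^ ((P + 2) * Nat.log 2 N) = 2 * N * (2 ^ Nat.log 2 N) ^ (P + 2) := by
          rw [← pow_mul, mul_comm (P + 2)]
      _ ≤ N * N * N ^ (P + 2) := by
          gcongr
          omega
      _ = N ^ (P + 4) := by ring
  refine ⟨hMle, univ.filter fun F => Unsat (toCNF F) ∧ ¬ Short P s (toCNF F), ?_, ?_⟩
  · have h1 := finite_main hP (by omega) hpar2 hM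
    have h2 : (univ \ univ.filter fun F : Fin M → Fin w → Fin N × Bool =>
        Unsat (toCNF F) ∧ ¬ Short P s (toCNF F)) = univ.filter fun F =>
        ¬ (Unsat (toCNF F) ∧ ¬ Short P s (toCNF F)) := (filter_not _ _).symm
    rw [h2]
    exact h1
  · intro F hF
    obtain ⟨hun, hsh⟩ := (mem_filter.1 hF).2
    refine ⟨hun, fun m q L R G hm hq hargs hG hsize => ?_⟩
    by_contra hcon
    push Not at hcon
    apply hsh
    refine ⟨m, q, L, R, G, hm, hq, hargs, hG, fun t => ?_, ?_⟩
    · have h1 := hsize t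
      have h2 : ((R.line t).narrow.size : ℝ) ≤ s := by
        refine h1.trans (le_trans ?_ hsR)
        rw [mul_div_assoc]
        refine mul_le_mul_of_nonneg_right ?_ (by positivity)
        nlinarith
      exact_mod_cast h2
    · rcases Nat.lt_or_ge s (2 * G.card) with hgs | hgs
      · right
        apply few_lines hgs
        refine lt_of_lt_of_le hcon ?_
        have h1 : (c1 * (N / Real.log N)) ^ 2 ≤ (s : ℝ) ^ 2 :=
          pow_le_pow_left₀ (by positivity) hsR 2
        calc c1 ^ 2 / 2 * (N / Real.log N) ^ 2 = (c1 * (N / Real.log N)) ^ 2 / 2 := by ring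
          _ ≤ _ := by linarith
      · left
        exact hgs

end Pool.Agent.MP_e81270_lc.X3
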