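import Pool.Agent.Lib.MP_e81270_lc_X3.Transcript

/-!
# Phase 1: the wide lines are killed
-/

set_option autoImplicit false
set_option linter.unusedSectionVars false

namespace Pool.Agent.MP_e81270_lc.X3

open Finset

section

variable {N w : ℕ} {α : Type} [Fintype α] [DecidableEq α]

/-- the points with the given values -/
def Vset (y : Pt N → α → Bool) (A : Finset (α × Bool)) : Finset (Pt N) :=
  univ.filter fun x => ∀ p ∈ A, y x p.1 = p.2

lemma mem_Vset {y : Pt N → α → Bool} {A : Finset (α × Bool)} {x : Pt N} :
    x ∈ Vset y A ↔ ∀ p ∈ A, y x p.1 = p.2 := by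
  simp [Vset]

/-- some literal fails on all of `C` -/
def dead (y : Pt N → α → Bool) (C : Finset (Pt N)) (A : Finset (α × Bool)) : Prop :=
  ∃ p ∈ A, ∀ x ∈ C, y x p.1 ≠ p.2

open Classical in
/-- the literals which do not hold on all of `C` -/
noncomputable def nc (y : Pt N → α → Bool) (C : Finset (Pt N)) (A : Finset (α × Bool)) :
    Finset (α × Bool) := A.filter fun p => ∃ x ∈ C, y x p.1 ≠ p.2

/-- a wide line -/
def fat (y : Pt N → α → Bool) (W : ℕ) (C : Finset (Pt N)) (A : Finset (α × Bool)) : Prop :=
  ¬ dead y C A ∧ W < (nc y C A).card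

lemma mem_nc {y : Pt N → α → Bool} {C : Finset (Pt N)} {A : Finset (α × Bool)} {p : α × Bool} :
    p ∈ nc y C A ↔ p ∈ A ∧ ∃ x ∈ C, y x p.1 ≠ p.2 := by
  classical
  unfold nc
  rw [mem_filter]

lemma Vset_nc (y : Pt N → α → Bool) (C : Finset (Pt N)) (A : Finset (α × Bool)) (x : Pt N)
    (hx : x ∈ C) : x ∈ Vset y A ↔ x ∈ Vset y (nc y C A) := by
  rw [mem_Vset, mem_Vset]
  constructor
  · intro h p hp
    exact h p (mem_nc.1 hp).1
  · intro h p hp
    by_cases h1 : ∃ x ∈ C, y x p.1 ≠ p.2
    · exact h p (mem_nc.2 ⟨hp, h1⟩)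
    · push Not at h1
      exact h1 x hx

lemma fat_mono (y : Pt N → α → Bool) (W : ℕ) {C C' : Finset (Pt N)} (h : C' ⊆ C)
    {A : Finset (α × Bool)} (hf : fat y W C' A) : fat y W C A := by
  obtain ⟨h1, h2⟩ := hf
  refine ⟨?_, lt_of_lt_of_le h2 (card_le_card ?_)⟩
  · rintro ⟨p, hp, hp2⟩
    exact h1 ⟨p, hp, fun x hx => hp2 x (h hx)⟩
  · intro p hp
    obtain ⟨h3, x, hx, hx2⟩ := mem_nc.1 hp
    exact mem_nc.2 ⟨h3, x, h hx, hx2⟩

open Classical in
/-- the wide lines -/
noncomputable def fats {L : ℕ} (y : Pt N → α → Bool) (W : ℕ) (line : Fin L → Finset (α × Bool))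
    (C : Finset (Pt N)) : Finset (Fin L) := univ.filter fun t => fat y W C (line t)

open Classical in
lemma popular {L : ℕ} (y : Pt N → α → Bool) (W : ℕ) (hW : 1 ≤ W)
    (line : Fin L → Finset (α × Bool)) (G : Finset α) (hG : ∀ t, ∀ p ∈ line t, p.1 ∈ G)
    (C : Finset (Pt N)) (hne : (fats y W line C).Nonempty) :
    ∃ p : α × Bool, (∃ x ∈ C, y x p.1 ≠ p.2) ∧ (fats y W line C).card * W ≤
      2 * G.card * ((fats y W line C).filter fun t => p ∈ nc y C (line t)).card := by
  set f := fats y W line C with hf
  have hsum : f.card * (W + 1)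
      ≤ ∑ p ∈ G ×ˢ (univ : Finset Bool), (f.filter fun t => p ∈ nc y C (line t)).card := by
    calc f.card * (W + 1) = ∑ _t ∈ f, (W + 1) := by rw [sum_const, smul_eq_mul]
      _ ≤ ∑ t ∈ f, (nc y C (line t)).card := by
          refine sum_le_sum fun t ht => ?_
          exact (mem_filter.1 ht).2.2
      _ = ∑ t ∈ f, ∑ p ∈ G ×ˢ (univ : Finset Bool), if p ∈ nc y C (line t) then 1 else 0 := by
          refine sum_congr rfl fun t _ => ?_
          rw [← sum_filter, sum_const, smul_eq_mul, mul_one, filter_mem_eq_inter,
            inter_eq_right.2]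
          intro p hp
          exact mem_product.2 ⟨hG t p (mem_nc.1 hp).1, mem_univ _⟩
      _ = ∑ p ∈ G ×ˢ (univ : Finset Bool), ∑ t ∈ f, if p ∈ nc y C (line t) then 1 else 0 :=
          sum_comm
      _ = _ := by
          refine sum_congr rfl fun p _ => ?_
          rw [card_filter]
  have hf0 : 0 < f.card := card_pos.2 hne
  have hex : ∃ p : α × Bool, f.card * W ≤
      2 * G.card * (f.filter fun t => p ∈ nc y C (line t)).card := by
    by_contra hcon
    push Not at hcon
    have h1 : 2 * G.card * ∑ p ∈ G ×ˢ (univ : Finset Bool),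
        (f.filter fun t => p ∈ nc y C (line t)).card
        ≤ ∑ _p ∈ G ×ˢ (univ : Finset Bool), f.card * W := by
      rw [mul_sum]
      exact sum_le_sum fun p _ => (hcon p).le
    rw [sum_const, card_product, card_univ, Fintype.card_bool, smul_eq_mul] at h1
    have h2 : 0 < G.card := by
      rcases Nat.eq_zero_or_pos G.card with h0 | h0
      · exfalso
        rw [card_eq_zero.1 h0, empty_product, sum_empty] at hsum
        have : 0 < f.card * (W + 1) := by positivity
        omega
      · exact h0
    have h4 : 2 * G.card * (f.card * (W + 1)) ≤ 2 * G.card * (f.card * W) := by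
      calc _ ≤ 2 * G.card * ∑ p ∈ G ×ˢ (univ : Finset Bool),
            (f.filter fun t => p ∈ nc y C (line t)).card := Nat.mul_le_mul_left _ hsum
        _ ≤ _ := h1
        _ = _ := by ring
    have h5 := Nat.le_of_mul_le_mul_left h4 (by positivity)
    have h6 := Nat.le_of_mul_le_mul_left h5 hf0
    omega
  obtain ⟨p, hp⟩ := hex
  refine ⟨p, ?_, hp⟩
  have h1 : 0 < f.card * W := by positivity
  have h2 : 0 < (f.filter fun t => p ∈ nc y C (line t)).card :=
    Nat.pos_of_mul_pos_left (lt_of_lt_of_le h1 hp)
  obtain ⟨t, ht⟩ := card_pos.1 h2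
  exact (mem_nc.1 (mem_filter.1 ht).2).2

end

section

variable {N w : ℕ} {α ι κ I : Type} [Fintype α] [DecidableEq α] [Fintype ι] [DecidableEq ι]
  [Fintype κ] [DecidableEq κ]

/-- removing heavy clauses -/
lemma batch (P : Proc N α ι κ) (F : I → Cl N w) (S : Finset (Pt N)) (b : ℕ)
    (hsmall : ∀ i, (S ∩ cube (F i)).card * (2 * b) ≤ S.card)
    (hbig : 2 * P.θ < S.card) :
    ∃ e : List (Ev N w α κ), valid P S e ∧ nk e = 0 ∧ ns e = 0 ∧ (rems e).length ≤ b ∧
      (∀ d ∈ rems e, ∃ i, F i = d) ∧ S.card ≤ 2 * (run P S e).card ∧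
      ((rems e).length = b ∨ ∀ i, P.H * (run P S e ∩ cube (F i)).card < (run P S e).card) := by
  rcases Nat.eq_zero_or_pos b with hb0 | hb0
  · subst hb0
    refine ⟨[], trivial, rfl, rfl, le_refl _, ?_, ?_, Or.inl rfl⟩
    · intro d hd
      simp [rems] at hd
    · show S.card ≤ 2 * S.card
      omega
  have key : ∀ m, m ≤ b → ∀ S' : Finset (Pt N), S' ⊆ S →
      2 * b * S.card ≤ 2 * b * S'.card + (b - m) * S.card →
      ∃ e : List (Ev N w α κ), valid P S' e ∧ nk e = 0 ∧ ns e = 0 ∧ (rems e).length ≤ m ∧
      (∀ d ∈ rems e, ∃ i, F i = d) ∧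
      2 * b * S.card ≤ 2 * b * (run P S' e).card + b * S.card ∧
      ((rems e).length = m ∨ ∀ i, P.H * (run P S' e ∩ cube (F i)).card < (run P S' e).card) := by
    intro m
    induction m with
    | zero =>
      intro _ S' _ hcard
      refine ⟨[], trivial, rfl, rfl, le_refl _, ?_, ?_, Or.inl rfl⟩
      · intro d hd
        simp [rems] at hd
      · rw [Nat.sub_zero] at hcard
        exact hcard
    | succ m ih =>
      intro hm S' hS' hcard
      have hcard2 : 2 * b * S.card ≤ 2 * b * S'.card + b * S.card :=
        hcard.trans (Nat.add_le_add_left (Nat.mul_le_mul_right _ (Nat.sub_le _ _)) _)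
      by_cases hh : ∀ i, P.H * (S' ∩ cube (F i)).card < S'.card
      · refine ⟨[], trivial, rfl, rfl, Nat.zero_le _, ?_, hcard2, Or.inr hh⟩
        intro d hd
        simp [rems] at hd
      · push Not at hh
        obtain ⟨i, hi⟩ := hh
        have h1 : (S' ∩ cube (F i)).card * (2 * b) ≤ S.card :=
          (Nat.mul_le_mul_right _ (card_le_card (inter_subset_inter_right hS'))).trans (hsmall i)
        have h2 : (S' \ cube (F i)).card + (S' ∩ cube (F i)).card = S'.card :=
          card_sdiff_add_card_inter S' (cube (F i))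
        have h3 : S.card ≤ 2 * S'.card := by
          have : b * S.card ≤ b * (2 * S'.card) := by nlinarith
          exact Nat.le_of_mul_le_mul_left this hb0
        have h4 : P.θ < S'.card := by omega
        obtain ⟨e, he1, he2, he3, he4, he5, he6, he7⟩ := ih (by omega) (S' \ cube (F i))
          (sdiff_subset.trans hS') (by
            have h5 : b - m = (b - (m + 1)) + 1 := by omega
            rw [h5, add_mul, one_mul]
            have h6 : 2 * b * S'.card = 2 * b * (S' \ cube (F i)).card
                + (S' ∩ cube (F i)).card * (2 * b) := by rw [← h2]; ring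
            omega)
        refine ⟨.inr (.inr (F i)) :: e, ⟨⟨h4, hi⟩, he1⟩, he2, he3, ?_, ?_, he6, ?_⟩
        · simp only [rems, List.length_cons]
          omega
        · intro d hd
          simp only [rems, List.mem_cons] at hd
          rcases hd with rfl | hd
          · exact ⟨i, rfl⟩
          · exact he5 d hd
        · rcases he7 with h | h
          · left
            simp only [rems, List.length_cons, h]
          · right
            exact h
  obtain ⟨e, he1, he2, he3, he4, he5, he6, he7⟩ := key b le_rfl S (Subset.refl _) (by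
    rw [Nat.sub_self, zero_mul, add_zero])
  refine ⟨e, he1, he2, he3, he4, he5, ?_, he7⟩
  have : b * S.card ≤ b * (2 * (run P S e).card) := by nlinarith
  exact Nat.le_of_mul_le_mul_left this hb0

open Classical in
theorem phase1 {L : ℕ} (P : Proc N α ι κ) (F : I → Cl N w) (line : Fin L → Finset (α × Bool))
    (G : Finset α) (hG : ∀ t, ∀ p ∈ line t, p.1 ∈ G)
    (W Θ s : ℕ) (hW : 1 ≤ W) (hα : 0 < Fintype.card α) (hΘ : 2 * P.θ < Θ)
    (hH : 11 * Fintype.card α * s ≤ P.H) (t : ℕ) :
    ∀ (S : Finset (Pt N)) (b : ℕ), b ≤ s → (∀ i, P.H * (S ∩ cube (F i)).card < S.card) →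
      Θ * (11 * Fintype.card α) ^ t ≤ S.card →
      (fats P.y W line (cl P.y S)).card * (2 * G.card - W) ^ t < (2 * G.card) ^ t →
      ∃ e : List (Ev N w α κ), valid P S e ∧ nk e ≤ t ∧ ns e = 0 ∧ (rems e).length ≤ b ∧
        (∀ d ∈ rems e, ∃ i, F i = d) ∧ ((rems e).length = b ∨
          ((∀ i, P.H * (run P S e ∩ cube (F i)).card < (run P S e).card) ∧
            fats P.y W line (cl P.y (run P S e)) = ∅ ∧ Θ ≤ (run P S e).card)) := by
  induction t with
  | zero =>
    intro S b hb hheavy hsize hfat
    refine ⟨[], trivial, le_rfl, rfl, Nat.zero_le _, ?_, Or.inr ⟨hheavy, ?_, ?_⟩⟩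
    · intro d hd
      simp [rems] at hd
    · rw [pow_zero, pow_zero, mul_one, Nat.lt_one_iff, card_eq_zero] at hfat
      exact hfat
    · show Θ ≤ S.card
      simpa using hsize
  | succ t ih =>
    intro S b hb hheavy hsize hfat
    have h11 : 1 ≤ (11 * Fintype.card α) ^ (t + 1) := Nat.one_le_pow _ _ (by omega)
    have hsize0 : Θ ≤ S.card := le_trans (Nat.le_mul_of_pos_right _ h11) hsize
    by_cases hne : (fats P.y W line (cl P.y S)).Nonempty
    swap
    · rw [not_nonempty_iff_eq_empty] at hne
      refine ⟨[], trivial, Nat.zero_le _, rfl, Nat.zero_le _, ?_, Or.inr ⟨hheavy, hne, hsize0⟩⟩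
      intro d hd
      simp [rems] at hd
    obtain ⟨p, hp1, hp2⟩ := popular P.y W hW line G hG (cl P.y S) hne
    set C := cl P.y S with hC
    set f := fats P.y W line C with hf
    set v : Ev N w α κ := .inl (p.1, !p.2) with hv
    set S1 := step P S v with hS1
    have hS1eq : S1 = C.filter fun x => P.y x p.1 = !p.2 := rfl
    have hc1 : C.card ≤ 4 * Fintype.card α * S1.card := by
      rw [hS1eq]
      apply cl_closed
      obtain ⟨x, hx, hx2⟩ := hp1
      exact ⟨x, hx, Bool.eq_not.2 hx2⟩
    have hc2 : 3 * S.card ≤ 4 * C.card := cl_card P.y S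
    have hc3 : 3 * S.card ≤ 16 * Fintype.card α * S1.card := by nlinarith
    have hS1S : S1 ⊆ S := step_sub P S v
    have hsmall : ∀ i, (S1 ∩ cube (F i)).card * (2 * b) ≤ S1.card := by
      intro i
      have h1 : P.H * (S1 ∩ cube (F i)).card ≤ S.card :=
        (Nat.mul_le_mul_left _ (card_le_card (inter_subset_inter_right hS1S))).trans
          (hheavy i).le
      have h2 : 11 * Fintype.card α * b ≤ P.H := (Nat.mul_le_mul_left _ hb).trans hH
      have h3 : 16 * Fintype.card α * ((S1 ∩ cube (F i)).card * (2 * b))
          ≤ 16 * Fintype.card α * S1.card := by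
        calc 16 * Fintype.card α * ((S1 ∩ cube (F i)).card * (2 * b))
            = 32 * ((Fintype.card α * b) * (S1 ∩ cube (F i)).card) := by ring
          _ ≤ 33 * ((Fintype.card α * b) * (S1 ∩ cube (F i)).card) :=
              Nat.mul_le_mul_right _ (by norm_num)
          _ = 3 * ((11 * Fintype.card α * b) * (S1 ∩ cube (F i)).card) := by ring
          _ ≤ 3 * (P.H * (S1 ∩ cube (F i)).card) :=
              Nat.mul_le_mul_left _ (Nat.mul_le_mul_right _ h2)
          _ ≤ 3 * S.card := Nat.mul_le_mul_left _ h1
          _ ≤ _ := hc3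
      exact Nat.le_of_mul_le_mul_left h3 (by omega)
    have hΘ1 : 2 * Θ ≤ 3 * S1.card := by
      have h1 : Θ * (11 * Fintype.card α) ≤ S.card := by
        refine le_trans ?_ hsize
        rw [pow_succ]
        have : 1 ≤ (11 * Fintype.card α) ^ t := Nat.one_le_pow _ _ (by omega)
        calc Θ * (11 * Fintype.card α) = Θ * (1 * (11 * Fintype.card α)) := by ring
          _ ≤ Θ * ((11 * Fintype.card α) ^ t * (11 * Fintype.card α)) := by gcongr
      have h2 : Fintype.card α * (33 * Θ) ≤ Fintype.card α * (16 * S1.card) := by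
        calc Fintype.card α * (33 * Θ) = 3 * (Θ * (11 * Fintype.card α)) := by ring
          _ ≤ 3 * S.card := Nat.mul_le_mul_left _ h1
          _ ≤ _ := hc3
          _ = _ := by ring
      have h3 := Nat.le_of_mul_le_mul_left h2 hα
      omega
    have hΘ2 : Θ ≤ S1.card := by
      have h1 : Θ * (11 * Fintype.card α) ≤ S.card := by
        refine le_trans ?_ hsize
        rw [pow_succ]
        have : 1 ≤ (11 * Fintype.card α) ^ t := Nat.one_le_pow _ _ (by omega)
        calc Θ * (11 * Fintype.card α) = Θ * (1 * (11 * Fintype.card α)) := by ring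
          _ ≤ Θ * ((11 * Fintype.card α) ^ t * (11 * Fintype.card α)) := by gcongr
      have h2 : Fintype.card α * (33 * Θ) ≤ Fintype.card α * (16 * S1.card) := by
        calc Fintype.card α * (33 * Θ) = 3 * (Θ * (11 * Fintype.card α)) := by ring
          _ ≤ 3 * S.card := Nat.mul_le_mul_left _ h1
          _ ≤ _ := hc3
          _ = _ := by ring
      have h3 := Nat.le_of_mul_le_mul_left h2 hα
      omega
    have hbig : 2 * P.θ < S1.card := lt_of_lt_of_le hΘ hΘ2
    obtain ⟨e1, he1, he2, he3, he4, he5, he6, he7⟩ := batch P F S1 b hsmall hbig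
    set S2 := run P S1 e1 with hS2
    rcases he7 with hlen | hh
    · refine ⟨v :: e1, ⟨trivial, he1⟩, ?_, ?_, ?_, ?_, Or.inl ?_⟩
      · show nk e1 + 1 ≤ t + 1
        omega
      · exact he3
      · exact he4
      · exact he5
      · exact hlen
    · have hsize2 : Θ * (11 * Fintype.card α) ^ t ≤ S2.card := by
        have h1 : Fintype.card α * (33 * (Θ * (11 * Fintype.card α) ^ t))
            ≤ Fintype.card α * (32 * S2.card) := by
          calc Fintype.card α * (33 * (Θ * (11 * Fintype.card α) ^ t))
              = 3 * (Θ * (11 * Fintype.card α) ^ (t + 1)) := by rw [pow_succ]; ring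
            _ ≤ 3 * S.card := Nat.mul_le_mul_left _ hsize
            _ ≤ 16 * Fintype.card α * S1.card := hc3
            _ ≤ 16 * Fintype.card α * (2 * S2.card) := Nat.mul_le_mul_left _ he6
            _ = _ := by ring
        have h2 := Nat.le_of_mul_le_mul_left h1 hα
        omega
      have hS2C : cl P.y S2 ⊆ S1 := (cl_sub _ _).trans (run_sub P S1 e1)
      have hfat2 : (fats P.y W line (cl P.y S2)).card
          + (f.filter fun t => p ∈ nc P.y C (line t)).card ≤ f.card := by
        rw [← card_union_of_disjoint]
        · apply card_le_card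
          intro t ht
          rcases mem_union.1 ht with ht | ht
          · rw [hf]
            unfold fats at ht ⊢
            rw [mem_filter] at ht ⊢
            refine ⟨mem_univ _, fat_mono P.y W ?_ ht.2⟩
            exact hS2C.trans (filter_subset _ _)
          · exact (mem_filter.1 ht).1
        · rw [disjoint_left]
          intro t ht ht2
          unfold fats at ht
          rw [mem_filter] at ht
          apply ht.2.1
          have h1 := (mem_nc.1 (mem_filter.1 ht2).2).1
          refine ⟨p, h1, fun x hx => ?_⟩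
          have h2 := hS2C hx
          rw [hS1eq, mem_filter] at h2
          rw [h2.2]
          simp
      have hWn : W ≤ 2 * G.card := by
        obtain ⟨t0, ht0⟩ := hne
        rw [hf] at ht0
        unfold fats at ht0
        have h1 := (mem_filter.1 ht0).2.2
        have h2 : (nc P.y C (line t0)).card ≤ (G ×ˢ (univ : Finset Bool)).card := by
          apply card_le_card
          intro p hp
          exact mem_product.2 ⟨hG t0 p (mem_nc.1 hp).1, mem_univ _⟩
        rw [card_product, card_univ, Fintype.card_bool] at h2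
        omega
      have hfat3 : 2 * G.card * (fats P.y W line (cl P.y S2)).card
          ≤ f.card * (2 * G.card - W) := by
        obtain ⟨k, hk⟩ := Nat.exists_eq_add_of_le hWn
        have h1 : 2 * G.card - W = k := by omega
        rw [h1]
        set c := (f.filter fun t => p ∈ nc P.y C (line t)).card with hcdef
        have h2 : 2 * G.card * (fats P.y W line (cl P.y S2)).card
            + 2 * G.card * c ≤ 2 * G.card * f.card := by
          rw [← mul_add]
          exact Nat.mul_le_mul_left _ hfat2
        have h3 : 2 * G.card * f.card = f.card * W + f.card * k := by rw [hk]; ring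
        omega
      have hfat4 : (fats P.y W line (cl P.y S2)).card * (2 * G.card - W) ^ t
          < (2 * G.card) ^ t := by
        have h1 : 2 * G.card * ((fats P.y W line (cl P.y S2)).card *
            (2 * G.card - W) ^ t) < 2 * G.card * (2 * G.card) ^ t := by
          calc 2 * G.card * ((fats P.y W line (cl P.y S2)).card *
              (2 * G.card - W) ^ t)
              = (2 * G.card * (fats P.y W line (cl P.y S2)).card) *
              (2 * G.card - W) ^ t := by ring
            _ ≤ (f.card * (2 * G.card - W)) * (2 * G.card - W) ^ t :=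
                Nat.mul_le_mul_right _ hfat3
            _ = f.card * (2 * G.card - W) ^ (t + 1) := by rw [pow_succ]; ring
            _ < (2 * G.card) ^ (t + 1) := hfat
            _ = _ := by rw [pow_succ]; ring
        exact Nat.lt_of_mul_lt_mul_left h1
      obtain ⟨e2, g1, g2, g3, g4, g5, g6⟩ := ih S2 (b - (rems e1).length) (by omega) hh hsize2 hfat4
      refine ⟨v :: (e1 ++ e2), ⟨trivial, ?_⟩, ?_, ?_, ?_, ?_, ?_⟩
      · rw [valid_append]
        exact ⟨he1, g1⟩
      · show nk (e1 ++ e2) + 1 ≤ t + 1
        rw [nk_append]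
        omega
      · show ns (e1 ++ e2) = 0
        rw [ns_append]
        omega
      · show (rems (e1 ++ e2)).length ≤ b
        rw [rems_append, List.length_append]
        omega
      · intro d hd
        have hd2 : d ∈ rems (e1 ++ e2) := hd
        rw [rems_append, List.mem_append] at hd2
        rcases hd2 with hd2 | hd2
        · exact he5 d hd2
        · exact g5 d hd2
      · rcases g6 with g6 | g6
        · left
          show (rems (e1 ++ e2)).length = b
          rw [rems_append, List.length_append]
          omega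
        · right
          have : run P S (v :: (e1 ++ e2)) = run P S2 e2 := by
            show run P S1 (e1 ++ e2) = _
            rw [run_append]
          rw [this]
          exact g6

end

end Pool.Agent.MP_e81270_lc.X3
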