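import Mathlib

/-!
# Fixing coordinates

A large set of functions `I → D` contains a nonempty subset, given by the values on a set `I0` of
coordinates, in which the other coordinates are nearly independent.
-/

set_option autoImplicit false

namespace Pool.Agent.MP_e81270_lc.X3

open Finset

variable {I D : Type} [Fintype I] [DecidableEq I] [Fintype D] [DecidableEq D]

/-- the functions in `B` which agree with `v` on `J` -/
def fixOn (B : Finset (I → D)) (J : Finset I) (v : I → D) : Finset (I → D) :=
  B.filter fun F => ∀ i ∈ J, F i = v i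

lemma mem_fixOn {B : Finset (I → D)} {J : Finset I} {v F : I → D} :
    F ∈ fixOn B J v ↔ F ∈ B ∧ ∀ i ∈ J, F i = v i := by
  unfold fixOn
  rw [mem_filter]

lemma card_fixOn_le (B : Finset (I → D)) (J : Finset I) (v : I → D) :
    (fixOn B J v).card * Fintype.card D ^ J.card ≤ Fintype.card D ^ Fintype.card I := by
  classical
  have h1 : fixOn B J v ⊆ Fintype.piFinset fun i => if i ∈ J then {v i} else univ := by
    intro F hF
    rw [Fintype.mem_piFinset]
    intro i
    have := (mem_filter.1 hF).2 i
    split_ifs with h
    · rw [mem_singleton]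
      exact this h
    · exact mem_univ _
  have h2 : (Fintype.piFinset fun i => if i ∈ J then {v i} else (univ : Finset D)).card
      = Fintype.card D ^ (Fintype.card I - J.card) := by
    rw [Fintype.card_piFinset]
    have : ∀ i, (if i ∈ J then {v i} else (univ : Finset D)).card
        = if i ∈ J then 1 else Fintype.card D := by
      intro i
      split_ifs
      · exact card_singleton _
      · exact card_univ
    simp only [this]
    rw [prod_ite, prod_const_one, one_mul, prod_const]
    congr 1
    rw [filter_not, card_sdiff_of_subset (filter_subset _ _), card_univ]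
    congr 2
    ext i
    simp
  calc (fixOn B J v).card * Fintype.card D ^ J.card
      ≤ Fintype.card D ^ (Fintype.card I - J.card) * Fintype.card D ^ J.card := by
        gcongr
        rw [← h2]
        exact card_le_card h1
    _ = Fintype.card D ^ Fintype.card I := by
        rw [← pow_add, Nat.sub_add_cancel (card_le_univ J)]

theorem presample (B : Finset (I → D)) (hB : B.Nonempty) (r : ℕ) (hr : 1 ≤ r) :
    ∃ (I0 : Finset I) (f0 : I → D), (fixOn B I0 f0).Nonempty ∧
      r ^ I0.card * B.card ≤ Fintype.card D ^ Fintype.card I ∧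
      ∀ (J : Finset I), Disjoint J I0 → ∀ v : I → D,
        (fixOn (fixOn B I0 f0) J v).card * Fintype.card D ^ J.card
          ≤ r ^ J.card * (fixOn B I0 f0).card := by
  classical
  set T := Fintype.card D with hT
  obtain ⟨F0, hF0⟩ := hB
  set S : Finset (Finset I × (I → D)) := univ.filter fun p =>
    r ^ p.1.card * B.card ≤ (fixOn B p.1 p.2).card * T ^ p.1.card with hS
  have hne : S.Nonempty := by
    refine ⟨(∅, F0), ?_⟩
    rw [hS, mem_filter]
    refine ⟨mem_univ _, ?_⟩
    have : fixOn B ∅ F0 = B := by
      unfold fixOn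
      rw [filter_true_of_mem]
      intro F _ i hi
      exact absurd hi (notMem_empty i)
    simp [this]
  obtain ⟨p, hp, hmax⟩ := S.exists_max_image (fun p => p.1.card) hne
  obtain ⟨I0, f0⟩ := p
  have hp2 : r ^ I0.card * B.card ≤ (fixOn B I0 f0).card * T ^ I0.card := (mem_filter.1 hp).2
  have hBpos : 0 < B.card := card_pos.2 ⟨F0, hF0⟩
  have hpos : 0 < (fixOn B I0 f0).card := by
    have h1 : 0 < r ^ I0.card * B.card := by positivity
    exact Nat.pos_of_mul_pos_right (lt_of_lt_of_le h1 hp2)
  refine ⟨I0, f0, card_pos.1 hpos, hp2.trans (card_fixOn_le B I0 f0), ?_⟩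
  intro J hJ v
  by_contra hcon
  push Not at hcon
  have hJne : J.Nonempty := by
    rw [nonempty_iff_ne_empty]
    rintro rfl
    have : fixOn (fixOn B I0 f0) ∅ v = fixOn B I0 f0 := by
      conv_lhs => unfold fixOn
      rw [filter_true_of_mem]
      · rfl
      intro F _ i hi
      exact absurd hi (notMem_empty i)
    rw [this] at hcon
    simp at hcon
  set g : I → D := fun i => if i ∈ I0 then f0 i else v i with hg
  have hsub : fixOn (fixOn B I0 f0) J v ⊆ fixOn B (I0 ∪ J) g := by
    intro F hF
    unfold fixOn at hF ⊢
    simp only [mem_filter] at hF ⊢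
    refine ⟨hF.1.1, fun i hi => ?_⟩
    rw [hg]
    dsimp only
    split_ifs with h
    · exact hF.1.2 i h
    · exact hF.2 i ((mem_union.1 hi).resolve_left h)
  have hcard : (I0 ∪ J).card = I0.card + J.card := card_union_of_disjoint hJ.symm
  have hmem : (I0 ∪ J, g) ∈ S := by
    rw [hS, mem_filter]
    refine ⟨mem_univ _, ?_⟩
    show r ^ (I0 ∪ J).card * B.card ≤ (fixOn B (I0 ∪ J) g).card * T ^ (I0 ∪ J).card
    rw [hcard]
    calc r ^ (I0.card + J.card) * B.card = r ^ J.card * (r ^ I0.card * B.card) := by
          rw [pow_add]; ring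
      _ ≤ r ^ J.card * ((fixOn B I0 f0).card * T ^ I0.card) := Nat.mul_le_mul_left _ hp2
      _ = (r ^ J.card * (fixOn B I0 f0).card) * T ^ I0.card := by ring
      _ ≤ ((fixOn (fixOn B I0 f0) J v).card * T ^ J.card) * T ^ I0.card :=
          Nat.mul_le_mul_right _ hcon.le
      _ ≤ ((fixOn B (I0 ∪ J) g).card * T ^ J.card) * T ^ I0.card := by
          gcongr
      _ = (fixOn B (I0 ∪ J) g).card * T ^ (I0.card + J.card) := by rw [pow_add]; ring
  have := hmax _ hmem
  dsimp only at this
  rw [hcard] at this
  have := card_pos.2 hJne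
  omega

end Pool.Agent.MP_e81270_lc.X3
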