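import Pool.Agent.Lib.MP_e81270_lc_X3.Base
import Pool.Agent.Lib.MP_e81270_lc_X3.Presample
import Pool.Agent.Lib.MP_e81270_lc_X3.Closures

/-!
# Transcripts

The state is a set of points.  Events: restrict an atom (after the closure), restrict to a member
of a family (after the closure and outside the small set), remove a heavy clause.
-/

set_option autoImplicit false
set_option linter.unusedSectionVars false
set_option linter.unnecessarySeqFocus false

namespace Pool.Agent.MP_e81270_lc.X3

open Finset

/-- data of the process: the atoms, the family for the small sets, the family for the starts, the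
two thresholds -/
structure Proc (N : ℕ) (α ι κ : Type) where
  y : Pt N → α → Bool
  V : ι → Finset (Pt N)
  Z : κ → Finset (Pt N)
  H : ℕ
  θ : ℕ

/-- events: kill (atom and new value), start (member of the family), remove (clause) -/
abbrev Ev (N w : ℕ) (α κ : Type) := (α × Bool) ⊕ (κ ⊕ Cl N w)

section

variable {N w : ℕ} {α ι κ : Type} [Fintype α] [DecidableEq α] [Fintype ι] [DecidableEq ι]
  [Fintype κ] [DecidableEq κ]

/-- the next state -/
noncomputable def step (P : Proc N α ι κ) (S : Finset (Pt N)) : Ev N w α κ → Finset (Pt N)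
  | .inl p => (cl P.y S).filter fun x => P.y x p.1 = p.2
  | .inr (.inl a) => (P.Z a ∩ cl P.y S) \ exB P.V P.θ (cl P.y S)
  | .inr (.inr d) => S \ cube d

/-- an allowed event -/
def good (P : Proc N α ι κ) (S : Finset (Pt N)) : Ev N w α κ → Prop
  | .inl _ => True
  | .inr (.inl _) => True
  | .inr (.inr d) => P.θ < S.card ∧ S.card ≤ P.H * (S ∩ cube d).card

/-- a list of allowed events -/
def valid (P : Proc N α ι κ) : Finset (Pt N) → List (Ev N w α κ) → Prop
  | _, [] => True
  | S, v :: e => good P S v ∧ valid P (step P S v) e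

/-- the final state -/
noncomputable def run (P : Proc N α ι κ) : Finset (Pt N) → List (Ev N w α κ) → Finset (Pt N)
  | S, [] => S
  | S, v :: e => run P (step P S v) e

/-- number of kills -/
def nk : List (Ev N w α κ) → ℕ
  | [] => 0
  | .inl _ :: e => nk e + 1
  | .inr _ :: e => nk e

/-- number of starts -/
def ns : List (Ev N w α κ) → ℕ
  | [] => 0
  | .inl _ :: e => ns e
  | .inr (.inl _) :: e => ns e + 1
  | .inr (.inr _) :: e => ns e

/-- the removed clauses -/
def rems : List (Ev N w α κ) → List (Cl N w)
  | [] => []
  | .inl _ :: e => rems e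
  | .inr (.inl _) :: e => rems e
  | .inr (.inr d) :: e => d :: rems e

lemma length_eq (e : List (Ev N w α κ)) : e.length = nk e + ns e + (rems e).length := by
  induction e with
  | nil => rfl
  | cons v e ih =>
    rcases v with p | a | d <;> simp only [List.length_cons, nk, ns, rems, ih] <;> omega

lemma valid_append (P : Proc N α ι κ) (S : Finset (Pt N)) (e e' : List (Ev N w α κ)) :
    valid P S (e ++ e') ↔ valid P S e ∧ valid P (run P S e) e' := by
  induction e generalizing S with
  | nil => simp [valid, run]
  | cons v e ih => simp only [List.cons_append, valid, run, ih, and_assoc]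

lemma run_append (P : Proc N α ι κ) (S : Finset (Pt N)) (e e' : List (Ev N w α κ)) :
    run P S (e ++ e') = run P (run P S e) e' := by
  induction e generalizing S with
  | nil => rfl
  | cons v e ih => simp only [List.cons_append, run, ih]

lemma nk_append (e e' : List (Ev N w α κ)) : nk (e ++ e') = nk e + nk e' := by
  induction e with
  | nil => simp [nk]
  | cons v e ih => rcases v with p | a | d <;> simp only [List.cons_append, nk, ih] <;> omega

lemma ns_append (e e' : List (Ev N w α κ)) : ns (e ++ e') = ns e + ns e' := by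
  induction e with
  | nil => simp [ns]
  | cons v e ih => rcases v with p | a | d <;> simp only [List.cons_append, ns, ih] <;> omega

lemma rems_append (e e' : List (Ev N w α κ)) : rems (e ++ e') = rems e ++ rems e' := by
  induction e with
  | nil => simp [rems]
  | cons v e ih => rcases v with p | a | d <;> simp only [List.cons_append, rems, ih]

lemma step_sub (P : Proc N α ι κ) (S : Finset (Pt N)) (v : Ev N w α κ) : step P S v ⊆ S := by
  rcases v with p | a | d
  · exact (filter_subset _ _).trans (cl_sub _ _)
  · exact sdiff_subset.trans (inter_subset_right.trans (cl_sub _ _))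
  · exact sdiff_subset

lemma run_sub (P : Proc N α ι κ) (S : Finset (Pt N)) (e : List (Ev N w α κ)) : run P S e ⊆ S := by
  induction e generalizing S with
  | nil => exact Subset.refl _
  | cons v e ih => exact (ih _).trans (step_sub P S v)

/-- removed clauses are distinct and meet the first state -/
lemma valid_rems (P : Proc N α ι κ) (S : Finset (Pt N)) (e : List (Ev N w α κ)) (h : valid P S e) :
    (rems e).Nodup ∧ ∀ d ∈ rems e, (S ∩ cube d).Nonempty := by
  induction e generalizing S with
  | nil => simp [rems]
  | cons v e ih =>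
    obtain ⟨h1, h2⟩ := h
    obtain ⟨h3, h4⟩ := ih _ h2
    have h5 : ∀ d ∈ rems e, (S ∩ cube d).Nonempty := fun d hd =>
      (h4 d hd).mono (inter_subset_inter_right (step_sub P S v))
    rcases v with p | a | d
    · exact ⟨h3, h5⟩
    · exact ⟨h3, h5⟩
    · simp only [rems, List.nodup_cons, List.mem_cons, forall_eq_or_imp]
      refine ⟨⟨fun hd => ?_, h3⟩, ?_, h5⟩
      · obtain ⟨x, hx⟩ := h4 d hd
        have hx1 := mem_inter.1 hx
        exact (mem_sdiff.1 hx1.1).2 hx1.2
      · obtain ⟨h6, h7⟩ := h1
        have h9 : 0 < S.card := by omega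
        refine card_pos.1 ?_
        rcases Nat.eq_zero_or_pos (S ∩ cube d).card with h | h
        · rw [h, mul_zero] at h7
          omega
        · exact h

/-! ### Kraft inequality -/

/-- weight of an event -/
noncomputable def wt (h : ℝ) : Ev N w α κ → ℝ
  | .inl _ => 1 / (2 * Fintype.card α : ℝ)
  | .inr (.inl _) => 1 / (Fintype.card κ : ℝ)
  | .inr (.inr _) => 1 / h

lemma wt_nonneg {h : ℝ} (hh : 0 < h) (v : Ev N w α κ) : 0 ≤ wt h v := by
  rcases v with p | a | d <;> unfold wt <;> positivity

lemma wt_prod (h : ℝ) (e : List (Ev N w α κ)) :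
    (e.map (wt h)).prod = (1 / (2 * Fintype.card α : ℝ)) ^ nk e *
      (1 / (Fintype.card κ : ℝ)) ^ ns e * (1 / h) ^ (rems e).length := by
  induction e with
  | nil => simp [nk, ns, rems]
  | cons v e ih =>
    rcases v with p | a | d
    · simp only [List.map_cons, List.prod_cons, ih, nk, ns, rems, wt, pow_succ]
      ring
    · simp only [List.map_cons, List.prod_cons, ih, nk, ns, rems, wt, pow_succ]
      ring
    · simp only [List.map_cons, List.prod_cons, ih, nk, ns, rems, wt, pow_succ, List.length_cons]
      ring

open Classical in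
/-- the valid lists of length `n` -/
noncomputable def VL (P : Proc N α ι κ) : ℕ → Finset (Pt N) → Finset (List (Ev N w α κ))
  | 0, _ => {[]}
  | n + 1, S => (univ.filter (good P S)).biUnion fun v => (VL P n (step P S v)).image (List.cons v)

open Classical in
lemma VL_succ (P : Proc N α ι κ) (n : ℕ) (S : Finset (Pt N)) :
    (VL P (n + 1) S : Finset (List (Ev N w α κ))) = (univ.filter (good P S)).biUnion fun v =>
      (VL P n (step P S v)).image (List.cons v) := rfl

lemma mem_VL (P : Proc N α ι κ) (n : ℕ) (S : Finset (Pt N)) (e : List (Ev N w α κ)) :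
    e ∈ VL P n S ↔ e.length = n ∧ valid P S e := by
  classical
  induction n generalizing S e with
  | zero =>
    simp only [VL, mem_singleton]
    constructor
    · rintro rfl
      exact ⟨rfl, trivial⟩
    · rintro ⟨h, -⟩
      exact List.length_eq_zero_iff.1 h
  | succ n ih =>
    simp only [VL, mem_biUnion, mem_filter, mem_univ, true_and, mem_image]
    constructor
    · rintro ⟨v, hv, e', he', rfl⟩
      have := (ih _ _).1 he'
      exact ⟨by simp [this.1], hv, this.2⟩
    · rintro ⟨h1, h2⟩
      rcases e with _ | ⟨v, e⟩
      · simp at h1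
      · exact ⟨v, h2.1, e, (ih _ _).2 ⟨by simpa using h1, h2.2⟩, rfl⟩

lemma good_sum (P : Proc N α ι κ) (h : ℝ) (hh : 0 < h) (S : Finset (Pt N))
    (hb : P.θ < S.card → ((hvy P.H S : Finset (Cl N w)).card : ℝ) ≤ h)
    [DecidablePred (good (w := w) P S)] :
    ∑ v ∈ univ.filter (good (w := w) P S), wt h v ≤ 3 := by
  classical
  rw [sum_filter, Fintype.sum_sum_type, Fintype.sum_sum_type]
  have h1 : ∑ p : α × Bool, (if good (w := w) P S (.inl p) then
      wt (N := N) (w := w) (κ := κ) h (.inl p) else 0) ≤ 1 := by
    have e1 : ∀ p : α × Bool, (if good (w := w) P S (.inl p) then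
        wt (N := N) (w := w) (κ := κ) h (.inl p) else 0) = 1 / (2 * Fintype.card α : ℝ) :=
      fun p => if_pos trivial
    rw [sum_congr rfl fun p _ => e1 p, sum_const, card_univ, nsmul_eq_mul, Fintype.card_prod,
      Fintype.card_bool]
    push_cast
    rcases eq_or_ne (Fintype.card α : ℝ) 0 with h0 | h0
    · rw [h0]
      simp
    · rw [mul_comm (Fintype.card α : ℝ) 2, mul_one_div, div_self (mul_ne_zero two_ne_zero h0)]
  have h2 : ∑ a : κ, (if good (w := w) P S (.inr (.inl a)) then
      wt (N := N) (w := w) (α := α) h (.inr (.inl a)) else 0) ≤ 1 := by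
    have e1 : ∀ a : κ, (if good (w := w) P S (.inr (.inl a)) then
        wt (N := N) (w := w) (α := α) h (.inr (.inl a)) else 0) = 1 / (Fintype.card κ : ℝ) :=
      fun a => if_pos trivial
    rw [sum_congr rfl fun a _ => e1 a, sum_const, card_univ, nsmul_eq_mul]
    rcases eq_or_ne (Fintype.card κ : ℝ) 0 with h0 | h0
    · rw [h0]
      simp
    · rw [mul_one_div, div_self h0]
  have h3 : ∑ d : Cl N w, (if good (w := w) P S (.inr (.inr d)) then
      wt (α := α) (κ := κ) h (.inr (.inr d)) else 0) ≤ 1 := by
    by_cases hS : P.θ < S.card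
    · have h4 : ∀ d : Cl N w, (if good (w := w) P S (.inr (.inr d)) then
          wt (α := α) (κ := κ) h (.inr (.inr d)) else 0)
          = if d ∈ hvy P.H S then 1 / h else 0 := by
        intro d
        have : good (w := w) P S (.inr (.inr d)) ↔ d ∈ hvy P.H S := by
          simp only [good, hvy, mem_filter, mem_univ, true_and]
          exact ⟨fun h => h.2, fun h => ⟨hS, h⟩⟩
        by_cases hd : d ∈ hvy P.H S
        · rw [if_pos (this.2 hd), if_pos hd]
          rfl
        · rw [if_neg (fun h => hd (this.1 h)), if_neg hd]
      simp only [h4]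
      rw [← sum_filter, sum_const, nsmul_eq_mul, mul_one_div, div_le_one hh]
      refine le_trans ?_ (hb hS)
      exact_mod_cast card_le_card (fun d hd => (mem_filter.1 hd).2)
    · rw [sum_eq_zero]
      · exact zero_le_one
      · intro d _
        rw [if_neg]
        rintro ⟨h5, -⟩
        exact hS h5
  linarith

theorem kraft (P : Proc N α ι κ) (h : ℝ) (hh : 0 < h)
    (hb : ∀ S : Finset (Pt N), P.θ < S.card → ((hvy P.H S : Finset (Cl N w)).card : ℝ) ≤ h)
    (n : ℕ) (S : Finset (Pt N)) :
    ∑ e ∈ (VL P n S : Finset (List (Ev N w α κ))), (e.map (wt h)).prod ≤ 3 ^ n := by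
  classical
  induction n generalizing S with
  | zero => simp [VL]
  | succ n ih =>
    have hnn : ∀ e : List (Ev N w α κ), 0 ≤ (e.map (wt h)).prod := by
      intro e
      refine List.prod_nonneg fun a ha => ?_
      obtain ⟨v, _, rfl⟩ := List.mem_map.1 ha
      exact wt_nonneg hh v
    have h1 : ∑ e ∈ (VL P (n + 1) S : Finset (List (Ev N w α κ))), (e.map (wt h)).prod
        ≤ ∑ v ∈ univ.filter (good (w := w) P S),
          ∑ e ∈ (VL P n (step P S v)).image (List.cons v), (e.map (wt h)).prod := by
      rw [VL_succ, sum_biUnion]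
      · intro v _ v' _ hvv
        rw [Function.onFun, disjoint_left]
        intro e he he'
        obtain ⟨e1, _, rfl⟩ := mem_image.1 he
        obtain ⟨e2, _, h2⟩ := mem_image.1 he'
        exact hvv (List.cons.inj h2).1.symm
    refine h1.trans ?_
    have h2 : ∀ v ∈ univ.filter (good (w := w) P S),
        ∑ e ∈ (VL P n (step P S v)).image (List.cons v), (e.map (wt h)).prod
          ≤ wt h v * 3 ^ n := by
      intro v _
      rw [sum_image (fun a _ b _ hab => (List.cons.inj hab).2)]
      simp only [List.map_cons, List.prod_cons]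
      rw [← mul_sum]
      exact mul_le_mul_of_nonneg_left (ih _) (wt_nonneg hh v)
    calc _ ≤ ∑ v ∈ univ.filter (good (w := w) P S), wt h v * 3 ^ n := sum_le_sum h2
      _ = (∑ v ∈ univ.filter (good (w := w) P S), wt h v) * 3 ^ n := by rw [sum_mul]
      _ ≤ 3 * 3 ^ n := by
          refine mul_le_mul_of_nonneg_right ?_ (by positivity)
          exact good_sum P h hh S (hb S)
      _ = 3 ^ (n + 1) := by ring

end

end Pool.Agent.MP_e81270_lc.X3
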